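import Pool.Agent.W2helper48.JT.Dbl

/-!
# Double covers: the global theorem
-/

set_option autoImplicit false
set_option linter.unusedSectionVars false

namespace Pool.Agent.W2helper48.JT

open Finset Filter Function
open Q282.CL
open Q282.GK (kbox)
open Q285HS (FewBad lln IV)
open Pool.Agent.Y722.HS (Mon mev form)

/-- the trace for all `p` -/
noncomputable def trD (n δ j p : ℕ) (c : Mon n δ → ZMod p) : ℝ :=
  open Classical in
  if h : p.Prime ∧ p ≠ 2 then
    haveI : Fact p.Prime := ⟨h.1⟩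
    TD j c
  else 0

lemma trD_eq (n δ j p : ℕ) [hp : Fact p.Prime] (h2 : p ≠ 2) (c : Mon n δ → ZMod p) : trD n δ j p c = TD j c := by
  unfold trD
  rw [dif_pos ⟨hp.out, h2⟩]

lemma trD_abs (n δ D : ℕ) (j : ℕ) (hj : j ∈ Icc 1 D) (p : ℕ) (hp : p.Prime) (c : Mon n δ → ZMod p) :
    |trD n δ j p c| ≤ 2 * (p : ℝ) ^ (D * n) := by
  have hF : Fact p.Prime := ⟨hp⟩
  rw [mem_Icc] at hj
  have hp1 : (1 : ℝ) ≤ p := by exact_mod_cast hp.one_lt.le
  by_cases h2 : p = 2
  · have : trD n δ j p c = 0 := by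
      unfold trD
      rw [dif_neg fun h => h.2 h2]
    rw [this, abs_zero]
    positivity
  rw [trD_eq n δ j p h2]
  have hjne : j ≠ 0 := by omega
  have hb1 : 1 ≤ sD p n j := one_le_pow₀ (one_lt_sp p).le
  unfold TD
  rw [abs_div, abs_of_pos (by linarith : 0 < sD p n j)]
  refine (div_le_self (abs_nonneg _) hb1).trans ?_
  have h3 : |∑ v ∈ j.divisors.biUnion fun d => MM n p d, qc j (vl c v)| ≤ ((j.divisors.biUnion fun d => MM n p d).card : ℝ) := by
    refine (abs_sum_le_sum_abs _ _).trans ((sum_le_sum fun v _ => qc_abs j _).trans (le_of_eq ?_))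
    rw [sum_const, nsmul_eq_mul, mul_one]
  refine h3.trans ?_
  have h4 : ((j.divisors.biUnion fun d => MM n p d).card : ℝ) ≤ ∑ i ∈ range (n + 1), ((p : ℝ) ^ j) ^ i := by
    have h5 : (j.divisors.biUnion fun d => MM n p d).card ≤ ∑ i ∈ range (n + 1), (p ^ j) ^ i := by
      rw [← card_div (n := n) (p := p) j hjne]
      exact card_biUnion_le
    exact_mod_cast h5
  refine h4.trans ?_
  have h5 := geo_le ((p : ℝ) ^ j) (two_le_pj j hjne) n
  rw [sum_range_succ]
  have h6 : ((p : ℝ) ^ j) ^ n ≤ (p : ℝ) ^ (D * n) := by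
    rw [← pow_mul]
    exact pow_le_pow_right₀ hp1 (Nat.mul_le_mul_right _ hj.2)
  linarith

/-- the singular forms; everything at the prime two -/
def BadD (n δ : ℕ) (p : ℕ) : Set (Mon n δ → ZMod p) := {u | p = 2 ∨ u ∈ BadH n δ p}

lemma fewBadD (n δ : ℕ) (hδ : 1 ≤ δ) : FewBad (BadD n δ) (δ + 3) (Pool.Agent.Y722.HS.Delta n δ).totalDegree := by
  intro p hp hpp
  have h1 := fewBadH n δ hδ p hp (by omega)
  have h2 : BadD n δ p = BadH n δ p := by
    ext u
    unfold BadD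
    constructor
    · rintro (h | h)
      · omega
      · exact h
    · exact fun h => Or.inr h
  rw [h2]
  exact h1

/-- **double covers**: for a sign `s = 1` or `s = -1` -/
theorem final_D (n δ : ℕ) (hn : 1 ≤ n) (hδ : 1 ≤ δ) (s : ℝ) (hs : |s| = 1) (ε : ℝ) (hε : 0 < ε) (hε1 : ε ≤ 1) :
    ∃ κ₀ : ℝ, 0 < κ₀ ∧ ∃ C : ℝ, 1 ≤ C ∧ ∀ (w : ℕ → ℝ), (∀ p, |w p| ≤ 1) → ∀ (N : Mon n δ → ℤ) (L : Mon n δ → ℕ) (T' : ℝ), 0 < T' →
      (∀ i, T' ≤ L i) →
      ∀ X₀ : ℕ, 1 ≤ X₀ → ∃ E : Finset (Mon n δ → ℤ), E ⊆ kbox N L ∧ (E.card : ℝ) ≤ C * (X₀ : ℝ) ^ (-(ε / 2)) * ∏ i, (L i : ℝ) ∧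
      ∀ t ∈ kbox N L, t ∉ E → ∀ Y Y' : ℕ, Y ≤ Y' → X₀ ≤ Y' → (Y' : ℝ) ≤ T' ^ κ₀ → ∀ (r : ℕ) (f : Fin r → ℕ), (∀ i, f i ∈ Icc 1 (δ + 1)) →
        2 * ∑ i, f i ≤ δ + 1 →
        |∑ p ∈ WW (BadD n δ) Y Y' t, w p * (∏ i, (s * trD n δ (f i) p (fun y => (t y : ZMod p))) - s ^ r * jm (δ + 1) f)| ≤
          C * (Y' : ℝ) ^ (1 / 2 + ε / 2) := by
  have hsr : ∀ r : ℕ, |s ^ r| = 1 := fun r => by rw [abs_pow, hs, one_pow]
  have hs2 : ∀ r : ℕ, (s ^ r) ^ 2 = 1 := fun r => by rw [← sq_abs, hsr, one_pow]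
  refine final (fun j p c => s * trD n δ j p c) (fun r f => s ^ r * jm (δ + 1) f) (δ + 1) ((δ + 1) * n) 2 (by norm_num)
    (fun j hj p hp c => ?_) (fun r f hf hfD => ?_) (BadD n δ) _ _ (fewBadD n δ hδ) ε hε hε1
  · rw [abs_mul, hs, one_mul]
    exact trD_abs n δ (δ + 1) j hj p hp c
  · obtain ⟨C, _, hC⟩ := local_D n δ (δ + 1) hn le_rfl f hf hfD
    refine ⟨C, 3, fun p hp hp3 => ?_⟩
    have : Fact p.Prime := ⟨hp⟩
    have hp2 : p ≠ 2 := by omega
    obtain ⟨h1, h2⟩ := hC p hp2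
    have h3 : ∀ c : Mon n δ → ZMod p, ∏ i, (s * trD n δ (f i) p c) = s ^ r * ∏ i, TD (f i) c := by
      intro c
      rw [prod_mul_distrib, prod_const, card_univ, Fintype.card_fin]
      congr 1
      exact prod_congr rfl fun i _ => trD_eq n δ (f i) p hp2 c
    constructor
    · rw [mn_eq (fun (p : ℕ) (c : Mon n δ → ZMod p) => ∏ i, (s * trD n δ (f i) p c))]
      simp only [h3]
      rw [av_mul, ← mul_sub, abs_mul, hsr, one_mul]
      rwa [mul_one_div] at h1
    · rw [mn_eq (fun (p : ℕ) (c : Mon n δ → ZMod p) => (∏ i, (s * trD n δ (f i) p c)) ^ 2)]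
      simp only [h3, mul_pow, hs2, one_mul]
      exact h2

section

variable {p : ℕ} [hp : Fact p.Prime] {n δ : ℕ}

/-- the points of the double cover over the Galois field -/
lemma card_D (j : ℕ) (hj : j ≠ 0) (t : Mon n δ → ℤ) :
    (Nat.card {x : (Fin (n + 1) → GaloisField p j) × GaloisField p j // Nrm x.1 ∧ x.2 ^ 2 = MvPolynomial.aeval x.1 (form t)} : ℝ) =
      ∑ i ∈ range (n + 1), ((p : ℝ) ^ j) ^ i + ∑ v ∈ j.divisors.biUnion fun d => MM n p d, qc j (vl (fun ν => (t ν : ZMod p)) v) := by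
  classical
  obtain ⟨U, hU⟩ : ∃ U : Finset (Fin (n + 1) → Om p), U = j.divisors.biUnion fun d => MM n p d := ⟨_, rfl⟩
  have hUPS : ∀ w, w ∈ U ↔ w ∈ PS n p j := fun w => by rw [hU, PS_eq j hj, mem_coe]
  have h1 : Nat.card {x : (Fin (n + 1) → GaloisField p j) × GaloisField p j // Nrm x.1 ∧ x.2 ^ 2 = MvPolynomial.aeval x.1 (form t)} =
      {x : (Fin (n + 1) → GaloisField p j) × GaloisField p j | Nrm x.1 ∧ x.2 ^ 2 = MvPolynomial.aeval x.1 (form t)}.ncard := rfl
  have hsg : Injective (sg p j) := (sg p j).toRingHom.injective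
  have hinj : Injective fun x : (Fin (n + 1) → GaloisField p j) × GaloisField p j => ((fun i => sg p j (x.1 i)), sg p j x.2) := by
    intro x y h
    refine Prod.ext ?_ ?_
    · funext i
      exact hsg (congrFun (congrArg Prod.fst h) i)
    · exact hsg (congrArg Prod.snd h)
  have h2 : (fun x : (Fin (n + 1) → GaloisField p j) × GaloisField p j => ((fun i => sg p j (x.1 i)), sg p j x.2)) ''
      {x | Nrm x.1 ∧ x.2 ^ 2 = MvPolynomial.aeval x.1 (form t)} =
      ↑(U.biUnion fun v => (univ.filter fun y : EE p j => (y : Om p) ^ 2 = vl (fun ν => (t ν : ZMod p)) v).image fun y : EE p j => (v, (y : Om p))) := by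
    ext ⟨w, z⟩
    rw [mem_coe, mem_biUnion]
    constructor
    · rintro ⟨⟨v, y⟩, ⟨hv, hy⟩, h⟩
      have hw : (fun i => sg p j (v i)) = w := congrArg Prod.fst h
      have hz : sg p j y = z := congrArg Prod.snd h
      refine ⟨w, ?_, ?_⟩
      · rw [hUPS, ← hw]
        refine ⟨(nrm_map v).2 hv, ?_⟩
        rw [per_iff hj]
        exact fun i => (mem_range_sg j hj _).1 ⟨v i, rfl⟩
      · rw [mem_image]
        refine ⟨⟨sg p j y, (mem_range_sg j hj _).1 ⟨y, rfl⟩⟩, ?_, ?_⟩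
        · rw [mem_filter]
          refine ⟨mem_univ _, ?_⟩
          show sg p j y ^ 2 = _
          rw [← hw, ← sg_aeval, ← map_pow]
          exact congrArg _ hy
        · rw [← hz]
    · rintro ⟨v, hv, hvz⟩
      rw [mem_image] at hvz
      obtain ⟨y, hy, h⟩ := hvz
      have hvw : v = w := congrArg Prod.fst h
      have hyz : (y : Om p) = z := congrArg Prod.snd h
      subst hvw
      rw [hUPS] at hv
      obtain ⟨hv1, hv2⟩ := hv
      rw [per_iff hj] at hv2
      choose u hu using fun i => (mem_range_sg j hj (v i)).2 (hv2 i)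
      have h4 : (fun i => sg p j (u i)) = v := funext hu
      obtain ⟨x, hx⟩ := (mem_range_sg j hj (y : Om p)).2 y.2
      refine ⟨(u, x), ⟨?_, ?_⟩, ?_⟩
      · rw [← nrm_map, h4]
        exact hv1
      · apply hsg
        show sg p j (x ^ 2) = sg p j (MvPolynomial.aeval u (form t))
        rw [sg_aeval, h4, map_pow, hx]
        exact (mem_filter.1 hy).2
      · show ((fun i => sg p j (u i)), sg p j x) = (v, z)
        rw [h4, hx, hyz]
  rw [h1, ← Set.ncard_image_of_injective _ hinj, h2, Set.ncard_coe_finset, card_biUnion]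
  · have h3 : ∀ v ∈ U, (((univ.filter fun y : EE p j => (y : Om p) ^ 2 = vl (fun ν => (t ν : ZMod p)) v).image fun y : EE p j => (v, (y : Om p))).card : ℝ) =
        1 + qc j (vl (fun ν => (t ν : ZMod p)) v) := by
      intro v _
      rw [card_image_of_injective _ fun a b h => Subtype.ext (congrArg Prod.snd h)]
      unfold qc
      rw [add_sub_cancel]
    push_cast
    rw [sum_congr rfl h3, sum_add_distrib, sum_const, nsmul_eq_mul, mul_one, ← hU]
    congr 1
    have h4 : (U.card : ℝ) = ∑ i ∈ range (n + 1), ((p : ℝ) ^ j) ^ i := by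
      have h5 : U.card = ∑ i ∈ range (n + 1), (p ^ j) ^ i := by
        rw [← card_PS (n := n) (p := p) j hj, PS_eq j hj, Set.ncard_coe_finset, hU]
      rw [h5]
      push_cast
      rfl
    exact h4
  · intro v _ v' _ hne
    rw [Function.onFun, disjoint_left]
    intro x hx hx'
    rw [mem_image] at hx hx'
    obtain ⟨y, _, rfl⟩ := hx
    obtain ⟨y', _, h⟩ := hx'
    exact hne (congrArg Prod.fst h).symm

end

end Pool.Agent.W2helper48.JT
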