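import Pool.Agent.W2helper48.JT.Blk
import Pool.Agent.Q285.HS.Loc

/-!
# Joint moments of normalised sums: the abstract local computation
-/

set_option autoImplicit false
set_option linter.unusedSectionVars false

namespace Pool.Agent.W2helper48.JT

open Finset
open Q282.CL
open Q282MM (gm)
open Q285HS (pow_sub_one_le)

/-- the mean: `1` in even degrees -/
def eta (j : ℕ) : ℝ := if Even j then 1 else 0

lemma eta_nonneg (j : ℕ) : 0 ≤ eta j := by
  unfold eta
  split_ifs <;> norm_num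

lemma eta_le (j : ℕ) : eta j ≤ 1 := by
  unfold eta
  split_ifs <;> norm_num

/-- the moment of order `k` of the normal law with the mean `eta j` and the variance `j` -/
noncomputable def nm (j k : ℕ) : ℝ := ∑ i ∈ range (k + 1), Real.sqrt j ^ i * gm i * eta j ^ (k - i) * (k.choose i : ℝ)

/-- one dimension: the moments of the normalised sum -/
lemma one_dim (j k : ℕ) (C₀ : ℝ) (hC₀ : 1 ≤ C₀) : ∃ C : ℝ, 1 ≤ C ∧ ∀ (α : Type) [Fintype α] [Nonempty α] (S : α → ℝ) (s r v ε : ℝ),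
    0 < s → 0 ≤ v → 0 ≤ r → r ≤ C₀ * s → 1 / s ≤ ε → 0 ≤ j * v / s ^ 2 → j * v / s ^ 2 ≤ 2 → |j * v / s ^ 2 - 1| ≤ C₀ * ε →
    (∀ i ≤ k, |av (fun c => S c ^ i) - (gm i : ℝ) * v ^ (i / 2)| ≤ C₀ * r ^ (i - 1)) → ∀ i ≤ k,
      |av (fun c => (j * S c / s) ^ i) - Real.sqrt j ^ i * gm i| ≤ C * ε := by
  obtain ⟨G, hG⟩ : ∃ G : ℝ, G = ∑ j ∈ range (k + 1), (gm j : ℝ) := ⟨_, rfl⟩
  have hGj : ∀ j ≤ k, (gm j : ℝ) ≤ G := fun j hj => by
    rw [hG]
    exact single_le_sum (f := fun j => (gm j : ℝ)) (fun i _ => Nat.cast_nonneg _) (mem_range.2 (by omega))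
  have hG0 : 0 ≤ G := (Nat.cast_nonneg _).trans (hGj 0 (by omega))
  obtain ⟨R, hR⟩ : ∃ R : ℝ, R = (j : ℝ) + 1 := ⟨_, rfl⟩
  have hR1 : 1 ≤ R := by
    rw [hR]
    linarith [(Nat.cast_nonneg j : (0 : ℝ) ≤ j)]
  have hRj : (j : ℝ) ≤ R := by
    rw [hR]
    linarith
  refine ⟨R ^ k * (C₀ * C₀ ^ k) + R ^ k * G * (k * 2 ^ k * C₀) + 1, ?_, ?_⟩
  · have h1 : 0 ≤ R ^ k * (C₀ * C₀ ^ k) + R ^ k * G * (k * 2 ^ k * C₀) := by positivity
    linarith
  intro α _ _ S s r v ε hs hv hr hrs hsε ha0 ha2 ha1 hm i hi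
  have hε0 : 0 < ε := lt_of_lt_of_le (by positivity) hsε
  rcases Nat.eq_zero_or_pos i with rfl | hi0
  · simp only [pow_zero]
    rw [av_const]
    have : gm 0 = 1 := Q285HS.gm_zero
    rw [this]
    simp only [Nat.cast_one, mul_one, sub_self, abs_zero]
    positivity
  have h1 : (fun c => ((j : ℝ) * S c / s) ^ i) = fun c => ((j : ℝ) / s) ^ i * S c ^ i := by
    funext c
    rw [← mul_pow]
    congr 1
    ring
  rw [h1, av_mul]
  have h2 := hm i hi
  have hjs : 0 ≤ ((j : ℝ) / s) ^ i := by positivity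
  -- the error of the moment
  have e1 : |((j : ℝ) / s) ^ i * av (fun c => S c ^ i) - ((j : ℝ) / s) ^ i * ((gm i : ℝ) * v ^ (i / 2))| ≤ R ^ k * (C₀ * C₀ ^ k) * ε := by
    rw [← mul_sub, abs_mul, abs_of_nonneg hjs]
    refine (mul_le_mul_of_nonneg_left h2 hjs).trans ?_
    have h3 : ((j : ℝ) / s) ^ i * (C₀ * r ^ (i - 1)) ≤ ((j : ℝ) ^ i) * (C₀ * C₀ ^ (i - 1)) * (1 / s) := by
      have h4 : r ^ (i - 1) ≤ C₀ ^ (i - 1) * s ^ (i - 1) := by
        rw [← mul_pow]
        exact pow_le_pow_left₀ hr hrs _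
      have h5 : ((j : ℝ) / s) ^ i * (C₀ * r ^ (i - 1)) ≤ ((j : ℝ) / s) ^ i * (C₀ * (C₀ ^ (i - 1) * s ^ (i - 1))) := by
        refine mul_le_mul_of_nonneg_left ?_ hjs
        exact mul_le_mul_of_nonneg_left h4 (by linarith)
      refine h5.trans (le_of_eq ?_)
      obtain ⟨i', rfl⟩ : ∃ i', i = i' + 1 := ⟨i - 1, by omega⟩
      rw [Nat.add_sub_cancel, div_pow]
      have : s ≠ 0 := hs.ne'
      field_simp
      ring
    refine h3.trans ?_
    have h6 : (j : ℝ) ^ i ≤ R ^ k := (pow_le_pow_left₀ (Nat.cast_nonneg j) hRj i).trans (pow_le_pow_right₀ hR1 hi)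
    have h7 : C₀ ^ (i - 1) ≤ C₀ ^ k := pow_le_pow_right₀ hC₀ (by omega)
    gcongr
  -- the main term
  have e2 : |((j : ℝ) / s) ^ i * ((gm i : ℝ) * v ^ (i / 2)) - Real.sqrt j ^ i * gm i| ≤ R ^ k * G * (k * 2 ^ k * C₀) * ε := by
    by_cases he : Even i
    · obtain ⟨l, hl⟩ := he
      have hl2 : i = 2 * l := by omega
      have hil : i / 2 = l := by omega
      rw [hil]
      have h3 : ((j : ℝ) / s) ^ i * ((gm i : ℝ) * v ^ l) = (gm i : ℝ) * ((j : ℝ) ^ l * (j * v / s ^ 2) ^ l) := by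
        rw [hl2, pow_mul, div_pow]
        rw [div_pow, div_pow, mul_pow]
        ring
      have h4 : Real.sqrt j ^ i = (j : ℝ) ^ l := by
        rw [hl2, pow_mul, Real.sq_sqrt (Nat.cast_nonneg j)]
      rw [h3, h4]
      have h5 : (gm i : ℝ) * ((j : ℝ) ^ l * (j * v / s ^ 2) ^ l) - (j : ℝ) ^ l * gm i = (gm i : ℝ) * (j : ℝ) ^ l * ((j * v / s ^ 2) ^ l - 1) := by ring
      rw [h5, abs_mul, abs_of_nonneg (by positivity : 0 ≤ (gm i : ℝ) * (j : ℝ) ^ l)]
      have h6 := pow_sub_one_le _ ha0 ha2 l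
      have h7 : (l : ℝ) * 2 ^ l * |(j : ℝ) * v / s ^ 2 - 1| ≤ k * 2 ^ k * (C₀ * ε) := by
        have h8 : (l : ℝ) ≤ k := by exact_mod_cast (by omega : l ≤ k)
        have h9 : (2 : ℝ) ^ l ≤ 2 ^ k := pow_le_pow_right₀ (by norm_num) (by omega)
        gcongr
      have h10 : (j : ℝ) ^ l ≤ R ^ k := (pow_le_pow_left₀ (Nat.cast_nonneg j) hRj l).trans (pow_le_pow_right₀ hR1 (by omega))
      calc (gm i : ℝ) * (j : ℝ) ^ l * |((j : ℝ) * v / s ^ 2) ^ l - 1| ≤ G * R ^ k * (k * 2 ^ k * (C₀ * ε)) := by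
            refine mul_le_mul ?_ (h6.trans h7) (abs_nonneg _) (by positivity)
            exact mul_le_mul (hGj i hi) h10 (by positivity) hG0
        _ = _ := by ring
    · have : gm i = 0 := Q285HS.gm_odd he
      rw [this]
      simp only [Nat.cast_zero, zero_mul, mul_zero, sub_self, abs_zero]
      positivity
  have h8 := abs_sub_le (((j : ℝ) / s) ^ i * av (fun c => S c ^ i)) (((j : ℝ) / s) ^ i * ((gm i : ℝ) * v ^ (i / 2))) (Real.sqrt j ^ i * gm i)
  have h9 : (R ^ k * (C₀ * C₀ ^ k) + R ^ k * G * (k * 2 ^ k * C₀) + 1) * ε = R ^ k * (C₀ * C₀ ^ k) * ε + R ^ k * G * (k * 2 ^ k * C₀) * ε + ε := by ring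
  rw [h9]
  linarith

/-- the moments of the shifted variable -/
lemma shift_dim (j k : ℕ) {α : Type} [Fintype α] [Nonempty α] (X : α → ℝ) (δ : ℝ) (hδ : 0 ≤ δ)
    (h : ∀ i ≤ k, |av (fun c => X c ^ i) - Real.sqrt j ^ i * gm i| ≤ δ) : |av (fun c => (X c + eta j) ^ k) - nm j k| ≤ 2 ^ k * δ := by
  have h1 : (fun c => (X c + eta j) ^ k) = fun c => ∑ i ∈ range (k + 1), (eta j ^ (k - i) * (k.choose i : ℝ)) * X c ^ i := by
    funext c
    rw [add_pow]
    refine sum_congr rfl fun i _ => ?_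
    ring
  rw [h1, av_sum]
  unfold nm
  rw [← sum_sub_distrib]
  refine (abs_sum_le_sum_abs _ _).trans ?_
  have h2 : ∀ i ∈ range (k + 1), |av (fun c => (eta j ^ (k - i) * (k.choose i : ℝ)) * X c ^ i) -
      Real.sqrt j ^ i * gm i * eta j ^ (k - i) * (k.choose i : ℝ)| ≤ (k.choose i : ℝ) * δ := by
    intro i hi
    rw [mem_range] at hi
    rw [av_mul]
    have h3 : eta j ^ (k - i) * (k.choose i : ℝ) * av (fun c => X c ^ i) - Real.sqrt j ^ i * gm i * eta j ^ (k - i) * (k.choose i : ℝ) =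
        eta j ^ (k - i) * (k.choose i : ℝ) * (av (fun c => X c ^ i) - Real.sqrt j ^ i * gm i) := by ring
    rw [h3, abs_mul]
    have h4 : |eta j ^ (k - i) * (k.choose i : ℝ)| ≤ k.choose i := by
      rw [abs_of_nonneg (mul_nonneg (pow_nonneg (eta_nonneg j) _) (Nat.cast_nonneg _))]
      have := pow_le_one₀ (n := k - i) (eta_nonneg j) (eta_le j)
      have h5 : (0 : ℝ) ≤ k.choose i := Nat.cast_nonneg _
      nlinarith
    exact mul_le_mul h4 (h i (by omega)) (abs_nonneg _) (Nat.cast_nonneg _)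
  refine (sum_le_sum h2).trans ?_
  rw [← sum_mul]
  refine mul_le_mul_of_nonneg_right ?_ hδ
  exact_mod_cast (Nat.sum_range_choose k).le

/-! ### products -/

/-- products of near numbers -/
lemma prod_near {ι : Type} [DecidableEq ι] (s : Finset ι) (a b R : ι → ℝ) (ha : ∀ i ∈ s, |a i| ≤ R i) (hb : ∀ i ∈ s, |b i| ≤ R i) :
    |∏ i ∈ s, a i - ∏ i ∈ s, b i| ≤ ∑ k ∈ s, |a k - b k| * ∏ i ∈ s.erase k, R i := by
  induction s using Finset.induction_on with
  | empty => simp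
  | insert x s hx ih =>
    have hR : ∀ i ∈ insert x s, 0 ≤ R i := fun i hi => (abs_nonneg _).trans (ha i hi)
    have ih' := ih (fun i hi => ha i (mem_insert_of_mem hi)) (fun i hi => hb i (mem_insert_of_mem hi))
    rw [prod_insert hx, prod_insert hx, sum_insert hx, erase_insert hx]
    have h1 : a x * ∏ i ∈ s, a i - b x * ∏ i ∈ s, b i = (a x - b x) * ∏ i ∈ s, a i + b x * (∏ i ∈ s, a i - ∏ i ∈ s, b i) := by ring
    rw [h1]
    refine (abs_add_le _ _).trans (add_le_add ?_ ?_)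
    · rw [abs_mul, abs_prod]
      refine mul_le_mul_of_nonneg_left ?_ (abs_nonneg _)
      exact prod_le_prod (fun i _ => abs_nonneg _) fun i hi => ha i (mem_insert_of_mem hi)
    · rw [abs_mul]
      refine (mul_le_mul (hb x (mem_insert_self x s)) ih' (abs_nonneg _) (hR x (mem_insert_self x s))).trans (le_of_eq ?_)
      rw [mul_sum]
      refine sum_congr rfl fun k hk => ?_
      have hkx : k ≠ x := fun h => hx (h ▸ hk)
      have h2 : (insert x s).erase k = insert x (s.erase k) := erase_insert_of_ne hkx.symm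
      rw [h2, prod_insert (fun h => hx (mem_of_mem_erase h))]
      ring

/-- Cauchy-Schwarz -/
lemma av_cs {α : Type} [Fintype α] [Nonempty α] (f g : α → ℝ) : av (fun c => f c * g c) ≤ Real.sqrt (av (fun c => f c ^ 2)) * Real.sqrt (av (fun c => g c ^ 2)) := by
  have h1 := sum_mul_sq_le_sq_mul_sq (univ : Finset α) f g
  have hc : (0 : ℝ) < Fintype.card α := by exact_mod_cast Fintype.card_pos
  rw [← Real.sqrt_mul (av_nonneg fun c => sq_nonneg _)]
  refine Real.le_sqrt_of_sq_le ?_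
  unfold av
  rw [div_pow, div_mul_div_comm, ← sq]
  exact div_le_div_of_nonneg_right h1 (by positivity)

/-- the number of the indices with the value `j` -/
def cnt {r : ℕ} (g : Fin r → ℕ) (j : ℕ) : ℕ := (univ.filter fun i => g i = j).card

lemma prod_cnt {r J : ℕ} (g : Fin r → ℕ) (hg : ∀ i, g i ≤ J) (x : ℕ → ℝ) (hx : x 0 = 1) :
    ∏ i, x (g i) = ∏ j ∈ Icc 1 J, x j ^ cnt g j := by
  have h1 : ∀ i ∈ (univ : Finset (Fin r)), g i ∈ range (J + 1) := fun i _ => mem_range.2 (Nat.lt_succ_of_le (hg i))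
  rw [← prod_fiberwise_of_maps_to h1]
  have h2 : ∀ j ∈ range (J + 1), ∏ i ∈ univ.filter (fun i => g i = j), x (g i) = x j ^ cnt g j := by
    intro j _
    rw [prod_congr rfl (g := fun _ => x j) fun i hi => by rw [(mem_filter.1 hi).2], prod_const]
    rfl
  rw [prod_congr rfl h2]
  have h3 : range (J + 1) = insert 0 (Icc 1 J) := by
    ext i
    rw [mem_range, mem_insert, mem_Icc]
    omega
  rw [h3, prod_insert (by simp), hx, one_pow, one_mul]

lemma sum_cnt {r J : ℕ} (g : Fin r → ℕ) (hg : ∀ i, g i ≤ J) : ∑ j ∈ Icc 1 J, j * cnt g j = ∑ i, g i := by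
  have h1 : ∀ i ∈ (univ : Finset (Fin r)), g i ∈ range (J + 1) := fun i _ => mem_range.2 (Nat.lt_succ_of_le (hg i))
  rw [← sum_fiberwise_of_maps_to h1]
  have h2 : ∀ j ∈ range (J + 1), ∑ i ∈ univ.filter (fun i => g i = j), g i = j * cnt g j := by
    intro j _
    rw [sum_congr rfl (g := fun _ => j) fun i hi => (mem_filter.1 hi).2, sum_const, smul_eq_mul, mul_comm]
    rfl
  rw [sum_congr rfl h2]
  have h3 : range (J + 1) = insert 0 (Icc 1 J) := by
    ext i
    rw [mem_range, mem_insert, mem_Icc]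
    omega
  rw [h3, sum_insert (by simp), zero_mul, zero_add]

/-- the target: the joint moment -/
noncomputable def jm {r : ℕ} (J : ℕ) (f : Fin r → ℕ) : ℝ := ∏ j ∈ Icc 1 J, nm j (cnt f j)

/-- the envelope -/
noncomputable def VV {α : Type} (X : ℕ → α → ℝ) (j : ℕ) (c : α) : ℝ := 1 + ∑ d ∈ Icc 1 j, X d c ^ 2

lemma one_le_VV {α : Type} (X : ℕ → α → ℝ) (j : ℕ) (c : α) : 1 ≤ VV X j c := by
  unfold VV
  have : 0 ≤ ∑ d ∈ Icc 1 j, X d c ^ 2 := sum_nonneg fun _ _ => sq_nonneg _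
  linarith

/-- the products of the envelopes have bounded means -/
lemma av_env {r J D : ℕ} (f : Fin r → ℕ) (hf : ∀ i, f i ∈ Icc 1 J) (hfD : 2 * ∑ i, f i ≤ D) (C₁ : ℝ) {α : Type} [Fintype α] [Nonempty α]
    (X : ℕ → α → ℝ) (h2 : ∀ k : ℕ → ℕ, ∑ j ∈ Icc 1 J, j * (2 * k j) ≤ D → av (fun c => ∏ j ∈ Icc 1 J, X j c ^ (2 * k j)) ≤ C₁) :
    av (fun c => ∏ i, VV X (f i) c) ≤ C₁ * ∏ i, ((f i : ℝ) + 1) := by
  classical
  obtain ⟨Y, hY⟩ : ∃ Y : α → ℕ → ℝ, Y = fun c d => if d = 0 then 1 else X d c ^ 2 := ⟨_, rfl⟩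
  have h1 : ∀ (j : ℕ) (c : α), VV X j c = ∑ d ∈ range (j + 1), Y c d := by
    intro j c
    have h3 : range (j + 1) = insert 0 (Icc 1 j) := by
      ext i
      rw [mem_range, mem_insert, mem_Icc]
      omega
    rw [h3, sum_insert (by simp), hY]
    unfold VV
    dsimp only
    rw [if_pos rfl]
    congr 1
    refine sum_congr rfl fun d hd => ?_
    rw [if_neg (by rw [mem_Icc] at hd; omega)]
  have h3 : (fun c => ∏ i, VV X (f i) c) = fun c => ∑ g ∈ Fintype.piFinset fun i => range (f i + 1), ∏ i, Y c (g i) := by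
    funext c
    rw [prod_congr rfl fun i _ => h1 (f i) c, prod_univ_sum]
  rw [h3, av_sum]
  have h4 : ∀ g ∈ Fintype.piFinset (fun i => range (f i + 1)), av (fun c => ∏ i, Y c (g i)) ≤ C₁ := by
    intro g hg
    rw [Fintype.mem_piFinset] at hg
    have hgf : ∀ i, g i ≤ f i := fun i => Nat.lt_succ_iff.1 (mem_range.1 (hg i))
    have hgJ : ∀ i, g i ≤ J := fun i => (hgf i).trans (mem_Icc.1 (hf i)).2
    have h5 : (fun c => ∏ i, Y c (g i)) = fun c => ∏ j ∈ Icc 1 J, X j c ^ (2 * cnt g j) := by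
      funext c
      rw [prod_cnt g hgJ (Y c) (by rw [hY]; simp)]
      refine prod_congr rfl fun j hj => ?_
      rw [hY]
      dsimp only
      rw [if_neg (by rw [mem_Icc] at hj; omega), ← pow_mul]
    rw [h5]
    refine h2 _ ?_
    have h6 : ∑ j ∈ Icc 1 J, j * (2 * cnt g j) = 2 * ∑ j ∈ Icc 1 J, j * cnt g j := by
      rw [mul_sum]
      exact sum_congr rfl fun j _ => by ring
    rw [h6, sum_cnt g hgJ]
    exact (Nat.mul_le_mul_left 2 (sum_le_sum fun i _ => hgf i)).trans hfD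
  refine (sum_le_sum h4).trans (le_of_eq ?_)
  rw [sum_const, Fintype.card_piFinset, nsmul_eq_mul, mul_comm]
  push_cast
  rw [prod_congr rfl fun i _ => by rw [card_range]]
  push_cast
  rfl

/-- **the abstract local theorem** -/
theorem loc_abs {r J D : ℕ} (f : Fin r → ℕ) (hf : ∀ i, f i ∈ Icc 1 J) (hfD : 2 * ∑ i, f i ≤ D) (C₁ : ℝ) (hC₁ : 1 ≤ C₁) :
    ∃ C : ℝ, 1 ≤ C ∧ ∀ (α : Type) [Fintype α] [Nonempty α] (X T Z : ℕ → α → ℝ) (ε : ℝ), 0 < ε → ε ≤ 1 →
      |av (fun c => ∏ i, (X (f i) c + eta (f i))) - jm J f| ≤ C₁ * ε →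
      (∀ k : ℕ → ℕ, ∑ j ∈ Icc 1 J, j * (2 * k j) ≤ D → av (fun c => ∏ j ∈ Icc 1 J, X j c ^ (2 * k j)) ≤ C₁) →
      (∀ j ∈ Icc 1 J, ∀ c, |T j c - X j c - eta j| ≤ C₁ * ε * Real.sqrt (VV X j c) + Z j c) →
      (∀ j ∈ Icc 1 J, (∀ c, 0 ≤ Z j c ∧ Z j c ≤ C₁) ∧ av (fun c => Z j c ^ 2) ≤ C₁ * ε ^ 2) →
      |av (fun c => ∏ i, T (f i) c) - jm J f| ≤ C * ε ∧ av (fun c => (∏ i, T (f i) c) ^ 2) ≤ C := by
  obtain ⟨R, hR⟩ : ∃ R : ℝ, R = 2 + 2 * C₁ := ⟨_, rfl⟩
  have hR1 : 1 ≤ R := by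
    rw [hR]
    linarith
  obtain ⟨B, hB⟩ : ∃ B : ℝ, B = C₁ * ∏ i, ((f i : ℝ) + 1) := ⟨_, rfl⟩
  have hB1 : 1 ≤ B := by
    rw [hB]
    have h1 : ∏ _i : Fin r, (1 : ℝ) ≤ ∏ i, ((f i : ℝ) + 1) :=
      prod_le_prod (fun _ _ => zero_le_one) fun i _ => by linarith [(Nat.cast_nonneg (f i) : (0 : ℝ) ≤ f i)]
    rw [prod_const_one] at h1
    nlinarith
  refine ⟨C₁ + r * (C₁ * R ^ r * B + R ^ r * (C₁ * B)) + R ^ (2 * r) * B, ?_, ?_⟩
  · have h1 : 0 ≤ r * (C₁ * R ^ r * B + R ^ r * (C₁ * B)) + R ^ (2 * r) * B := by positivity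
    linarith
  intro α _ _ X T Z ε hε hε1 hmom hev hT hZ
  have henv := av_env f hf hfD C₁ X hev
  rw [← hB] at henv
  have hV1 : ∀ j c, 1 ≤ VV X j c := one_le_VV X
  have hsV1 : ∀ j c, 1 ≤ Real.sqrt (VV X j c) := fun j c => Real.one_le_sqrt.2 (hV1 j c)
  have hXV : ∀ j ∈ Icc 1 J, ∀ c, |X j c| ≤ Real.sqrt (VV X j c) := by
    intro j hj c
    refine Real.abs_le_sqrt ?_
    unfold VV
    have h1 : X j c ^ 2 ≤ ∑ d ∈ Icc 1 j, X d c ^ 2 :=
      single_le_sum (f := fun d => X d c ^ 2) (fun _ _ => sq_nonneg _) (mem_Icc.2 ⟨(mem_Icc.1 hj).1, le_rfl⟩)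
    linarith
  have hXη : ∀ j ∈ Icc 1 J, ∀ c, |X j c + eta j| ≤ R * Real.sqrt (VV X j c) := by
    intro j hj c
    refine (abs_add_le _ _).trans ?_
    rw [abs_of_nonneg (eta_nonneg j), hR]
    have h1 := hXV j hj c
    have h2 := eta_le j
    have h3 := hsV1 j c
    nlinarith
  have hTV : ∀ j ∈ Icc 1 J, ∀ c, |T j c| ≤ R * Real.sqrt (VV X j c) := by
    intro j hj c
    have h1 : |T j c| ≤ |T j c - X j c - eta j| + |X j c| + |eta j| := by
      have h2 := abs_add_le (T j c - X j c - eta j) (X j c)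
      have h3 := abs_add_le (T j c - X j c - eta j + X j c) (eta j)
      have h4 : T j c - X j c - eta j + X j c + eta j = T j c := by ring
      rw [h4] at h3
      linarith
    refine h1.trans ?_
    rw [abs_of_nonneg (eta_nonneg j), hR]
    have h2 := hT j hj c
    have h3 := hXV j hj c
    have h4 := eta_le j
    have h5 := hsV1 j c
    have h6 := ((hZ j hj).1 c).2
    have h7 : C₁ * ε * Real.sqrt (VV X j c) ≤ C₁ * Real.sqrt (VV X j c) := by
      refine mul_le_mul_of_nonneg_right ?_ (by linarith)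
      nlinarith
    nlinarith
  constructor
  · -- the mean
    have h1 : |av (fun c => ∏ i, T (f i) c) - av (fun c => ∏ i, (X (f i) c + eta (f i)))| ≤ r * (C₁ * R ^ r * B + R ^ r * (C₁ * B)) * ε := by
      rw [← av_sub]
      refine (abs_av_le _).trans ?_
      have h2 : ∀ c, |∏ i, T (f i) c - ∏ i, (X (f i) c + eta (f i))| ≤
          ∑ k : Fin r, (C₁ * ε * R ^ r * ∏ i, VV X (f i) c + Z (f k) c * (R ^ r * ∏ i, Real.sqrt (VV X (f i) c))) := by
        intro c
        refine (prod_near univ _ _ (fun i => R * Real.sqrt (VV X (f i) c)) (fun i _ => hTV _ (hf i) c) (fun i _ => hXη _ (hf i) c)).trans ?_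
        refine sum_le_sum fun k _ => ?_
        have h3 : |T (f k) c - (X (f k) c + eta (f k))| ≤ C₁ * ε * Real.sqrt (VV X (f k) c) + Z (f k) c := by
          have := hT (f k) (hf k) c
          rwa [sub_sub] at this
        have h4 : 0 ≤ ∏ i ∈ univ.erase k, R * Real.sqrt (VV X (f i) c) := prod_nonneg fun i _ => by positivity
        refine (mul_le_mul_of_nonneg_right h3 h4).trans ?_
        rw [add_mul]
        have h5 : ∏ i ∈ univ.erase k, R * Real.sqrt (VV X (f i) c) ≤ R ^ r * ∏ i ∈ univ.erase k, Real.sqrt (VV X (f i) c) := by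
          rw [prod_mul_distrib, prod_const]
          refine mul_le_mul_of_nonneg_right ?_ (prod_nonneg fun i _ => Real.sqrt_nonneg _)
          refine pow_le_pow_right₀ hR1 ?_
          rw [card_erase_of_mem (mem_univ k), card_univ, Fintype.card_fin]
          omega
        have h6 : Real.sqrt (VV X (f k) c) * ∏ i ∈ univ.erase k, Real.sqrt (VV X (f i) c) = ∏ i, Real.sqrt (VV X (f i) c) :=
          mul_prod_erase univ (fun i => Real.sqrt (VV X (f i) c)) (mem_univ k)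
        have h7 : ∏ i, Real.sqrt (VV X (f i) c) ≤ ∏ i, VV X (f i) c := by
          refine prod_le_prod (fun i _ => Real.sqrt_nonneg _) fun i _ => ?_
          have h8 := hV1 (f i) c
          rw [Real.sqrt_le_left (by linarith)]
          nlinarith
        have h8 : ∏ i ∈ univ.erase k, Real.sqrt (VV X (f i) c) ≤ ∏ i, Real.sqrt (VV X (f i) c) := by
          rw [← h6]
          exact le_mul_of_one_le_left (prod_nonneg fun i _ => Real.sqrt_nonneg _) (hsV1 _ _)
        have hP0 : 0 ≤ ∏ i ∈ univ.erase k, Real.sqrt (VV X (f i) c) := prod_nonneg fun i _ => Real.sqrt_nonneg _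
        refine add_le_add ?_ ?_
        · calc C₁ * ε * Real.sqrt (VV X (f k) c) * ∏ i ∈ univ.erase k, R * Real.sqrt (VV X (f i) c) ≤
                C₁ * ε * Real.sqrt (VV X (f k) c) * (R ^ r * ∏ i ∈ univ.erase k, Real.sqrt (VV X (f i) c)) := mul_le_mul_of_nonneg_left h5 (by positivity)
            _ = C₁ * ε * R ^ r * (Real.sqrt (VV X (f k) c) * ∏ i ∈ univ.erase k, Real.sqrt (VV X (f i) c)) := by ring
            _ = C₁ * ε * R ^ r * ∏ i, Real.sqrt (VV X (f i) c) := by rw [h6]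
            _ ≤ _ := mul_le_mul_of_nonneg_left h7 (by positivity)
        · refine mul_le_mul_of_nonneg_left (h5.trans ?_) ((hZ (f k) (hf k)).1 c).1
          exact mul_le_mul_of_nonneg_left h8 (by positivity)
      refine (av_mono h2).trans ?_
      rw [av_sum]
      have h3 : ∀ k ∈ (univ : Finset (Fin r)), av (fun c => C₁ * ε * R ^ r * ∏ i, VV X (f i) c + Z (f k) c * (R ^ r * ∏ i, Real.sqrt (VV X (f i) c))) ≤
          (C₁ * R ^ r * B + R ^ r * (C₁ * B)) * ε := by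
        intro k _
        rw [av_add, av_mul]
        have h4 : C₁ * ε * R ^ r * av (fun c => ∏ i, VV X (f i) c) ≤ C₁ * ε * R ^ r * B := mul_le_mul_of_nonneg_left henv (by positivity)
        have h5 := av_cs (Z (f k)) fun c => R ^ r * ∏ i, Real.sqrt (VV X (f i) c)
        have h6 : (fun c => (R ^ r * ∏ i, Real.sqrt (VV X (f i) c)) ^ 2) = fun c => (R ^ r) ^ 2 * ∏ i, VV X (f i) c := by
          funext c
          rw [mul_pow, ← prod_pow]
          congr 1
          refine prod_congr rfl fun i _ => ?_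
          rw [Real.sq_sqrt (by linarith [hV1 (f i) c])]
        rw [h6, av_mul] at h5
        have h7 : Real.sqrt (av (fun c => Z (f k) c ^ 2)) ≤ C₁ * ε := by
          rw [Real.sqrt_le_left (by positivity)]
          refine ((hZ (f k) (hf k)).2).trans ?_
          have : 0 ≤ ε ^ 2 := sq_nonneg _
          nlinarith
        have h8 : Real.sqrt ((R ^ r) ^ 2 * av (fun c => ∏ i, VV X (f i) c)) ≤ R ^ r * B := by
          rw [Real.sqrt_le_left (by positivity), mul_pow]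
          refine mul_le_mul_of_nonneg_left (henv.trans ?_) (by positivity)
          nlinarith
        have h9 : Real.sqrt (av (fun c => Z (f k) c ^ 2)) * Real.sqrt ((R ^ r) ^ 2 * av (fun c => ∏ i, VV X (f i) c)) ≤ (C₁ * ε) * (R ^ r * B) :=
          mul_le_mul h7 h8 (Real.sqrt_nonneg _) (by positivity)
        calc C₁ * ε * R ^ r * av (fun c => ∏ i, VV X (f i) c) + av (fun c => Z (f k) c * (R ^ r * ∏ i, Real.sqrt (VV X (f i) c))) ≤
              C₁ * ε * R ^ r * B + (C₁ * ε) * (R ^ r * B) := add_le_add h4 (h5.trans h9)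
          _ = _ := by ring
      refine (sum_le_sum h3).trans (le_of_eq ?_)
      rw [sum_const, card_univ, Fintype.card_fin, nsmul_eq_mul]
      ring
    have h2 := abs_sub_le (av (fun c => ∏ i, T (f i) c)) (av (fun c => ∏ i, (X (f i) c + eta (f i)))) (jm J f)
    have h3 : 0 ≤ R ^ (2 * r) * B * ε := by positivity
    have h4 : (C₁ + r * (C₁ * R ^ r * B + R ^ r * (C₁ * B)) + R ^ (2 * r) * B) * ε =
        C₁ * ε + r * (C₁ * R ^ r * B + R ^ r * (C₁ * B)) * ε + R ^ (2 * r) * B * ε := by ring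
    rw [h4]
    linarith
  · -- the second moment
    have h1 : ∀ c, (∏ i, T (f i) c) ^ 2 ≤ R ^ (2 * r) * ∏ i, VV X (f i) c := by
      intro c
      rw [← prod_pow]
      have h2 : ∀ i ∈ (univ : Finset (Fin r)), T (f i) c ^ 2 ≤ R ^ 2 * VV X (f i) c := by
        intro i _
        have h3 := hTV (f i) (hf i) c
        have h4 : T (f i) c ^ 2 ≤ (R * Real.sqrt (VV X (f i) c)) ^ 2 := by
          rw [← sq_abs]
          exact pow_le_pow_left₀ (abs_nonneg _) h3 2
        rwa [mul_pow, Real.sq_sqrt (by linarith [hV1 (f i) c])] at h4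
      refine (prod_le_prod (fun i _ => sq_nonneg _) h2).trans (le_of_eq ?_)
      rw [prod_mul_distrib, prod_const, card_univ, Fintype.card_fin, ← pow_mul]
    refine (av_mono h1).trans ?_
    rw [av_mul]
    have h2 : R ^ (2 * r) * av (fun c => ∏ i, VV X (f i) c) ≤ R ^ (2 * r) * B := mul_le_mul_of_nonneg_left henv (by positivity)
    refine h2.trans ?_
    have h3 : 0 ≤ r * (C₁ * R ^ r * B + R ^ r * (C₁ * B)) := by positivity
    linarith

end Pool.Agent.W2helper48.JT
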