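import Pool.Agent.Q285.HS.Mom

/-!
# Blocks of values which are independent in small numbers

`e d t` is the value at the point `t` of degree `d`, with values in the finite group `B d`. If the values at few points, of total degree at
most `D`, are arbitrary, then functions of the values at few points of different degrees are independent.
-/

set_option autoImplicit false
set_option linter.unusedSectionVars false

namespace Pool.Agent.W2helper48.JT

open Finset
open Q282.CL
open Q285NG (av_hom)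
open Q285HS (Sep sm)

section

variable {ι K : Type} [AddCommGroup K] [Fintype K] {B : ℕ → Type} [∀ d, AddCommGroup (B d)] [∀ d, Fintype (B d)] [∀ d, DecidableEq (B d)]

/-- all values at points of total degree at most `D` are possible -/
def JSep (e : ∀ d, ι → K →+ B d) (A : ℕ → Finset ι) (J D : ℕ) : Prop :=
  ∀ S : ℕ → Finset ι, (∀ d ∈ Icc 1 J, S d ⊆ A d) → ∑ d ∈ Icc 1 J, d * (S d).card ≤ D → ∀ z : ∀ d, ι → B d,
    ∃ c : K, ∀ d ∈ Icc 1 J, ∀ t ∈ S d, e d t c = z d t

lemma JSep.sep {e : ∀ d, ι → K →+ B d} {A : ℕ → Finset ι} {J D : ℕ} (h : JSep e A J D) (j : ℕ) (hj : j ∈ Icc 1 J) (m : ℕ) (hm : j * m ≤ D) :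
    Sep (e j) (A j) m := by
  classical
  intro S hS hc z
  obtain ⟨c, hc⟩ := h (fun d => if d = j then S else ∅) (fun d _ => by
    split_ifs with h1
    · rw [h1]
      exact hS
    · exact empty_subset _) (by
    rw [sum_eq_single j]
    · rw [if_pos rfl]
      exact (Nat.mul_le_mul_left j hc).trans hm
    · intro d _ hd
      rw [if_neg hd, card_empty, mul_zero]
    · intro h1
      exact absurd hj h1) (fun d t => if h : j = d then h ▸ z t else 0)
  refine ⟨c, fun t ht => ?_⟩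
  have h1 := hc j hj t (by rw [if_pos rfl]; exact ht)
  rw [dif_pos rfl] at h1
  exact h1

/-- the function `F` depends on the values at the points of `S` only -/
def On {B : Type} (S : Finset ι) (F : (ι → B) → ℝ) : Prop := ∀ z z' : ι → B, (∀ t ∈ S, z t = z' t) → F z = F z'

variable {e : ∀ d, ι → K →+ B d} {A : ℕ → Finset ι} {J D : ℕ}

/-- functions of few values in different degrees are independent -/
lemma av_on (h : JSep e A J D) (S : ℕ → Finset ι) (hS : ∀ d ∈ Icc 1 J, S d ⊆ A d) (hD : ∑ d ∈ Icc 1 J, d * (S d).card ≤ D)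
    (F : ∀ d, (ι → B d) → ℝ) (hF : ∀ d ∈ Icc 1 J, On (S d) (F d)) :
    av (fun c : K => ∏ d ∈ Icc 1 J, F d fun t => e d t c) = ∏ d ∈ Icc 1 J, av (fun c : K => F d fun t => e d t c) := by
  classical
  obtain ⟨φ, hφ⟩ : ∃ φ : K →+ (∀ d : Icc 1 J, S d → B d), ∀ c (d : Icc 1 J) (t : S d), φ c d t = e d t c :=
    ⟨{ toFun := fun c d t => e d t c, map_zero' := by funext d t; simp, map_add' := fun a b => by funext d t; simp }, fun _ _ _ => rfl⟩
  have hsurj : Function.Surjective φ := by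
    intro z
    obtain ⟨c, hc⟩ := h S hS hD fun d t => if hd : d ∈ Icc 1 J then if ht : t ∈ S d then z ⟨d, hd⟩ ⟨t, ht⟩ else 0 else 0
    refine ⟨c, ?_⟩
    funext d t
    rw [hφ, hc d d.2 t t.2, dif_pos d.2, dif_pos t.2]
  obtain ⟨G, hG⟩ : ∃ G : ∀ d : Icc 1 J, (S d → B d) → ℝ, ∀ d z, G d z = F d fun t => if ht : t ∈ S d then z ⟨t, ht⟩ else 0 := ⟨_, fun _ _ => rfl⟩
  have hGF : ∀ (d : Icc 1 J) (c : K), F d (fun t => e d t c) = G d (φ c d) := by
    intro d c
    rw [hG]
    refine hF d d.2 _ _ fun t ht => ?_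
    rw [dif_pos ht, hφ]
  have h1 : ∀ H : ∀ d : Icc 1 J, (S d → B d) → ℝ, av (fun c : K => ∏ d, H d (φ c d)) = ∏ d, av (H d) := by
    intro H
    rw [av_hom φ hsurj (fun z => ∏ d, H d (z d)), av_pi]
  have h2 : ∀ d : Icc 1 J, av (fun c : K => F d fun t => e d t c) = av (G d) := by
    intro d
    have h3 := h1 fun d' => if d' = d then G d' else fun _ => 1
    have h4 : (fun c : K => ∏ d', (if d' = d then G d' else fun _ => 1) (φ c d')) = fun c : K => F d fun t => e d t c := by
      funext c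
      rw [prod_eq_single d, if_pos rfl, hGF]
      · intro d' _ hd'
        rw [if_neg hd']
      · intro h5
        exact absurd (mem_univ d) h5
    rw [h4] at h3
    rw [h3, prod_eq_single d, if_pos rfl]
    · intro d' _ hd'
      rw [if_neg hd']
      exact av_const 1
    · intro h5
      exact absurd (mem_univ d) h5
  rw [← prod_coe_sort (Icc 1 J) fun d => av (fun c : K => F d fun t => e d t c)]
  rw [prod_congr rfl fun d _ => h2 d, ← h1 G]
  congr 1
  funext c
  rw [← prod_coe_sort (Icc 1 J) fun d => F d fun t => e d t c]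
  exact prod_congr rfl fun d _ => hGF d c

/-- `h` is a sum of functions of the values at at most `k` points of `A` -/
def Dep {B : Type} [AddCommGroup B] (e : ι → K →+ B) (A : Finset ι) (k : ℕ) (h : K → ℝ) : Prop :=
  ∃ (N : ℕ) (S : Fin N → Finset ι) (F : Fin N → (ι → B) → ℝ), (∀ a, S a ⊆ A ∧ (S a).card ≤ k ∧ On (S a) (F a)) ∧
    ∀ c, h c = ∑ a, F a fun t => e t c

section

variable {B : Type} [AddCommGroup B] {e : ι → K →+ B} {A : Finset ι}

lemma Dep.const (k : ℕ) (r : ℝ) : Dep e A k fun _ => r :=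
  ⟨1, fun _ => ∅, fun _ _ => r, fun _ => ⟨empty_subset _, by simp, fun _ _ _ => rfl⟩, fun c => by simp⟩

lemma Dep.mono {k k' : ℕ} {h : K → ℝ} (hh : Dep e A k h) (hk : k ≤ k') : Dep e A k' h := by
  obtain ⟨N, S, F, h1, h2⟩ := hh
  exact ⟨N, S, F, fun a => ⟨(h1 a).1, (h1 a).2.1.trans hk, (h1 a).2.2⟩, h2⟩

lemma Dep.add {k : ℕ} {h h' : K → ℝ} (hh : Dep e A k h) (hh' : Dep e A k h') : Dep e A k fun c => h c + h' c := by
  obtain ⟨N, S, F, h1, h2⟩ := hh
  obtain ⟨N', S', F', h1', h2'⟩ := hh'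
  refine ⟨N + N', Fin.append S S', Fin.append F F', fun a => ?_, fun c => ?_⟩
  · refine Fin.addCases (fun a => ?_) (fun a => ?_) a
    · rw [Fin.append_left, Fin.append_left]
      exact h1 a
    · rw [Fin.append_right, Fin.append_right]
      exact h1' a
  · rw [Fin.sum_univ_add]
    simp only [Fin.append_left, Fin.append_right]
    rw [h2, h2']

lemma Dep.mul {k k' : ℕ} {h h' : K → ℝ} (hh : Dep e A k h) (hh' : Dep e A k' h') : Dep e A (k + k') fun c => h c * h' c := by
  classical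
  obtain ⟨N, S, F, h1, h2⟩ := hh
  obtain ⟨N', S', F', h1', h2'⟩ := hh'
  obtain ⟨E⟩ : Nonempty (Fin (N * N') ≃ Fin N × Fin N') := ⟨finProdFinEquiv.symm⟩
  refine ⟨N * N', fun a => S (E a).1 ∪ S' (E a).2, fun a z => F (E a).1 z * F' (E a).2 z, fun a => ⟨?_, ?_, ?_⟩, fun c => ?_⟩
  · exact union_subset (h1 _).1 (h1' _).1
  · exact (card_union_le _ _).trans (add_le_add (h1 _).2.1 (h1' _).2.1)
  · intro z z' hz
    dsimp only
    rw [(h1 _).2.2 z z' fun t ht => hz t (mem_union_left _ ht), (h1' _).2.2 z z' fun t ht => hz t (mem_union_right _ ht)]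
  · dsimp only
    rw [h2, h2', sum_mul_sum, ← sum_product', univ_product_univ]
    exact (E.sum_comp fun x : Fin N × Fin N' => F x.1 (fun t => e t c) * F' x.2 (fun t => e t c)).symm

lemma Dep.pow {h : K → ℝ} (hh : Dep e A 1 h) (k : ℕ) : Dep e A k fun c => h c ^ k := by
  induction k with
  | zero =>
    simp only [pow_zero]
    exact Dep.const 0 1
  | succ k ih =>
    simp only [pow_succ]
    exact ih.mul hh

lemma Dep.smul {k : ℕ} {h : K → ℝ} (hh : Dep e A k h) (r : ℝ) : Dep e A k fun c => r * h c := by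
  have := (Dep.const (e := e) (A := A) 0 r).mul hh
  rwa [zero_add] at this

lemma Dep.sm (ψ : ι → B → ℝ) : Dep e A 1 fun c => sm e A ψ c := by
  classical
  obtain ⟨E⟩ : Nonempty (Fin A.card ≃ A) := ⟨A.equivFin.symm⟩
  refine ⟨A.card, fun a => {(E a : ι)}, fun a z => ψ (E a) (z (E a)), fun a => ⟨?_, ?_, ?_⟩, fun c => ?_⟩
  · rw [singleton_subset_iff]
    exact (E a).2
  · rw [card_singleton]
  · intro z z' hz
    dsimp only
    rw [hz _ (mem_singleton_self _)]
  · unfold Q285HS.sm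
    dsimp only
    rw [← sum_coe_sort A fun t => ψ t (e t c)]
    exact (E.sum_comp fun x : A => ψ x (e x c)).symm

end

/-- **independence of the blocks** -/
theorem av_dep (h : JSep e A J D) (k : ℕ → ℕ) (hk : ∑ d ∈ Icc 1 J, d * k d ≤ D) (H : ℕ → K → ℝ) (hH : ∀ d ∈ Icc 1 J, Dep (e d) (A d) (k d) (H d)) :
    av (fun c : K => ∏ d ∈ Icc 1 J, H d c) = ∏ d ∈ Icc 1 J, av (H d) := by
  classical
  have hH' : ∀ d : Icc 1 J, Dep (e d) (A d) (k d) (H d) := fun d => hH d d.2
  choose N S F h1 h2 using hH'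
  have e1 : (fun c : K => ∏ d ∈ Icc 1 J, H d c) =
      fun c => ∑ a ∈ Fintype.piFinset fun d : Icc 1 J => (univ : Finset (Fin (N d))), ∏ d : Icc 1 J, F d (a d) fun t => e d t c := by
    funext c
    rw [← prod_coe_sort (Icc 1 J) fun d => H d c]
    rw [prod_congr rfl fun d _ => h2 d c, prod_univ_sum]
  have e2 : ∀ a : ∀ d : Icc 1 J, Fin (N d), av (fun c : K => ∏ d : Icc 1 J, F d (a d) fun t => e d t c) =
      ∏ d : Icc 1 J, av (fun c : K => F d (a d) fun t => e d t c) := by
    intro a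
    have h3 := av_on h (fun d => if hd : d ∈ Icc 1 J then S ⟨d, hd⟩ (a ⟨d, hd⟩) else ∅) (fun d hd => by
      rw [dif_pos hd]
      exact (h1 ⟨d, hd⟩ (a ⟨d, hd⟩)).1) (by
      refine le_trans (sum_le_sum fun d hd => ?_) hk
      rw [dif_pos hd]
      exact Nat.mul_le_mul_left d (h1 ⟨d, hd⟩ (a ⟨d, hd⟩)).2.1)
      (fun d z => if hd : d ∈ Icc 1 J then F ⟨d, hd⟩ (a ⟨d, hd⟩) z else 0) (fun d hd z z' hz => by
      rw [dif_pos hd] at hz
      dsimp only
      rw [dif_pos hd, dif_pos hd]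
      exact (h1 ⟨d, hd⟩ (a ⟨d, hd⟩)).2.2 z z' hz)
    rw [← prod_coe_sort (Icc 1 J) fun d => av (fun c : K => if hd : d ∈ Icc 1 J then F ⟨d, hd⟩ (a ⟨d, hd⟩) (fun t => e d t c) else 0)] at h3
    have h4 : (fun c : K => ∏ d ∈ Icc 1 J, if hd : d ∈ Icc 1 J then F ⟨d, hd⟩ (a ⟨d, hd⟩) (fun t => e d t c) else 0) =
        fun c => ∏ d : Icc 1 J, F d (a d) fun t => e d t c := by
      funext c
      rw [← prod_coe_sort (Icc 1 J) fun d => if hd : d ∈ Icc 1 J then F ⟨d, hd⟩ (a ⟨d, hd⟩) (fun t => e d t c) else 0]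
      refine prod_congr rfl fun d _ => ?_
      rw [dif_pos d.2]
    rw [h4] at h3
    rw [h3]
    refine prod_congr rfl fun d _ => congrArg av ?_
    funext c
    rw [dif_pos d.2]
  have e3 := prod_univ_sum (fun d : Icc 1 J => (univ : Finset (Fin (N d)))) fun d a => av (fun c : K => F d a fun t => e d t c)
  rw [e1, av_sum, sum_congr rfl fun a _ => e2 a, ← e3, ← prod_coe_sort (Icc 1 J) fun d => av (H d)]
  refine prod_congr rfl fun d _ => ?_
  rw [← av_sum]
  refine congrArg av ?_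
  funext c
  exact (h2 d c).symm

end

end Pool.Agent.W2helper48.JT
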