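import Pool.Agent.W2helper48.JT.Fin

/-!
# The numbers of the points over the Galois fields
-/

set_option autoImplicit false
set_option linter.unusedSectionVars false

namespace Pool.Agent.W2helper48.JT

open Finset Function
open Pool.Agent.Y722.HS (Mon mev form eval_form)

section

variable {p : ℕ} [hp : Fact p.Prime] {n δ : ℕ}

lemma nrm_map {j : ℕ} (v : Fin (n + 1) → GaloisField p j) : Nrm (fun i => sg p j (v i)) ↔ Nrm v := by
  have hinj : Injective (sg p j) := (sg p j).toRingHom.injective
  have h1 : ∀ x, sg p j x = 1 ↔ x = 1 := fun x => ⟨fun h => hinj (by rw [h, map_one]), fun h => by rw [h, map_one]⟩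
  have h0 : ∀ x, sg p j x = 0 ↔ x = 0 := fun x => ⟨fun h => hinj (by rw [h, map_zero]), fun h => by rw [h, map_zero]⟩
  unfold Nrm
  exact exists_congr fun i => and_congr (h1 _) (forall₂_congr fun k _ => h0 _)

lemma aeval_form' {R : Type} [CommRing R] (t : Mon n δ → ℤ) (v : Fin (n + 1) → R) :
    MvPolynomial.aeval v (form t) = ∑ ν, ((t ν : ℤ) : R) * mev v ν := by
  simp [Pool.Agent.Y722.HS.form, Pool.Agent.Y722.HS.mev, map_sum, map_prod]

lemma sg_aeval {j : ℕ} (t : Mon n δ → ℤ) (v : Fin (n + 1) → GaloisField p j) :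
    sg p j (MvPolynomial.aeval v (form t)) = vl (fun ν => (t ν : ZMod p)) fun i => sg p j (v i) := by
  rw [aeval_form', map_sum]
  unfold vl
  refine sum_congr rfl fun ν _ => ?_
  rw [map_mul, map_intCast, map_intCast]
  congr 1
  unfold Pool.Agent.Y722.HS.mev
  rw [map_prod]
  refine prod_congr rfl fun i _ => ?_
  rw [map_pow]

/-- the vectors over the Galois field and the points over the algebraic closure -/
lemma card_vec (j : ℕ) (hj : j ≠ 0) (P : (Fin (n + 1) → Om p) → Prop) [DecidablePred P] (Q : (Fin (n + 1) → GaloisField p j) → Prop)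
    (hPQ : ∀ v, Q v ↔ P fun i => sg p j (v i)) :
    Nat.card {v : Fin (n + 1) → GaloisField p j // Nrm v ∧ Q v} = ((j.divisors.biUnion fun d => MM n p d).filter P).card := by
  have h1 : Nat.card {v : Fin (n + 1) → GaloisField p j // Nrm v ∧ Q v} = {v : Fin (n + 1) → GaloisField p j | Nrm v ∧ Q v}.ncard := rfl
  have hinj : Injective fun (v : Fin (n + 1) → GaloisField p j) i => sg p j (v i) := by
    intro v w h
    funext i
    exact (sg p j).toRingHom.injective (congrFun h i)
  have h2 : (fun (v : Fin (n + 1) → GaloisField p j) i => sg p j (v i)) '' {v | Nrm v ∧ Q v} =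
      ↑((j.divisors.biUnion fun d => MM n p d).filter P) := by
    ext w
    rw [mem_coe, mem_filter]
    have h3 : w ∈ j.divisors.biUnion (fun d => MM n p d) ↔ w ∈ PS n p j := by rw [PS_eq j hj, mem_coe]
    rw [h3]
    constructor
    · rintro ⟨v, ⟨hv, hQ⟩, rfl⟩
      refine ⟨⟨(nrm_map v).2 hv, ?_⟩, (hPQ v).1 hQ⟩
      rw [per_iff hj]
      exact fun i => (mem_range_sg j hj _).1 ⟨v i, rfl⟩
    · rintro ⟨⟨hw, hper⟩, hP⟩
      rw [per_iff hj] at hper
      choose v hv using fun i => (mem_range_sg j hj (w i)).2 (hper i)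
      have h4 : (fun i => sg p j (v i)) = w := funext hv
      refine ⟨v, ⟨?_, ?_⟩, h4⟩
      · rw [← nrm_map, h4]
        exact hw
      · show Q v
        rw [hPQ, h4]
        exact hP
  rw [h1, ← Set.ncard_image_of_injective _ hinj, h2, Set.ncard_coe_finset]

lemma card_H (j : ℕ) (hj : j ≠ 0) (t : Mon n δ → ℤ) :
    Nat.card {v : Fin (n + 1) → GaloisField p j // Nrm v ∧ MvPolynomial.aeval v (form t) = 0} = ptH j fun ν => (t ν : ZMod p) := by
  unfold ptH
  refine card_vec j hj _ _ fun v => ?_
  rw [← sg_aeval]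
  constructor
  · intro h
    rw [h, map_zero]
  · intro h
    apply (sg p j).toRingHom.injective
    show sg p j _ = sg p j 0
    rw [h, map_zero]

end

lemma form_cast {n δ : ℕ} (t : Mon n δ → ℤ) (p : ℕ) : MvPolynomial.map (Int.castRingHom (ZMod p)) (form t) = form fun m => (t m : ZMod p) := by
  unfold Pool.Agent.Y722.HS.form
  simp [map_sum, map_prod]

end Pool.Agent.W2helper48.JT
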