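import Pool.Agent.W2helper48.JT.Ext
import Pool.Agent.W2helper48.JT.Abs

/-!
# The numbers of the closed points; joint moments for general local functions
-/

set_option autoImplicit false
set_option linter.unusedSectionVars false

namespace Pool.Agent.W2helper48.JT

open Finset Function
open Q282.CL
open Q282MM (gm)
open Q285HS (Sep sm Loc1 mom_near)
open Pool.Agent.Y722.HS (Mon mev)

section

variable {n p : ℕ} [hp : Fact p.Prime]

/-- the square root of `p` -/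
noncomputable abbrev sp (p : ℕ) : ℝ := Real.sqrt p

lemma sp_sq (p : ℕ) : sp p ^ 2 = p := Real.sq_sqrt (Nat.cast_nonneg p)

variable (p) in
lemma one_lt_sp : 1 < sp p := by
  have h : (1 : ℝ) < p := by exact_mod_cast hp.out.one_lt
  exact Real.lt_sqrt_of_sq_lt (by linarith)

variable (p) in
lemma sp_pos : 0 < sp p := lt_trans one_pos (one_lt_sp p)

lemma p_pow (m : ℕ) : (p : ℝ) ^ m = sp p ^ (2 * m) := by rw [pow_mul, sp_sq]

lemma sp_div_le {a b : ℕ} (h : a + 1 ≤ b) : sp p ^ a / sp p ^ b ≤ 1 / sp p := by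
  have h0 := sp_pos p
  rw [div_le_div_iff₀ (pow_pos h0 b) h0, one_mul, ← pow_succ]
  exact pow_le_pow_right₀ (one_lt_sp p).le h

lemma inv_sp_le {b : ℕ} (h : 1 ≤ b) : 1 / sp p ^ b ≤ 1 / sp p := by
  have := sp_div_le (p := p) (a := 0) (b := b) (by omega)
  rwa [pow_zero] at this

lemma geo_le (q : ℝ) (hq : 2 ≤ q) (m : ℕ) : ∑ i ∈ range m, q ^ i ≤ q ^ m := by
  induction m with
  | zero => simp
  | succ m ih =>
    rw [sum_range_succ, pow_succ]
    have : 0 ≤ q ^ m := by positivity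
    nlinarith

lemma geo_le' (q : ℝ) (hq : 2 ≤ q) (m : ℕ) : ∑ i ∈ range m, q ^ i ≤ 2 * q ^ m / q := by
  cases m with
  | zero =>
    simp only [range_zero, sum_empty]
    positivity
  | succ m =>
    rw [sum_range_succ, pow_succ]
    have h1 := geo_le q hq m
    have h2 : 2 * (q ^ m * q) / q = 2 * q ^ m := by
      field_simp
    rw [h2]
    linarith

variable (n p) in
/-- the number of the points of degree `d` -/
noncomputable def NN (d : ℕ) : ℝ := (MM n p d).card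

lemma NN_nonneg (d : ℕ) : 0 ≤ NN n p d := Nat.cast_nonneg _

lemma NN_sum (j : ℕ) (hj : j ≠ 0) : NN n p j = ∑ i ∈ range (n + 1), ((p : ℝ) ^ j) ^ i - ∑ d ∈ j.properDivisors, NN n p d := by
  have h1 := card_div (n := n) (p := p) j hj
  have h2 : ∑ d ∈ j.divisors, NN n p d = ∑ i ∈ range (n + 1), ((p : ℝ) ^ j) ^ i := by
    unfold NN
    exact_mod_cast h1
  rw [← h2, ← Nat.cons_self_properDivisors hj, sum_cons]
  ring

lemma two_le_pj (j : ℕ) (hj : j ≠ 0) : (2 : ℝ) ≤ (p : ℝ) ^ j := by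
  have h1 : (2 : ℝ) ≤ p := by exact_mod_cast hp.out.two_le
  exact h1.trans (le_self_pow₀ (by linarith) hj)

lemma NN_le (j : ℕ) (hj : j ≠ 0) : NN n p j ≤ 2 * sp p ^ (2 * n * j) := by
  rw [NN_sum j hj]
  have h1 : 0 ≤ ∑ d ∈ j.properDivisors, NN n p d := sum_nonneg fun _ _ => NN_nonneg _
  have h2 := geo_le ((p : ℝ) ^ j) (two_le_pj j hj) n
  rw [sum_range_succ]
  have h3 : ((p : ℝ) ^ j) ^ n = sp p ^ (2 * n * j) := by
    rw [← pow_mul, p_pow]
    congr 1
    ring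
  rw [h3] at h2 ⊢
  linarith

lemma proper_sum_le (j : ℕ) : ∑ d ∈ j.properDivisors, NN n p d ≤ j * (2 * sp p ^ (n * j)) := by
  have h1 : ∀ d ∈ j.properDivisors, NN n p d ≤ 2 * sp p ^ (n * j) := by
    intro d hd
    rw [Nat.mem_properDivisors] at hd
    obtain ⟨⟨k, hk⟩, hlt⟩ := hd
    have hd0 : d ≠ 0 := by
      rintro rfl
      omega
    have hk2 : 2 ≤ k := by
      rcases (by omega : k = 0 ∨ k = 1 ∨ 2 ≤ k) with h | h | h
      · subst h
        omega
      · subst h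
        omega
      · exact h
    refine (NN_le d hd0).trans ?_
    have h2 : 2 * n * d ≤ n * j := by
      rw [hk]
      calc 2 * n * d = n * (d * 2) := by ring
        _ ≤ n * (d * k) := Nat.mul_le_mul_left n (Nat.mul_le_mul_left d hk2)
    have := pow_le_pow_right₀ (one_lt_sp p).le h2
    linarith
  refine (sum_le_sum h1).trans ?_
  rw [sum_const, nsmul_eq_mul]
  refine mul_le_mul_of_nonneg_right ?_ (by have := sp_pos p; positivity)
  have h2 : j.properDivisors.card ≤ j := by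
    calc j.properDivisors.card ≤ (Ico 1 j).card := card_filter_le _ _
      _ ≤ j := by
        rw [Nat.card_Ico]
        omega
  exact_mod_cast h2

/-- almost all points have degree `j` -/
lemma NN_near (hn : 1 ≤ n) (j : ℕ) (hj : j ≠ 0) : |NN n p j / sp p ^ (2 * n * j) - 1| ≤ (2 + 2 * j) * (1 / sp p) := by
  have hs := sp_pos p
  have h3 : ((p : ℝ) ^ j) ^ n = sp p ^ (2 * n * j) := by
    rw [← pow_mul, p_pow]
    congr 1
    ring
  have hP : 0 < sp p ^ (2 * n * j) := pow_pos hs _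
  have h1 : NN n p j / sp p ^ (2 * n * j) - 1 =
      (∑ i ∈ range n, ((p : ℝ) ^ j) ^ i) / sp p ^ (2 * n * j) - (∑ d ∈ j.properDivisors, NN n p d) / sp p ^ (2 * n * j) := by
    rw [NN_sum j hj, sum_range_succ, h3]
    field_simp
    ring
  rw [h1]
  refine (abs_sub _ _).trans ?_
  have h4 : |(∑ i ∈ range n, ((p : ℝ) ^ j) ^ i) / sp p ^ (2 * n * j)| ≤ 2 * (1 / sp p) := by
    rw [abs_of_nonneg (div_nonneg (sum_nonneg fun _ _ => by positivity) hP.le)]
    have h5 := geo_le' ((p : ℝ) ^ j) (two_le_pj j hj) n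
    rw [h3] at h5
    have h6 : (∑ i ∈ range n, ((p : ℝ) ^ j) ^ i) / sp p ^ (2 * n * j) ≤ 2 * (1 / (p : ℝ) ^ j) := by
      rw [div_le_iff₀ hP]
      refine h5.trans (le_of_eq ?_)
      ring
    refine h6.trans ?_
    rw [p_pow]
    have := inv_sp_le (p := p) (b := 2 * j) (by omega)
    linarith
  have h5 : |(∑ d ∈ j.properDivisors, NN n p d) / sp p ^ (2 * n * j)| ≤ 2 * j * (1 / sp p) := by
    rw [abs_of_nonneg (div_nonneg (sum_nonneg fun _ _ => NN_nonneg _) hP.le)]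
    have h6 := proper_sum_le (n := n) (p := p) j
    have h7 : (∑ d ∈ j.properDivisors, NN n p d) / sp p ^ (2 * n * j) ≤ 2 * j * (sp p ^ (n * j) / sp p ^ (2 * n * j)) := by
      rw [← mul_div_assoc]
      refine div_le_div_of_nonneg_right (h6.trans (le_of_eq ?_)) hP.le
      ring
    refine h7.trans ?_
    refine mul_le_mul_of_nonneg_left ?_ (by positivity)
    refine sp_div_le ?_
    have h8 : 1 ≤ n * j := Nat.one_le_iff_ne_zero.2 (Nat.mul_ne_zero (by omega) hj)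
    have h9 : 2 * n * j = n * j + n * j := by ring
    omega
  have h6 : ((2 : ℝ) + 2 * j) * (1 / sp p) = 2 * (1 / sp p) + 2 * j * (1 / sp p) := by ring
  rw [h6]
  exact add_le_add h4 h5

lemma NN_card (d : ℕ) : NN n p d = d * ((CP n p d).card : ℝ) := by
  unfold NN
  rw [card_MM]
  push_cast
  rfl

end

section

variable {n p δ : ℕ} [hp : Fact p.Prime]

/-- the normalised sum over the closed points of degree `d` -/
noncomputable def XX (ψ : ∀ d, EE p d → ℝ) (s : ℕ → ℝ) (d : ℕ) (c : Mon n δ → ZMod p) : ℝ :=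
  d * sm (evd (δ := δ) d) (CP n p d) (fun _ => ψ d) c / s d

/-- the conditions for the local functions -/
structure Good (n p J : ℕ) [Fact p.Prime] (ψ : ∀ d, EE p d → ℝ) (s : ℕ → ℝ) (q σ : ℕ → ℝ) : Prop where
  loc : ∀ d ∈ Icc 1 J, Loc1 (ψ d) (q d) (σ d)
  one_q : ∀ d ∈ Icc 1 J, 1 ≤ q d
  sig0 : ∀ d ∈ Icc 1 J, 0 ≤ σ d
  sig1 : ∀ d ∈ Icc 1 J, σ d ≤ 1 / q d
  card : ∀ d ∈ Icc 1 J, ((CP n p d).card : ℝ) ≤ q d * (2 * s d) ^ 2
  inv : ∀ d ∈ Icc 1 J, 1 / s d ≤ 1 / sp p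
  pos : ∀ d ∈ Icc 1 J, 1 ≤ s d
  var : ∀ d ∈ Icc 1 J, NN n p d * σ d / s d ^ 2 = NN n p d / sp p ^ (2 * n * d) * (1 - 1 / sp p ^ (2 * d))

/-- the moments of one sum -/
lemma mom_one (n δ J : ℕ) (hn : 1 ≤ n) : ∃ C : ℝ, 1 ≤ C ∧ ∀ (p : ℕ) [Fact p.Prime] (ψ : ∀ d, EE p d → ℝ) (s : ℕ → ℝ) (q σ : ℕ → ℝ),
    Good n p J ψ s q σ → ∀ d ∈ Icc 1 J, ∀ i, d * i ≤ δ + 1 →
      |av (fun c : Mon n δ → ZMod p => XX ψ s d c ^ i) - Real.sqrt d ^ i * gm i| ≤ C * (1 / sp p) := by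
  obtain ⟨Cm, hCm, hmom⟩ := mom_near (δ + 1)
  obtain ⟨C₀, hC₀⟩ : ∃ C₀ : ℝ, C₀ = Cm + 2 * J + 4 := ⟨_, rfl⟩
  have hC₀1 : 1 ≤ C₀ := by
    rw [hC₀]
    have : (0 : ℝ) ≤ J := Nat.cast_nonneg J
    linarith
  choose K hK1 hK using fun j k : ℕ => one_dim j k C₀ hC₀1
  have hKs : ∀ d ∈ Icc 1 J, ∀ i ≤ δ + 1, K d i ≤ 1 + ∑ j ∈ Icc 1 J, ∑ k ∈ range (δ + 2), K j k := by
    intro d hd i hi
    have h1 := single_le_sum (f := K d) (fun i _ => by linarith [hK1 d i]) (mem_range.2 (by omega : i < δ + 2))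
    have h2 := single_le_sum (f := fun j => ∑ k ∈ range (δ + 2), K j k) (fun i _ => sum_nonneg fun k _ => by linarith [hK1 i k]) hd
    linarith
  refine ⟨1 + ∑ j ∈ Icc 1 J, ∑ k ∈ range (δ + 2), K j k, ?_, ?_⟩
  · have : 0 ≤ ∑ j ∈ Icc 1 J, ∑ k ∈ range (δ + 2), K j k := sum_nonneg fun i _ => sum_nonneg fun k _ => by linarith [hK1 i k]
    linarith
  intro p hp ψ s q σ hg d hd i hi
  have hs := sp_pos p
  have hd1 : 1 ≤ d := (mem_Icc.1 hd).1
  have hdJ : d ≤ J := (mem_Icc.1 hd).2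
  have hε0 : 0 < 1 / sp p := by positivity
  have hsd : 1 ≤ s d := hg.pos d hd
  -- the size
  obtain ⟨v, hv⟩ : ∃ v : ℝ, v = (CP n p d).card * σ d := ⟨_, rfl⟩
  have hjv : d * v / s d ^ 2 = NN n p d / sp p ^ (2 * n * d) * (1 - 1 / sp p ^ (2 * d)) := by
    rw [← hg.var d hd, hv, NN_card]
    ring
  have hx0 : 0 ≤ NN n p d / sp p ^ (2 * n * d) := div_nonneg (NN_nonneg d) (by positivity)
  have hx2 : NN n p d / sp p ^ (2 * n * d) ≤ 2 := by
    rw [div_le_iff₀ (by positivity)]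
    exact NN_le d (by omega)
  have hy0 : 0 ≤ 1 / sp p ^ (2 * d) := by positivity
  have hy1 : 1 / sp p ^ (2 * d) ≤ 1 / sp p := inv_sp_le (by omega)
  have hε1 : 1 / sp p ≤ 1 := by
    rw [div_le_one hs]
    exact (one_lt_sp p).le
  have hnear := NN_near (n := n) (p := p) hn d (by omega)
  have ha0 : 0 ≤ d * v / s d ^ 2 := by
    rw [hjv]
    exact mul_nonneg hx0 (by linarith)
  have ha2 : d * v / s d ^ 2 ≤ 2 := by
    rw [hjv]
    nlinarith
  have ha1 : |d * v / s d ^ 2 - 1| ≤ C₀ * (1 / sp p) := by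
    rw [hjv]
    have h1 : NN n p d / sp p ^ (2 * n * d) * (1 - 1 / sp p ^ (2 * d)) - 1 =
        (NN n p d / sp p ^ (2 * n * d) - 1) - NN n p d / sp p ^ (2 * n * d) * (1 / sp p ^ (2 * d)) := by ring
    rw [h1]
    refine (abs_sub _ _).trans ?_
    have h2 : |NN n p d / sp p ^ (2 * n * d) * (1 / sp p ^ (2 * d))| ≤ 2 * (1 / sp p) := by
      rw [abs_of_nonneg (mul_nonneg hx0 hy0)]
      exact mul_le_mul hx2 hy1 hy0 (by norm_num)
    have h3 : (2 + 2 * (d : ℝ)) * (1 / sp p) ≤ (2 + 2 * J) * (1 / sp p) := by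
      refine mul_le_mul_of_nonneg_right ?_ hε0.le
      have : (d : ℝ) ≤ J := by exact_mod_cast hdJ
      linarith
    have h4 : C₀ * (1 / sp p) = Cm * (1 / sp p) + (2 + 2 * J) * (1 / sp p) + 2 * (1 / sp p) := by
      rw [hC₀]
      ring
    have h5 : 0 ≤ Cm * (1 / sp p) := by positivity
    rw [h4]
    linarith
  have hv0 : 0 ≤ v := by
    rw [hv]
    exact mul_nonneg (Nat.cast_nonneg _) (hg.sig0 d hd)
  have hq1 := hg.one_q d hd
  have hcard := hg.card d hd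
  have hr1 : (1 : ℝ) ≤ 2 * s d := by linarith
  have hvr : v ≤ (2 * s d) ^ 2 := by
    rw [hv]
    have h1 := mul_le_mul_of_nonneg_left (hg.sig1 d hd) (Nat.cast_nonneg (α := ℝ) (CP n p d).card)
    refine h1.trans ?_
    rw [mul_one_div, div_le_iff₀ (by linarith)]
    linarith
  have hiδ : i ≤ δ + 1 := le_trans (Nat.le_mul_of_pos_left i (by omega)) hi
  have key := hK d i (Mon n δ → ZMod p) (fun c => sm (evd (δ := δ) d) (CP n p d) (fun _ => ψ d) c) (s d) (2 * s d) v (1 / sp p) (by linarith) hv0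
    (by linarith) (mul_le_mul_of_nonneg_right (by
      rw [hC₀]
      have : (0 : ℝ) ≤ J := Nat.cast_nonneg J
      linarith) (by linarith)) (hg.inv d hd) ha0 ha2 ha1 (fun i' hi' => by
        have hsep : Sep (evd (p := p) (n := n) (δ := δ) d) (CP n p d) i' :=
          (jsep (p := p) (n := n) (δ := δ) J).sep d hd i' ((Nat.mul_le_mul_left d hi').trans hi)
        have h1 := hmom _ (Mon n δ → ZMod p) (EE p d) (evd (δ := δ) d) (fun _ => ψ d) i' (q d) (2 * s d) (σ d) hq1 hr1 (hg.sig0 d hd) (hg.sig1 d hd)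
          (CP n p d) hsep (fun _ _ => hg.loc d hd) (by rw [← hv]; exact hvr) hcard i' (by omega) le_rfl
        rw [← hv] at h1
        refine h1.trans (mul_le_mul_of_nonneg_right ?_ (by positivity))
        rw [hC₀]
        have : (0 : ℝ) ≤ J := Nat.cast_nonneg J
        linarith) i le_rfl
  refine key.trans (mul_le_mul_of_nonneg_right (hKs d hd i hiδ) hε0.le)

/-- **joint moments of the sums over the closed points of different degrees** -/
theorem joint (n δ J : ℕ) (hn : 1 ≤ n) {r : ℕ} (f : Fin r → ℕ) (hf : ∀ i, f i ∈ Icc 1 J) (hfD : 2 * ∑ i, f i ≤ δ + 1) :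
    ∃ C : ℝ, 1 ≤ C ∧ ∀ (p : ℕ) [Fact p.Prime] (ψ : ∀ d, EE p d → ℝ) (s : ℕ → ℝ) (q σ : ℕ → ℝ), Good n p J ψ s q σ →
      |av (fun c : Mon n δ → ZMod p => ∏ i, (XX ψ s (f i) c + eta (f i))) - jm J f| ≤ C * (1 / sp p) ∧
      ∀ k : ℕ → ℕ, ∑ j ∈ Icc 1 J, j * (2 * k j) ≤ δ + 1 → av (fun c : Mon n δ → ZMod p => ∏ j ∈ Icc 1 J, XX ψ s j c ^ (2 * k j)) ≤ C := by
  classical
  obtain ⟨K, hK1, hK⟩ := mom_one n δ J hn
  obtain ⟨R, hR⟩ : ∃ R : ℕ → ℝ, R = fun j => |nm j (cnt f j)| + 2 ^ cnt f j * K := ⟨_, rfl⟩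
  obtain ⟨G, hG⟩ : ∃ G : ℕ → ℝ, G = fun j : ℕ => 1 + K + ∑ i ∈ range (δ + 2), Real.sqrt (j : ℝ) ^ i * (gm i : ℝ) := ⟨_, rfl⟩
  have hR0 : ∀ j, 0 ≤ R j := fun j => by
    rw [hR]
    positivity
  have hG1 : ∀ j, 1 ≤ G j := fun j => by
    rw [hG]
    have : 0 ≤ ∑ i ∈ range (δ + 2), Real.sqrt j ^ i * (gm i : ℝ) := sum_nonneg fun i _ => by positivity
    dsimp only
    linarith
  obtain ⟨C₁, hC₁⟩ : ∃ C₁ : ℝ, C₁ = ∑ k ∈ Icc 1 J, 2 ^ cnt f k * K * ∏ j ∈ (Icc 1 J).erase k, R j := ⟨_, rfl⟩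
  obtain ⟨C₂, hC₂⟩ : ∃ C₂ : ℝ, C₂ = ∏ j ∈ Icc 1 J, G j := ⟨_, rfl⟩
  have hC₁0 : 0 ≤ C₁ := by
    rw [hC₁]
    exact sum_nonneg fun k _ => mul_nonneg (by positivity) (prod_nonneg fun j _ => hR0 j)
  have hC₂1 : 0 ≤ C₂ := by
    rw [hC₂]
    exact prod_nonneg fun j _ => by linarith [hG1 j]
  refine ⟨1 + C₁ + C₂, by linarith, ?_⟩
  intro p hp ψ s q σ hg
  have hs := sp_pos p
  have hε0 : 0 < 1 / sp p := by positivity
  have hε1 : 1 / sp p ≤ 1 := by
    rw [div_le_one hs]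
    exact (one_lt_sp p).le
  have hJ := jsep (p := p) (n := n) (δ := δ) J
  have hDep : ∀ d, Dep (evd (p := p) (n := n) (δ := δ) d) (CP n p d) 1 fun c => XX ψ s d c := by
    intro d
    have h1 := (Dep.sm (e := evd (p := p) (n := n) (δ := δ) d) (A := CP n p d) fun _ => ψ d).smul ((d : ℝ) / s d)
    have h2 : (fun c => (d : ℝ) / s d * sm (evd (p := p) (n := n) (δ := δ) d) (CP n p d) (fun _ => ψ d) c) = fun c => XX ψ s d c := by
      funext c
      unfold XX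
      ring
    rwa [h2] at h1
  constructor
  · have hfJ : ∀ i, f i ≤ J := fun i => (mem_Icc.1 (hf i)).2
    have h1 : (fun c : Mon n δ → ZMod p => ∏ i, (XX ψ s (f i) c + eta (f i))) = fun c => ∏ j ∈ Icc 1 J, (XX ψ s j c + eta j) ^ cnt f j := by
      funext c
      have h2 := prod_cnt f hfJ (fun j => if j = 0 then 1 else XX ψ s j c + eta j) (by simp)
      have h3 : ∏ i, (if f i = 0 then 1 else XX ψ s (f i) c + eta (f i)) = ∏ i, (XX ψ s (f i) c + eta (f i)) := by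
        refine prod_congr rfl fun i _ => ?_
        rw [if_neg]
        have := (mem_Icc.1 (hf i)).1
        omega
      rw [h3] at h2
      rw [h2]
      refine prod_congr rfl fun j hj => ?_
      rw [if_neg]
      rw [mem_Icc] at hj
      omega
    have h2 : ∑ d ∈ Icc 1 J, d * cnt f d ≤ δ + 1 := by
      rw [sum_cnt f hfJ]
      omega
    rw [h1, av_dep hJ (cnt f) h2 (fun j c => (XX ψ s j c + eta j) ^ cnt f j) fun d _ => ((hDep d).add (Dep.const 1 (eta d))).pow (cnt f d)]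
    unfold jm
    have h3 : ∀ j ∈ Icc 1 J, |av (fun c : Mon n δ → ZMod p => (XX ψ s j c + eta j) ^ cnt f j) - nm j (cnt f j)| ≤ 2 ^ cnt f j * (K * (1 / sp p)) := by
      intro j hj
      refine shift_dim j (cnt f j) _ _ (by positivity) fun i hi => hK p ψ s q σ hg j hj i ?_
      have h4 := single_le_sum (f := fun d => d * cnt f d) (fun _ _ => Nat.zero_le _) hj
      exact (Nat.mul_le_mul_left j hi).trans (h4.trans h2)
    have h4 : ∀ j ∈ Icc 1 J, |av (fun c : Mon n δ → ZMod p => (XX ψ s j c + eta j) ^ cnt f j)| ≤ R j := by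
      intro j hj
      have h5 := h3 j hj
      have h6 : 2 ^ cnt f j * (K * (1 / sp p)) ≤ 2 ^ cnt f j * K := by
        refine mul_le_mul_of_nonneg_left ?_ (by positivity)
        nlinarith
      have h7 := abs_sub_abs_le_abs_sub (av (fun c : Mon n δ → ZMod p => (XX ψ s j c + eta j) ^ cnt f j)) (nm j (cnt f j))
      rw [hR]
      dsimp only
      linarith
    have h5 : ∀ j ∈ Icc 1 J, |nm j (cnt f j)| ≤ R j := by
      intro j _
      rw [hR]
      have : 0 ≤ (2 : ℝ) ^ cnt f j * K := by positivity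
      dsimp only
      linarith
    refine (prod_near (Icc 1 J) _ _ R h4 h5).trans ?_
    have h6 : ∑ k ∈ Icc 1 J, |av (fun c : Mon n δ → ZMod p => (XX ψ s k c + eta k) ^ cnt f k) - nm k (cnt f k)| * ∏ i ∈ (Icc 1 J).erase k, R i ≤
        C₁ * (1 / sp p) := by
      rw [hC₁, sum_mul]
      refine sum_le_sum fun k hk => ?_
      have h7 := mul_le_mul_of_nonneg_right (h3 k hk) (prod_nonneg fun i _ => hR0 i : 0 ≤ ∏ i ∈ (Icc 1 J).erase k, R i)
      refine h7.trans (le_of_eq ?_)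
      ring
    refine h6.trans (mul_le_mul_of_nonneg_right (by linarith) hε0.le)
  · intro k hk
    rw [av_dep hJ (fun j => 2 * k j) hk (fun j c => XX ψ s j c ^ (2 * k j)) fun d _ => (hDep d).pow (2 * k d)]
    have h1 : ∀ j ∈ Icc 1 J, av (fun c : Mon n δ → ZMod p => XX ψ s j c ^ (2 * k j)) ≤ G j := by
      intro j hj
      have h4 := single_le_sum (f := fun d => d * (2 * k d)) (fun _ _ => Nat.zero_le _) hj
      have h5 : j * (2 * k j) ≤ δ + 1 := h4.trans hk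
      have h6 := (abs_le.1 (hK p ψ s q σ hg j hj (2 * k j) h5)).2
      have h7 : 2 * k j ≤ δ + 1 := le_trans (Nat.le_mul_of_pos_left _ (mem_Icc.1 hj).1) h5
      have h8 := single_le_sum (f := fun i => Real.sqrt j ^ i * (gm i : ℝ)) (fun i _ => by positivity) (mem_range.2 (by omega : 2 * k j < δ + 2))
      rw [hG]
      dsimp only at h8 ⊢
      nlinarith
    have h2 : ∏ j ∈ Icc 1 J, av (fun c : Mon n δ → ZMod p => XX ψ s j c ^ (2 * k j)) ≤ C₂ := by
      rw [hC₂]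
      refine prod_le_prod (fun j _ => av_nonneg fun c => ?_) h1
      rw [pow_mul]
      positivity
    linarith

end

end Pool.Agent.W2helper48.JT
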