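import Pool.Agent.W2helper48.JT.Brg

/-!
# The local joint moments of double covers of projective space
-/

set_option autoImplicit false
set_option linter.unusedSectionVars false

namespace Pool.Agent.W2helper48.JT

open Finset Function
open Q282.CL
open Q282MM (gm)
open Q285HS (Sep sm Loc1 av_one)
open Pool.Agent.Y722.HS (Mon mev form)

section

variable {p : ℕ} [hp : Fact p.Prime]

open Classical in
/-- the quadratic character of the field with `p ^ j` elements: the number of the square roots minus one -/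
noncomputable def qc (j : ℕ) (z : Om p) : ℝ := ((univ.filter fun y : EE p j => (y : Om p) ^ 2 = z).card : ℝ) - 1

/-- square roots -/
lemma roots_le (z : Om p) (j : ℕ) [DecidablePred fun y : EE p j => (y : Om p) ^ 2 = z] : (univ.filter fun y : EE p j => (y : Om p) ^ 2 = z).card ≤ 2 := by
  classical
  by_cases h : ∃ y : EE p j, (y : Om p) ^ 2 = z
  · obtain ⟨y, hy⟩ := h
    have h1 : (univ.filter fun y : EE p j => (y : Om p) ^ 2 = z) ⊆ {y, -y} := by
      intro x hx
      rw [mem_filter] at hx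
      have h2 : (x : Om p) ^ 2 = (y : Om p) ^ 2 := by rw [hx.2, hy]
      rw [mem_insert, mem_singleton]
      rcases sq_eq_sq_iff_eq_or_eq_neg.1 h2 with h3 | h3
      · exact Or.inl (Subtype.ext h3)
      · exact Or.inr (Subtype.ext h3)
    exact (card_le_card h1).trans card_le_two
  · have : (univ.filter fun y : EE p j => (y : Om p) ^ 2 = z) = ∅ := by
      rw [filter_eq_empty_iff]
      intro y _ hy
      exact h ⟨y, hy⟩
    rw [this]
    simp

lemma qc_abs (j : ℕ) (z : Om p) : |qc j z| ≤ 1 := by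
  classical
  unfold qc
  have h1 : ((univ.filter fun y : EE p j => (y : Om p) ^ 2 = z).card : ℝ) ≤ 2 := by exact_mod_cast roots_le z j
  have h2 : (0 : ℝ) ≤ (univ.filter fun y : EE p j => (y : Om p) ^ 2 = z).card := Nat.cast_nonneg _
  rw [abs_le]
  constructor <;> linarith

lemma qc_zero (j : ℕ) : qc (p := p) j 0 = 0 := by
  classical
  unfold qc
  have h1 : (univ.filter fun y : EE p j => (y : Om p) ^ 2 = 0) = {0} := by
    ext y
    rw [mem_filter, mem_singleton]
    constructor
    · rintro ⟨_, h⟩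
      exact Subtype.ext (pow_eq_zero_iff (two_ne_zero)|>.1 h)
    · rintro rfl
      exact ⟨mem_univ _, by simp⟩
  rw [h1, card_singleton]
  norm_num

lemma two_ne (h2 : p ≠ 2) : (2 : Om p) ≠ 0 := by
  intro h
  have h1 : ((2 : ℕ) : Om p) = 0 := by exact_mod_cast h
  rw [CharP.cast_eq_zero_iff (Om p) p] at h1
  exact h2 ((Nat.prime_dvd_prime_iff_eq hp.out Nat.prime_two).1 h1)

/-- two square roots in a field which contains one -/
lemma qc_one (h2 : p ≠ 2) (j : ℕ) (z : Om p) (hz : z ≠ 0) (y : EE p j) (hy : (y : Om p) ^ 2 = z) : qc j z = 1 := by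
  classical
  unfold qc
  have h1 : (univ.filter fun y : EE p j => (y : Om p) ^ 2 = z) = {y, -y} := by
    ext x
    rw [mem_filter, mem_insert, mem_singleton]
    constructor
    · rintro ⟨_, hx⟩
      have h3 : (x : Om p) ^ 2 = (y : Om p) ^ 2 := by rw [hx, hy]
      rcases sq_eq_sq_iff_eq_or_eq_neg.1 h3 with h4 | h4
      · exact Or.inl (Subtype.ext h4)
      · exact Or.inr (Subtype.ext h4)
    · rintro (rfl | rfl)
      · exact ⟨mem_univ _, hy⟩
      · refine ⟨mem_univ _, ?_⟩
        rw [AddSubgroup.coe_neg, neg_sq, hy]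
  have hne : y ≠ -y := by
    intro h
    have h3 : (y : Om p) = -(y : Om p) := congrArg Subtype.val h
    have h4 : (2 : Om p) * (y : Om p) = 0 := by
      linear_combination h3
    rcases mul_eq_zero.1 h4 with h5 | h5
    · exact two_ne h2 h5
    · apply hz
      rw [← hy, h5, zero_pow two_ne_zero]
  rw [h1, card_pair hne]
  norm_num

lemma qc_sq (h2 : p ≠ 2) (j : ℕ) (z : Om p) (hz : z ≠ 0) : qc j z ^ 2 = 1 := by
  classical
  by_cases h : ∃ y : EE p j, (y : Om p) ^ 2 = z
  · obtain ⟨y, hy⟩ := h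
    rw [qc_one h2 j z hz y hy]
    norm_num
  · unfold qc
    have : (univ.filter fun y : EE p j => (y : Om p) ^ 2 = z) = ∅ := by
      rw [filter_eq_empty_iff]
      intro y _ hy
      exact h ⟨y, hy⟩
    rw [this]
    norm_num

/-- elements of the field with `p ^ d` elements are squares in the field with `p ^ (2 d)` elements -/
lemma qc_half (h2 : p ≠ 2) (d : ℕ) (hd : d ≠ 0) (z : Om p) (hz : z ≠ 0) (hzd : z ∈ EE p d) : qc (2 * d) z = 1 := by
  obtain ⟨y, hy⟩ := IsAlgClosed.exists_pow_nat_eq z (n := 2) two_pos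
  have h1 : (y ^ p ^ d) ^ 2 = y ^ 2 := by
    rw [← pow_mul, mul_comm, pow_mul, hy]
    exact (mem_EE hd).1 hzd
  have h3 : y ∈ EE p (2 * d) := by
    rw [mem_EE (by omega), two_mul, pow_add, pow_mul]
    rcases sq_eq_sq_iff_eq_or_eq_neg.1 h1 with h | h
    · rw [h, h]
    · have h4 : (-1 : Om p) ^ p ^ d = -1 := Odd.neg_one_pow ((hp.out.odd_of_ne_two h2).pow)
      rw [h]
      have h5 : (-y) ^ p ^ d = (-1) ^ p ^ d * y ^ p ^ d := by rw [← mul_pow, neg_one_mul]
      rw [h5, h4, h]
      ring
  exact qc_one h2 (2 * d) z hz ⟨y, h3⟩ hy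

lemma qc_frob (j : ℕ) (hj : j ≠ 0) (z : Om p) : qc j (z ^ p) = qc j z := by
  classical
  unfold qc
  congr 2
  have hinj : Injective fun y : Om p => y ^ p := frobenius_inj (Om p) p
  have hmap : ∀ y : EE p j, (y : Om p) ^ p ∈ EE p j := by
    intro y
    rw [mem_EE hj, ← pow_mul, mul_comm, pow_mul, (mem_EE hj).1 y.2]
  have hbij : Bijective fun y : EE p j => (⟨(y : Om p) ^ p, hmap y⟩ : EE p j) := by
    rw [← Finite.injective_iff_bijective]
    intro a b h
    exact Subtype.ext (hinj (congrArg Subtype.val h))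
  symm
  refine card_bij (fun y _ => (⟨(y : Om p) ^ p, hmap y⟩ : EE p j)) (fun y hy => ?_) (fun a _ b _ h => hbij.1 h) (fun y hy => ?_)
  · rw [mem_filter] at hy ⊢
    refine ⟨mem_univ _, ?_⟩
    show ((y : Om p) ^ p) ^ 2 = z ^ p
    rw [← pow_mul, mul_comm, pow_mul, hy.2]
  · obtain ⟨x, hx⟩ := hbij.2 y
    refine ⟨x, ?_, hx⟩
    rw [mem_filter] at hy ⊢
    refine ⟨mem_univ _, ?_⟩
    have h1 : (y : Om p) = (x : Om p) ^ p := (congrArg Subtype.val hx).symm
    apply hinj
    show ((x : Om p) ^ 2) ^ p = z ^ p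
    rw [← hy.2, h1, ← pow_mul, ← pow_mul, mul_comm]

variable (p) in
/-- the character as a function on the field -/
noncomputable def psD (d : ℕ) (z : EE p d) : ℝ := qc d (z : Om p)

variable (p) in
/-- the normalising factors -/
noncomputable def sD (n d : ℕ) : ℝ := sp p ^ (d * n)

lemma loc_D (h2 : p ≠ 2) (d : ℕ) (hd : d ≠ 0) : Loc1 (psD p d) 1 (1 - 1 / sp p ^ (2 * d)) := by
  classical
  have hb : 0 < sp p ^ (2 * d) := pow_pos (sp_pos p) _
  have hc := card_EE' (p := p) d hd
  have hsum : ∑ z : EE p d, psD p d z = 0 := by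
    unfold psD qc
    rw [sum_sub_distrib, sum_const, card_univ, nsmul_eq_mul, mul_one]
    have h1 : ∑ z : EE p d, ((univ.filter fun y : EE p d => (y : Om p) ^ 2 = (z : Om p)).card : ℝ) = Fintype.card (EE p d) := by
      rw [← Nat.cast_sum]
      congr 1
      have hmap : ∀ y : EE p d, (y : Om p) ^ 2 ∈ EE p d := by
        intro y
        rw [mem_EE hd, ← pow_mul, mul_comm, pow_mul, (mem_EE hd).1 y.2]
      have h3 := card_eq_sum_card_fiberwise (s := (univ : Finset (EE p d))) (t := (univ : Finset (EE p d)))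
        (f := fun y : EE p d => (⟨(y : Om p) ^ 2, hmap y⟩ : EE p d)) fun y _ => mem_univ _
      rw [card_univ] at h3
      rw [h3]
      refine sum_congr rfl fun z _ => ?_
      congr 1
      ext y
      simp only [mem_filter, mem_univ, true_and]
      exact ⟨fun h => Subtype.ext h, fun h => congrArg Subtype.val h⟩
    rw [h1, sub_self]
  have habs : ∀ z, |psD p d z| ≤ 1 := fun z => qc_abs d _
  refine ⟨?_, ?_, fun j _ => ?_⟩
  · unfold av
    rw [hsum, zero_div]
  · have h1 : ∀ z : EE p d, psD p d z ^ 2 = 1 - if z = 0 then (1 : ℝ) else 0 := by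
      intro z
      by_cases hz : z = 0
      · rw [if_pos hz, hz]
        unfold psD
        rw [ZeroMemClass.coe_zero, qc_zero]
        norm_num
      · rw [if_neg hz]
        unfold psD
        rw [qc_sq h2 d _ fun h => hz (Subtype.ext h)]
        norm_num
    unfold av
    rw [sum_congr rfl fun w _ => h1 w, sum_sub_distrib, sum_ite_eq' univ 0 (fun _ => (1 : ℝ)), sum_const, card_univ, nsmul_eq_mul, mul_one, hc]
    simp only [mem_univ, if_true]
    field_simp
  · rw [div_one]
    refine (abs_av_le _).trans ?_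
    have h1 : av (fun z => |psD p d z ^ j|) ≤ av (fun _ : EE p d => (1 : ℝ)) := av_mono fun z => by
      rw [abs_pow]
      exact pow_le_one₀ (abs_nonneg _) (habs z)
    rwa [av_const] at h1

lemma good_D (h2 : p ≠ 2) (n J : ℕ) (hn : 1 ≤ n) : Good n p J (psD p) (sD p n) (fun _ => 1) (fun d => 1 - 1 / sp p ^ (2 * d)) := by
  have hs := sp_pos p
  have hb1 : ∀ k, 1 ≤ sp p ^ k := fun k => one_le_pow₀ (one_lt_sp p).le
  have h1b : ∀ k, 1 / sp p ^ k ≤ 1 := fun k => by
    rw [div_le_one (by positivity)]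
    exact hb1 k
  refine ⟨fun d hd => loc_D h2 d (by rw [mem_Icc] at hd; omega), fun d _ => le_rfl, fun d _ => ?_, fun d _ => ?_, fun d hd => ?_, fun d hd => ?_,
    fun d _ => hb1 _, fun d _ => ?_⟩
  · linarith [h1b (2 * d)]
  · have h1 : 0 ≤ 1 / sp p ^ (2 * d) := by positivity
    linarith
  · refine (CP_le n d (by rw [mem_Icc] at hd; omega)).trans ?_
    unfold sD
    have h1 : 1 * (2 * sp p ^ (d * n)) ^ 2 = 4 * sp p ^ (2 * n * d) := by
      rw [one_mul, mul_pow, ← pow_mul]
      have : 2 * n * d = d * n * 2 := by ring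
      rw [this]
      ring
    rw [h1]
    have : 0 ≤ sp p ^ (2 * n * d) := by positivity
    linarith
  · unfold sD
    refine inv_sp_le ?_
    rw [mem_Icc] at hd
    exact Nat.one_le_iff_ne_zero.2 (Nat.mul_ne_zero (by omega) (by omega))
  · unfold sD
    have : 2 * n * d = d * n * 2 := by ring
    rw [this, ← pow_mul]
    ring

variable {n δ : ℕ}

/-- the normalised sum of the characters of the values of the form over the field with `p ^ j` elements -/
noncomputable def TD (j : ℕ) (c : Mon n δ → ZMod p) : ℝ := (∑ v ∈ j.divisors.biUnion fun d => MM n p d, qc j (vl c v)) / sD p n j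

/-- the number of the zeros of degree half `j`, normalised -/
noncomputable def ZD (j : ℕ) (c : Mon n δ → ZMod p) : ℝ :=
  (∑ d ∈ j.properDivisors, if 2 * d = j then ∑ v ∈ MM n p d, (if vl c v = 0 then (1 : ℝ) else 0) else 0) / sD p n j

lemma near_D (h2 : p ≠ 2) (j : ℕ) (hn : 1 ≤ n) (hj : j ≠ 0) (c : Mon n δ → ZMod p) :
    |TD j c - XX (psD p) (sD p n) j c - eta j| ≤ j * (2 + 2 * j) * (1 / sp p) + ZD j c := by
  have hs := sp_pos p
  have hε0 : 0 < 1 / sp p := by positivity
  have hsj : 0 < sD p n j := by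
    unfold sD
    positivity
  -- the points of degree `j`
  have h1 : ∑ v ∈ MM n p j, qc j (vl c v) = sD p n j * XX (psD p) (sD p n) j c := by
    rw [sum_MM (fun v => qc j (vl c v)) fun v => by rw [vl_fr, qc_frob j hj]]
    unfold XX sm
    have h3 : ∀ v ∈ CP n p j, psD p j (evd (δ := δ) j v c) = qc j (vl c v) := by
      intro v hv
      unfold psD
      rw [vl_evd (CP_sub hv)]
    rw [sum_congr rfl h3]
    field_simp
  have h3 : TD j c - XX (psD p) (sD p n) j c - eta j =
      ∑ d ∈ j.properDivisors, ((∑ v ∈ MM n p d, qc j (vl c v)) / sD p n j - if 2 * d = j then (1 : ℝ) else 0) := by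
    unfold TD
    rw [sum_div, ← Nat.cons_self_properDivisors hj, sum_cons, h1, sum_sub_distrib, ← eta_sum j hj, ← Finset.sum_div]
    field_simp
    ring
  rw [h3]
  refine (abs_sum_le_sum_abs _ _).trans ?_
  have h4 : ∀ d ∈ j.properDivisors, |(∑ v ∈ MM n p d, qc j (vl c v)) / sD p n j - if 2 * d = j then (1 : ℝ) else 0| ≤
      (2 + 2 * j) * (1 / sp p) + (if 2 * d = j then ∑ v ∈ MM n p d, (if vl c v = 0 then (1 : ℝ) else 0) else 0) / sD p n j := by
    intro d hd
    obtain ⟨hd2, hd1⟩ := proper_le hd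
    have hdj : (d : ℝ) ≤ j := by exact_mod_cast (by omega : d ≤ j)
    split_ifs with h
    · have h5 : ∀ v ∈ MM n p d, qc j (vl c v) = 1 - if vl c v = 0 then (1 : ℝ) else 0 := by
        intro v hv
        by_cases hz : vl c v = 0
        · rw [if_pos hz, hz, qc_zero]
          norm_num
        · rw [if_neg hz, ← h, qc_half h2 d (by omega) _ hz]
          · norm_num
          · rw [← vl_evd hv]
            exact (evd (δ := δ) d v c).2
      rw [sum_congr rfl h5, sum_sub_distrib, sum_const, nsmul_eq_mul, mul_one]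
      have h6 := NN_near (n := n) (p := p) hn d (by omega)
      have h7 : sD p n j = sp p ^ (2 * n * d) := by
        unfold sD
        rw [← h]
        congr 1
        ring
      have h8 : ((MM n p d).card - ∑ v ∈ MM n p d, if vl c v = 0 then (1 : ℝ) else 0) / sD p n j - 1 =
          (NN n p d / sp p ^ (2 * n * d) - 1) - (∑ v ∈ MM n p d, if vl c v = 0 then (1 : ℝ) else 0) / sD p n j := by
        rw [← h7]
        unfold NN
        ring
      rw [h8]
      refine (abs_sub _ _).trans (add_le_add ?_ (le_of_eq ?_))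
      · exact h6.trans (mul_le_mul_of_nonneg_right (by linarith) hε0.le)
      · refine abs_of_nonneg (div_nonneg (sum_nonneg fun v _ => ?_) hsj.le)
        split_ifs <;> norm_num
    · rw [sub_zero, zero_div, add_zero, abs_div, abs_of_pos hsj]
      have h5 : |∑ v ∈ MM n p d, qc j (vl c v)| ≤ NN n p d := by
        refine (abs_sum_le_sum_abs _ _).trans ((sum_le_sum fun v _ => qc_abs j _).trans (le_of_eq ?_))
        rw [sum_const, nsmul_eq_mul, mul_one]
        rfl
      have h6 := div_le_div_of_nonneg_right (h5.trans (NN_le (n := n) (p := p) d (by omega))) hsj.le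
      refine h6.trans ?_
      unfold sD
      rw [mul_div_assoc]
      have h7 : sp p ^ (2 * n * d) / sp p ^ (j * n) ≤ 1 / sp p := by
        refine sp_div_le ?_
        have h8 : (2 * d + 1) * n ≤ j * n := Nat.mul_le_mul_right n (by omega)
        have h9 : (2 * d + 1) * n = 2 * n * d + n := by ring
        omega
      have h8 : (0 : ℝ) ≤ j := Nat.cast_nonneg j
      nlinarith
  refine (sum_le_sum h4).trans ?_
  rw [sum_add_distrib, sum_const, nsmul_eq_mul]
  unfold ZD
  rw [Finset.sum_div]
  refine add_le_add ?_ le_rfl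
  rw [mul_assoc]
  refine mul_le_mul_of_nonneg_right ?_ (by positivity)
  have h4 : j.properDivisors.card ≤ j := by
    calc j.properDivisors.card ≤ (Ico 1 j).card := card_filter_le _ _
      _ ≤ j := by
        rw [Nat.card_Ico]
        omega
  exact_mod_cast h4

lemma ZD_bd (j : ℕ) (hj : j ≠ 0) (c : Mon n δ → ZMod p) : 0 ≤ ZD j c ∧ ZD j c ≤ 2 := by
  have hs := sp_pos p
  have hsj : 0 < sD p n j := by
    unfold sD
    positivity
  have h0 : ∀ v, (0 : ℝ) ≤ if vl c v = 0 then (1 : ℝ) else 0 := fun v => by split_ifs <;> norm_num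
  constructor
  · unfold ZD
    refine div_nonneg (sum_nonneg fun d _ => ?_) hsj.le
    split_ifs
    · exact sum_nonneg fun v _ => h0 v
    · exact le_rfl
  · unfold ZD
    rw [div_le_iff₀ hsj]
    by_cases he : Even j
    · obtain ⟨k, hk⟩ := he
      have h1 : ∑ d ∈ j.properDivisors, (if 2 * d = j then ∑ v ∈ MM n p d, (if vl c v = 0 then (1 : ℝ) else 0) else 0) ≤
          ∑ v ∈ MM n p k, (if vl c v = 0 then (1 : ℝ) else 0) := by
        have h2 : ∀ d ∈ j.properDivisors, (if 2 * d = j then ∑ v ∈ MM n p d, (if vl c v = 0 then (1 : ℝ) else 0) else 0) =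
            if d = k then ∑ v ∈ MM n p k, (if vl c v = 0 then (1 : ℝ) else 0) else 0 := by
          intro d _
          by_cases hd : d = k
          · rw [if_pos hd, if_pos (by omega), hd]
          · rw [if_neg hd, if_neg (by omega)]
        rw [sum_congr rfl h2, sum_ite_eq']
        split_ifs
        · exact le_rfl
        · exact sum_nonneg fun v _ => h0 v
      refine h1.trans ?_
      have h2 : ∑ v ∈ MM n p k, (if vl c v = 0 then (1 : ℝ) else 0) ≤ NN n p k := by
        refine (sum_le_sum (g := fun _ => (1 : ℝ)) fun v _ => by split_ifs <;> norm_num).trans (le_of_eq ?_)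
        rw [sum_const, nsmul_eq_mul, mul_one]
        rfl
      refine h2.trans ((NN_le k (by omega)).trans (le_of_eq ?_))
      unfold sD
      congr 2
      rw [hk]
      ring
    · have h1 : ∑ d ∈ j.properDivisors, (if 2 * d = j then ∑ v ∈ MM n p d, (if vl c v = 0 then (1 : ℝ) else 0) else 0) = 0 := by
        refine sum_eq_zero fun d _ => ?_
        rw [if_neg]
        intro h
        exact he ⟨d, by omega⟩
      rw [h1]
      positivity

lemma ZD_av (j : ℕ) (hj : j ≠ 0) (hjD : j ≤ δ + 1) : av (fun c : Mon n δ → ZMod p => ZD j c ^ 2) ≤ 4 * (1 / sp p) ^ 2 := by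
  have hs := sp_pos p
  have hsj : 0 < sD p n j := by
    unfold sD
    positivity
  have h1 : ∀ c : Mon n δ → ZMod p, ZD j c ^ 2 ≤ 2 * ZD j c := by
    intro c
    obtain ⟨h2, h3⟩ := ZD_bd (n := n) j hj c
    nlinarith
  refine (av_mono h1).trans ?_
  rw [av_mul]
  have h2 : av (fun c : Mon n δ → ZMod p => ZD j c) ≤ 2 * (1 / sp p) ^ 2 := by
    by_cases he : Even j
    · obtain ⟨k, hk⟩ := he
      have hk0 : k ≠ 0 := by omega
      have h3 : (fun c : Mon n δ → ZMod p => ZD j c) = fun c => (k / sD p n j) * ∑ v ∈ CP n p k, (if evd (δ := δ) k v c = 0 then (1 : ℝ) else 0) := by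
        funext c
        unfold ZD
        have h4 : ∀ d ∈ j.properDivisors, (if 2 * d = j then ∑ v ∈ MM n p d, (if vl c v = 0 then (1 : ℝ) else 0) else 0) =
            if d = k then ∑ v ∈ MM n p k, (if vl c v = 0 then (1 : ℝ) else 0) else 0 := by
          intro d _
          by_cases hd : d = k
          · rw [if_pos hd, if_pos (by omega), hd]
          · rw [if_neg hd, if_neg (by omega)]
        rw [sum_congr rfl h4, sum_ite_eq', if_pos (by
          rw [Nat.mem_properDivisors]
          exact ⟨⟨2, by omega⟩, by omega⟩), sum_MM (fun v => if vl c v = 0 then (1 : ℝ) else 0) fun v => by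
          rw [vl_fr]
          simp only [pow_eq_zero_iff hp.out.ne_zero]]
        have h5 : ∀ v ∈ CP n p k, (if vl c v = 0 then (1 : ℝ) else 0) = if evd (δ := δ) k v c = 0 then (1 : ℝ) else 0 := by
          intro v hv
          have h6 := vl_evd (CP_sub hv) c
          have h7 : evd (δ := δ) k v c = 0 ↔ vl c v = 0 := by
            rw [← h6]
            exact (ZeroMemClass.coe_eq_zero).symm
          simp only [h7]
        rw [sum_congr rfl h5]
        ring
      rw [h3, av_mul, av_sum]
      have hsep : Sep (evd (p := p) (n := n) (δ := δ) k) (CP n p k) 1 :=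
        (jsep (p := p) (n := n) (δ := δ) k).sep k (mem_Icc.2 ⟨by omega, le_rfl⟩) 1 (by omega)
      have h4 : ∀ v ∈ CP n p k, av (fun c : Mon n δ → ZMod p => if evd (δ := δ) k v c = 0 then (1 : ℝ) else 0) = 1 / sp p ^ (2 * k) := by
        intro v hv
        rw [av_one hsep le_rfl v hv fun z : EE p k => if z = 0 then (1 : ℝ) else 0]
        unfold av
        rw [sum_ite_eq' univ 0 (fun _ => (1 : ℝ)), if_pos (mem_univ _), card_EE' k hk0]
      rw [sum_congr rfl h4, sum_const, nsmul_eq_mul]
      have h5 : (k : ℝ) / sD p n j * ((CP n p k).card * (1 / sp p ^ (2 * k))) = (NN n p k / sp p ^ (2 * n * k)) * (1 / sp p ^ (2 * k)) := by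
        rw [NN_card]
        have h6 : sD p n j = sp p ^ (2 * n * k) := by
          unfold sD
          congr 1
          rw [hk]
          ring
        rw [h6]
        ring
      rw [h5]
      have h6 : NN n p k / sp p ^ (2 * n * k) ≤ 2 := by
        rw [div_le_iff₀ (by positivity)]
        exact NN_le k hk0
      have h7 : 1 / sp p ^ (2 * k) ≤ (1 / sp p) ^ 2 := by
        rw [div_pow, one_pow]
        exact one_div_le_one_div_of_le (by positivity) (pow_le_pow_right₀ (one_lt_sp p).le (by omega))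
      exact mul_le_mul h6 h7 (by positivity) (by norm_num)
    · have h3 : (fun c : Mon n δ → ZMod p => ZD j c) = fun _ => 0 := by
        funext c
        unfold ZD
        rw [div_eq_zero_iff]
        left
        refine sum_eq_zero fun d _ => ?_
        rw [if_neg]
        intro h
        exact he ⟨d, by omega⟩
      rw [h3, av_const]
      positivity
  linarith

end

/-- **the local joint moments of double covers** -/
theorem local_D (n δ J : ℕ) (hn : 1 ≤ n) (hJ : J ≤ δ + 1) {r : ℕ} (f : Fin r → ℕ) (hf : ∀ i, f i ∈ Icc 1 J) (hfD : 2 * ∑ i, f i ≤ δ + 1) :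
    ∃ C : ℝ, 1 ≤ C ∧ ∀ (p : ℕ) [Fact p.Prime], p ≠ 2 → |av (fun c : Mon n δ → ZMod p => ∏ i, TD (f i) c) - jm J f| ≤ C * (1 / sp p) ∧
      av (fun c : Mon n δ → ZMod p => (∏ i, TD (f i) c) ^ 2) ≤ C := by
  obtain ⟨C₀, hC₀1, hC₀⟩ := joint n δ J hn f hf hfD
  obtain ⟨C₁, hC₁⟩ : ∃ C₁ : ℝ, C₁ = C₀ + J * (2 + 2 * J) + 4 := ⟨_, rfl⟩
  have hJ0 : (0 : ℝ) ≤ J := Nat.cast_nonneg J
  have hC₁1 : 1 ≤ C₁ := by
    rw [hC₁]
    nlinarith
  obtain ⟨C, hC1, hC⟩ := loc_abs (J := J) (D := δ + 1) f hf hfD C₁ hC₁1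
  refine ⟨C, hC1, fun p hp h2 => ?_⟩
  have hs := sp_pos p
  have hε0 : 0 < 1 / sp p := by positivity
  have hε1 : 1 / sp p ≤ 1 := by
    rw [div_le_one hs]
    exact (one_lt_sp p).le
  obtain ⟨h3, h4⟩ := hC₀ p (psD p) (sD p n) _ _ (good_D h2 n J hn)
  have hCC : C₀ ≤ C₁ := by
    rw [hC₁]
    nlinarith
  have h4C : (4 : ℝ) ≤ C₁ := by
    rw [hC₁]
    nlinarith
  refine hC (Mon n δ → ZMod p) (XX (psD p) (sD p n)) (fun j c => TD j c) (fun j c => ZD j c) (1 / sp p) hε0 hε1
    (h3.trans (mul_le_mul_of_nonneg_right hCC hε0.le)) (fun k hk => (h4 k hk).trans hCC) (fun j hj c => ?_) (fun j hj => ⟨fun c => ?_, ?_⟩)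
  · rw [mem_Icc] at hj
    refine (near_D h2 j hn (by omega) c).trans (add_le_add ?_ le_rfl)
    have hV := one_le_VV (XX (δ := δ) (n := n) (psD p) (sD p n)) j c
    have hsV : 1 ≤ Real.sqrt (VV (XX (psD p) (sD p n)) j c) := Real.one_le_sqrt.2 hV
    have h5 : (j : ℝ) ≤ J := by exact_mod_cast hj.2
    have h6 : (0 : ℝ) ≤ j := Nat.cast_nonneg j
    have h7 : (j : ℝ) * (2 + 2 * j) ≤ C₁ := by
      rw [hC₁]
      nlinarith
    have h8 := mul_le_mul_of_nonneg_right h7 hε0.le
    have h9 : 0 ≤ C₁ * (1 / sp p) := by positivity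
    nlinarith
  · rw [mem_Icc] at hj
    obtain ⟨h5, h6⟩ := ZD_bd (n := n) j (by omega) c
    exact ⟨h5, by linarith⟩
  · rw [mem_Icc] at hj
    refine (ZD_av (n := n) j (by omega) (by omega)).trans ?_
    exact mul_le_mul_of_nonneg_right h4C (sq_nonneg _)

end Pool.Agent.W2helper48.JT
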