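import Pool.Agent.W2helper48.JT.Orb
import Pool.Agent.W2helper48.JT.Blk
import Pool.Agent.Q285.HS.Pts

/-!
# The values of forms with coefficients in the prime field at closed points of small total degree are arbitrary
-/

set_option autoImplicit false
set_option linter.unusedSectionVars false

namespace Pool.Agent.W2helper48.JT

open Finset Function
open Pool.Agent.Y722.HS (Mon mev)
open Q285HS (toFs toFs_inj eval_hom)

/-- different normalised vectors are not proportional -/
lemma nrm_ne {F : Type} [Field F] {n : ℕ} {v w : Fin (n + 1) → F} (hv : Nrm v) (hw : Nrm w) (h : v ≠ w) : ∃ i j, v i * w j ≠ v j * w i := by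
  by_contra hcon
  push Not at hcon
  apply h
  obtain ⟨i, hi, hi'⟩ := hv
  obtain ⟨j, hj, hj'⟩ := hw
  rcases lt_trichotomy i j with hij | rfl | hij
  · have := hcon i j
    rw [hi, hj, hj' i hij] at this
    simp at this
  · funext k
    have := hcon i k
    rw [hi, hj] at this
    simpa using this.symm
  · have := hcon i j
    rw [hi, hj, hi' j hij] at this
    simp at this

lemma exists_form {F : Type} [Field F] {n D : ℕ} (a : Fin (n + 1) → F) (ha : Nrm a) (T : Finset (Fin (n + 1) → F)) (hT : T.card ≤ D)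
    (hTn : ∀ t ∈ T, Nrm t) (haT : a ∉ T) :
    ∃ c : Mon n D → F, ∑ ν, c ν * mev a ν = 1 ∧ ∀ t ∈ T, ∑ ν, c ν * mev t ν = 0 := by
  classical
  have hne : ∀ t : T, ∃ i j, a i * t.1 j ≠ a j * t.1 i := fun t => nrm_ne ha (hTn t t.2) fun h => haT (h ▸ t.2)
  choose i j hij using hne
  obtain ⟨k, hk, _⟩ := ha
  obtain ⟨P, hP⟩ : ∃ P : MvPolynomial (Fin (n + 1)) F, P = (∏ t : T, (MvPolynomial.C (t.1 (j t)) * MvPolynomial.X (i t) -
    MvPolynomial.C (t.1 (i t)) * MvPolynomial.X (j t))) * MvPolynomial.X k ^ (D - T.card) := ⟨_, rfl⟩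
  have hhom : P.IsHomogeneous D := by
    have h1 : (∏ t : T, (MvPolynomial.C (t.1 (j t)) * MvPolynomial.X (i t) -
        MvPolynomial.C (t.1 (i t)) * MvPolynomial.X (j t)) : MvPolynomial (Fin (n + 1)) F).IsHomogeneous (∑ _t : T, 1) := by
      refine MvPolynomial.IsHomogeneous.prod _ _ _ fun t _ => ?_
      refine MvPolynomial.IsHomogeneous.sub ?_ ?_
      · exact MvPolynomial.isHomogeneous_C_mul_X _ _
      · exact MvPolynomial.isHomogeneous_C_mul_X _ _
    have h2 := h1.mul (MvPolynomial.isHomogeneous_X_pow (R := F) k (D - T.card))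
    rw [hP]
    have h3 : (∑ _t : T, 1) + (D - T.card) = D := by
      rw [sum_const, card_univ, Fintype.card_coe, smul_eq_mul, mul_one]
      omega
    rwa [h3] at h2
  have hPa : MvPolynomial.eval a P ≠ 0 := by
    rw [hP, map_mul, map_prod, map_pow, MvPolynomial.eval_X, hk, one_pow, mul_one]
    refine prod_ne_zero_iff.2 fun t _ => ?_
    rw [map_sub, map_mul, map_mul, MvPolynomial.eval_C, MvPolynomial.eval_C, MvPolynomial.eval_X, MvPolynomial.eval_X, sub_ne_zero]
    intro h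
    apply hij t
    rw [mul_comm, h, mul_comm]
  refine ⟨fun ν => P.coeff (toFs ν) / MvPolynomial.eval a P, ?_, fun t ht => ?_⟩
  · simp only [div_mul_eq_mul_div]
    rw [← Finset.sum_div, ← eval_hom P hhom, div_self hPa]
  · simp only [div_mul_eq_mul_div]
    rw [← Finset.sum_div, ← eval_hom P hhom, hP, map_mul, map_prod]
    rw [prod_eq_zero (mem_univ (⟨t, ht⟩ : T)), zero_mul, zero_div]
    rw [map_sub, map_mul, map_mul, MvPolynomial.eval_C, MvPolynomial.eval_C, MvPolynomial.eval_X, MvPolynomial.eval_X]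
    ring

section

variable {p : ℕ} [hp : Fact p.Prime] {n δ : ℕ}

lemma mev_iter (s : ℕ) (x : Fin (n + 1) → Om p) (ν : Mon n δ) : mev (fr^[s] x) ν = mev x ν ^ p ^ s := by
  rw [fr_iter]
  unfold mev
  rw [← prod_pow]
  refine prod_congr rfl fun i _ => ?_
  rw [← pow_mul, ← pow_mul, mul_comm]

lemma val_iter (c : Mon n δ → Om p) (s : ℕ) (x : Fin (n + 1) → Om p) :
    (∑ ν, c ν * mev x ν) ^ p ^ s = ∑ ν, c ν ^ p ^ s * mev (fr^[s] x) ν := by
  rw [sum_pow_char_pow]
  refine sum_congr rfl fun ν _ => ?_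
  rw [mul_pow, mev_iter]

lemma pow_per {x : Om p} {m : ℕ} (h : x ^ p ^ m = x) (k : ℕ) : x ^ p ^ (m * k) = x := by
  induction k with
  | zero => simp
  | succ k ih =>
    rw [Nat.mul_succ, pow_add, pow_mul, ih, h]

/-- every element lies in a finite field -/
lemma exists_per (x : Om p) : ∃ m : ℕ, 0 < m ∧ x ^ p ^ m = x := by
  have hint : IsIntegral (ZMod p) x := (AlgebraicClosure.isAlgebraic (ZMod p)).isAlgebraic x |>.isIntegral
  have : FiniteDimensional (ZMod p) (IntermediateField.adjoin (ZMod p) {x}) := IntermediateField.adjoin.finiteDimensional hint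
  have : Finite (IntermediateField.adjoin (ZMod p) {x}) := Module.finite_of_finite (ZMod p)
  have : Fintype (IntermediateField.adjoin (ZMod p) {x}) := Fintype.ofFinite _
  refine ⟨Module.finrank (ZMod p) (IntermediateField.adjoin (ZMod p) {x}), Module.finrank_pos, ?_⟩
  have h1 := Module.card_eq_pow_finrank (K := ZMod p) (V := IntermediateField.adjoin (ZMod p) {x})
  rw [ZMod.card] at h1
  have h2 := FiniteField.pow_card (⟨x, IntermediateField.mem_adjoin_simple_self (ZMod p) x⟩ : IntermediateField.adjoin (ZMod p) {x})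
  rw [h1] at h2
  exact congrArg Subtype.val h2

/-- the elements of the prime field -/
lemma exists_prime {x : Om p} (h : x ^ p = x) : ∃ a : ZMod p, algebraMap (ZMod p) (Om p) a = x := by
  obtain ⟨y, hy⟩ := (mem_range_sg (p := p) 1 one_ne_zero x).2 ((mem_EE one_ne_zero).2 (by rw [pow_one]; exact h))
  refine ⟨GaloisField.equivZmodP p y, ?_⟩
  rw [← hy]
  have h1 : y = algebraMap (ZMod p) (GaloisField p 1) (GaloisField.equivZmodP p y) := by
    apply (GaloisField.equivZmodP p).injective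
    rw [AlgEquiv.commutes]
    rfl
  conv_rhs => rw [h1]
  rw [AlgHom.commutes]

/-- an element with nonzero trace -/
lemma exists_trace (d M : ℕ) (hd : 0 < d) (hM : 0 < M) :
    ∃ c : Om p, c ^ p ^ (d * M) = c ∧ ∑ t ∈ range M, c ^ p ^ (d * t) ≠ 0 := by
  classical
  by_contra hcon
  push Not at hcon
  obtain ⟨P, hP⟩ : ∃ P : Polynomial (Om p), P = ∑ t ∈ range M, Polynomial.X ^ p ^ (d * t) := ⟨_, rfl⟩
  have hp1 := hp.out.one_lt
  have hcoeff : P.coeff 1 = 1 := by
    rw [hP, Polynomial.finsetSum_coeff, sum_eq_single 0]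
    · rw [mul_zero, pow_zero, pow_one, Polynomial.coeff_X_one]
    · intro t _ ht
      rw [Polynomial.coeff_X_pow, if_neg]
      have : 1 < p ^ (d * t) := Nat.one_lt_pow (Nat.mul_ne_zero hd.ne' ht) hp1
      omega
    · intro h
      exact absurd (mem_range.2 hM) h
  have hP0 : P ≠ 0 := by
    intro h
    rw [h, Polynomial.coeff_zero] at hcoeff
    exact zero_ne_one hcoeff
  have hdeg : P.natDegree ≤ p ^ (d * (M - 1)) := by
    rw [hP]
    refine Polynomial.natDegree_sum_le_of_forall_le _ _ fun t ht => ?_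
    rw [Polynomial.natDegree_X_pow]
    rw [mem_range] at ht
    exact Nat.pow_le_pow_right hp.out.pos (Nat.mul_le_mul_left d (by omega))
  have hN : d * M ≠ 0 := Nat.mul_ne_zero hd.ne' hM.ne'
  have h1 : (univ : Finset (EE p (d * M))).image (Subtype.val : EE p (d * M) → Om p) ⊆ P.roots.toFinset := by
    intro x hx
    rw [mem_image] at hx
    obtain ⟨y, _, rfl⟩ := hx
    rw [Multiset.mem_toFinset, Polynomial.mem_roots hP0, Polynomial.IsRoot.def, hP, Polynomial.eval_finsetSum]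
    have := hcon y ((mem_EE hN).1 y.2)
    simpa using this
  have h2 := card_le_card h1
  rw [card_image_of_injective _ Subtype.val_injective, card_univ, card_EE _ hN] at h2
  have h3 : P.roots.toFinset.card ≤ p ^ (d * (M - 1)) := (Multiset.toFinset_card_le _).trans ((Polynomial.card_roots' P).trans hdeg)
  have h4 : p ^ (d * (M - 1)) < p ^ (d * M) := Nat.pow_lt_pow_right hp1 (Nat.mul_lt_mul_of_pos_left (by omega) hd)
  omega

/-- a form with coefficients in the prime field with a given value at a closed point, zero at others -/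
lemma exists_val {d : ℕ} (a : Fin (n + 1) → Om p) (ha : a ∈ MM n p d) (U : Finset (Fin (n + 1) → Om p))
    (hU : ∀ w ∈ U, Nrm w ∧ 0 < minimalPeriod fr w ∧ ∀ s, fr^[s] w ∈ U) (haU : a ∈ U) (hcard : U.card ≤ δ + 1) (z : Om p) (hz : z ∈ EE p d) :
    ∃ c : Mon n δ → ZMod p, ∑ ν, algebraMap (ZMod p) (Om p) (c ν) * mev a ν = z ∧
      ∀ w ∈ U, w ∉ ob a → ∑ ν, algebraMap (ZMod p) (Om p) (c ν) * mev w ν = 0 := by
  classical
  obtain ⟨ha1, ha2, hd⟩ := mem_MM.1 ha
  obtain ⟨G, hG1, hG2⟩ := exists_form (D := δ) a ha1 (U.erase a) (by rw [card_erase_of_mem haU]; omega)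
    (fun t ht => (hU t (mem_of_mem_erase ht)).1) (notMem_erase a U)
  -- a common field
  choose m hm0 hm using fun ν => exists_per (p := p) (G ν)
  obtain ⟨M, hM⟩ : ∃ M : ℕ, M = ∏ ν, m ν := ⟨_, rfl⟩
  have hMpos : 0 < M := by
    rw [hM]
    exact prod_pos fun ν _ => hm0 ν
  have hGN : ∀ ν, G ν ^ p ^ (d * M) = G ν := by
    intro ν
    obtain ⟨k, hk⟩ : m ν ∣ d * M := (dvd_trans (hM ▸ dvd_prod_of_mem m (mem_univ ν)) (Dvd.intro_left d rfl))
    rw [hk]
    exact pow_per (hm ν) k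
  obtain ⟨c₀, hc₀, hy⟩ := exists_trace (p := p) d M hd hMpos
  obtain ⟨y, hydef⟩ : ∃ y : Om p, y = ∑ t ∈ range M, c₀ ^ p ^ (d * t) := ⟨_, rfl⟩
  rw [← hydef] at hy
  have hyd : y ^ p ^ d = y := by
    have h1 : y ^ p ^ d = ∑ t ∈ range M, c₀ ^ p ^ (d * (t + 1)) := by
      rw [hydef, sum_pow_char_pow]
      refine sum_congr rfl fun t _ => ?_
      rw [← pow_mul, ← pow_add, Nat.mul_succ]
    have h2 := sum_range_succ (fun t => c₀ ^ p ^ (d * t)) M
    have h3 := sum_range_succ' (fun t => c₀ ^ p ^ (d * t)) M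
    rw [h1]
    rw [h2, ← hydef] at h3
    simp only [mul_zero, pow_zero, pow_one] at h3
    rw [hc₀] at h3
    exact (add_right_cancel h3).symm
  obtain ⟨u, hu⟩ : ∃ u : Om p, u = z / y := ⟨_, rfl⟩
  have hud : u ^ p ^ d = u := by
    rw [hu, div_pow, hyd, (mem_EE hd.ne').1 hz]
  obtain ⟨c, hc⟩ : ∃ c : Om p, c = c₀ * u := ⟨_, rfl⟩
  have hcN : c ^ p ^ (d * M) = c := by
    rw [hc, mul_pow, hc₀, pow_per hud]
  obtain ⟨F, hF⟩ : ∃ F : Mon n δ → Om p, F = fun ν => ∑ s ∈ range (d * M), (c * G ν) ^ p ^ s := ⟨_, rfl⟩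
  have hFp : ∀ ν, F ν ^ p = F ν := by
    intro ν
    have h1 : F ν ^ p = ∑ s ∈ range (d * M), (c * G ν) ^ p ^ (s + 1) := by
      rw [hF]
      dsimp only
      rw [sum_pow_char]
      refine sum_congr rfl fun s _ => ?_
      rw [← pow_mul, ← pow_succ]
    have h2 := sum_range_succ (fun s => (c * G ν) ^ p ^ s) (d * M)
    have h3 := sum_range_succ' (fun s => (c * G ν) ^ p ^ s) (d * M)
    have h4 : (c * G ν) ^ p ^ (d * M) = c * G ν := by rw [mul_pow, hcN, hGN]
    rw [h2, h4] at h3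
    simp only [pow_zero, pow_one] at h3
    rw [h1, hF]
    exact (add_right_cancel h3).symm
  choose b hb using fun ν => exists_prime (hFp ν)
  -- the value at a point
  have key : ∀ w ∈ U, ∑ ν, algebraMap (ZMod p) (Om p) (b ν) * mev w ν =
      ∑ s ∈ range (d * M), (c * ∑ ν, G ν * mev (fr^[minimalPeriod fr w * s - s] w) ν) ^ p ^ s := by
    intro w hw
    have h1 : ∀ s : ℕ, fr^[s] (fr^[minimalPeriod fr w * s - s] w) = w := by
      intro s
      have h2 : s ≤ minimalPeriod fr w * s := Nat.le_mul_of_pos_left s (hU w hw).2.1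
      rw [← iterate_add_apply, Nat.add_sub_cancel' h2]
      exact (isPeriodicPt_minimalPeriod fr w).mul_const s
    have h3 : ∀ s : ℕ, (c * ∑ ν, G ν * mev (fr^[minimalPeriod fr w * s - s] w) ν) ^ p ^ s = ∑ ν, (c * G ν) ^ p ^ s * mev w ν := by
      intro s
      rw [mul_sum]
      have h4 := val_iter (fun ν => c * G ν) s (fr^[minimalPeriod fr w * s - s] w)
      rw [h1 s] at h4
      rw [← h4]
      congr 1
      exact sum_congr rfl fun ν _ => by ring
    rw [sum_congr rfl fun s _ => h3 s, sum_comm]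
    refine sum_congr rfl fun ν _ => ?_
    rw [hb, hF, sum_mul]
  refine ⟨b, ?_, fun w hw hwa => ?_⟩
  · rw [key a haU]
    have h1 : ∀ s ∈ range (d * M), (c * ∑ ν, G ν * mev (fr^[minimalPeriod fr a * s - s] a) ν) ^ p ^ s = if d ∣ s then c ^ p ^ s else 0 := by
      intro s _
      split_ifs with h
      · have h2 : fr^[minimalPeriod fr a * s - s] a = a := by
          have h3 : minimalPeriod fr a ∣ minimalPeriod fr a * s - s := Nat.dvd_sub (Dvd.intro s rfl) (by rw [ha2]; exact h)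
          exact isPeriodicPt_iff_minimalPeriod_dvd.2 h3
        rw [h2, hG1, mul_one]
      · have h2 : fr^[minimalPeriod fr a * s - s] a ≠ a := by
          intro h3
          apply h
          have h4 : minimalPeriod fr a ∣ minimalPeriod fr a * s - s := isPeriodicPt_iff_minimalPeriod_dvd.1 h3
          have h5 : s ≤ minimalPeriod fr a * s := Nat.le_mul_of_pos_left s (by omega)
          have h6 := (Nat.dvd_sub_iff_right h5 (Dvd.intro s rfl)).1 h4
          rwa [ha2] at h6
        rw [hG2 _ (mem_erase.2 ⟨h2, (hU a haU).2.2 _⟩), mul_zero, zero_pow (pow_ne_zero _ hp.out.ne_zero)]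
    rw [sum_congr rfl h1, ← sum_filter]
    have h2 : (range (d * M)).filter (fun s => d ∣ s) = (range M).image fun t => d * t := by
      ext s
      rw [mem_filter, mem_image, mem_range]
      constructor
      · rintro ⟨h3, t, rfl⟩
        exact ⟨t, mem_range.2 (Nat.lt_of_mul_lt_mul_left h3), rfl⟩
      · rintro ⟨t, ht, rfl⟩
        exact ⟨Nat.mul_lt_mul_of_pos_left (mem_range.1 ht) hd, Dvd.intro t rfl⟩
    rw [h2, sum_image fun s _ t _ h => Nat.eq_of_mul_eq_mul_left hd h]
    have h3 : ∀ t ∈ range M, c ^ p ^ (d * t) = c₀ ^ p ^ (d * t) * u := by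
      intro t _
      rw [hc, mul_pow, pow_per hud]
    rw [sum_congr rfl h3, ← sum_mul, ← hydef, hu, mul_div_cancel₀ _ hy]
  · rw [key w hw]
    refine sum_eq_zero fun s _ => ?_
    have h1 : fr^[minimalPeriod fr w * s - s] w ≠ a := by
      intro h
      apply hwa
      refine ⟨s, ?_⟩
      rw [← h]
      have h2 : s ≤ minimalPeriod fr w * s := Nat.le_mul_of_pos_left s (hU w hw).2.1
      rw [← iterate_add_apply, Nat.add_sub_cancel' h2]
      exact (isPeriodicPt_minimalPeriod fr w).mul_const s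
    rw [hG2 _ (mem_erase.2 ⟨h1, (hU w hw).2.2 _⟩), mul_zero, zero_pow (pow_ne_zero _ hp.out.ne_zero)]

lemma mev_mem {d : ℕ} {v : Fin (n + 1) → Om p} (hd : d ≠ 0) (hv : IsPeriodicPt fr d v) (c : Mon n δ → ZMod p) :
    ∑ ν, algebraMap (ZMod p) (Om p) (c ν) * mev v ν ∈ EE p d := by
  rw [mem_EE hd, val_iter]
  have h1 : fr^[d] v = v := hv
  rw [h1]
  refine sum_congr rfl fun ν _ => ?_
  rw [← map_pow, ZMod.pow_card_pow]

open Classical in
/-- the value at a point, as a homomorphism -/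
noncomputable def evd (d : ℕ) (v : Fin (n + 1) → Om p) : (Mon n δ → ZMod p) →+ EE p d :=
  if h : d ≠ 0 ∧ IsPeriodicPt fr d v then
    { toFun := fun c => ⟨∑ ν, algebraMap (ZMod p) (Om p) (c ν) * mev v ν, mev_mem h.1 h.2 c⟩
      map_zero' := by
        refine Subtype.ext ?_
        simp
      map_add' := fun a b => by
        refine Subtype.ext ?_
        simp [add_mul, sum_add_distrib] }
  else 0

lemma evd_coe {d : ℕ} {v : Fin (n + 1) → Om p} (hd : d ≠ 0) (hv : IsPeriodicPt fr d v) (c : Mon n δ → ZMod p) :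
    ((evd (δ := δ) d v c : EE p d) : Om p) = ∑ ν, algebraMap (ZMod p) (Om p) (c ν) * mev v ν := by
  unfold evd
  rw [dif_pos ⟨hd, hv⟩]
  rfl

lemma per_MM {d : ℕ} {v : Fin (n + 1) → Om p} (hv : v ∈ MM n p d) : IsPeriodicPt fr d v := by
  obtain ⟨_, h2, _⟩ := mem_MM.1 hv
  have := isPeriodicPt_minimalPeriod fr v
  rwa [h2] at this

/-- **the values at closed points of small total degree are arbitrary** -/
theorem jsep (J : ℕ) : JSep (evd (p := p) (n := n) (δ := δ)) (fun d => CP n p d) J (δ + 1) := by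
  classical
  intro S hS hD z
  obtain ⟨U, hU⟩ : ∃ U : Finset (Fin (n + 1) → Om p), U = (Icc 1 J).biUnion fun d => (S d).biUnion fun a => (range d).image fun s => fr^[s] a := ⟨_, rfl⟩
  have hmem : ∀ w, w ∈ U ↔ ∃ d ∈ Icc 1 J, ∃ a ∈ S d, w ∈ ob a := by
    intro w
    rw [hU, mem_biUnion]
    refine exists_congr fun d => and_congr_right fun hd => ?_
    rw [mem_biUnion]
    refine exists_congr fun a => and_congr_right fun ha => ?_
    rw [ob_image (CP_sub (hS d hd ha)), mem_coe]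
  have hUcard : U.card ≤ δ + 1 := by
    rw [hU]
    refine card_biUnion_le.trans ((sum_le_sum fun d hd => ?_).trans hD)
    refine card_biUnion_le.trans ?_
    rw [sum_congr rfl fun a ha => card_ob (CP_sub (hS d hd ha)), sum_const, smul_eq_mul, mul_comm]
  have hUprop : ∀ w ∈ U, Nrm w ∧ 0 < minimalPeriod fr w ∧ ∀ s, fr^[s] w ∈ U := by
    intro w hw
    obtain ⟨d, hd, a, ha, hwa⟩ := (hmem w).1 hw
    have h1 := ob_MM (CP_sub (hS d hd ha)) hwa
    obtain ⟨h2, h3, h4⟩ := mem_MM.1 h1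
    refine ⟨h2, by omega, fun s => (hmem _).2 ⟨d, hd, a, ha, ?_⟩⟩
    obtain ⟨r, rfl⟩ := hwa
    exact ⟨s + r, by rw [iterate_add_apply]⟩
  have hex : ∀ x : Σ d : Icc 1 J, S d, ∃ c : Mon n δ → ZMod p, ∑ ν, algebraMap (ZMod p) (Om p) (c ν) * mev (x.2 : Fin (n + 1) → Om p) ν = z x.1 x.2 ∧
      ∀ w ∈ U, w ∉ ob (x.2 : Fin (n + 1) → Om p) → ∑ ν, algebraMap (ZMod p) (Om p) (c ν) * mev w ν = 0 := by
    rintro ⟨d, a⟩
    exact exists_val (a : Fin (n + 1) → Om p) (CP_sub (hS d d.2 a.2)) U hUprop ((hmem _).2 ⟨d, d.2, a, a.2, self_ob _⟩) hUcard (z d a) (z d a).2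
  choose c hc1 hc2 using hex
  refine ⟨∑ x, c x, fun d hd t ht => ?_⟩
  rw [map_sum]
  have hd0 : d ≠ 0 := by
    rw [mem_Icc] at hd
    omega
  have htM := CP_sub (hS d hd ht)
  have hper := per_MM htM
  rw [sum_eq_single (⟨⟨d, hd⟩, ⟨t, ht⟩⟩ : Σ d : Icc 1 J, S d)]
  · refine Subtype.ext ?_
    rw [evd_coe hd0 hper]
    exact hc1 ⟨⟨d, hd⟩, ⟨t, ht⟩⟩
  · rintro ⟨⟨d', hd'⟩, ⟨t', ht'⟩⟩ _ hne
    refine Subtype.ext ?_
    rw [evd_coe hd0 hper]
    refine hc2 ⟨⟨d', hd'⟩, ⟨t', ht'⟩⟩ t ((hmem t).2 ⟨d, hd, t, ht, self_ob t⟩) fun h => ?_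
    apply hne
    have h1 : t = t' := CP_inj (hS d' hd' ht') (hS d hd ht) h
    subst h1
    have h2 : d = d' := by
      rw [← (mem_MM.1 htM).2.1, ← (mem_MM.1 (CP_sub (hS d' hd' ht'))).2.1]
    subst h2
    rfl
  · intro h
    exact absurd (mem_univ _) h

end

end Pool.Agent.W2helper48.JT
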