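import Pool.Agent.W2helper48.JT.Cnt

/-!
# The local joint moments of the traces of Frobenius of hypersurfaces
-/

set_option autoImplicit false
set_option linter.unusedSectionVars false

namespace Pool.Agent.W2helper48.JT

open Finset Function
open Q282.CL
open Q282MM (gm)
open Q285HS (Sep sm Loc1)
open Pool.Agent.Y722.HS (Mon mev)

section

variable {m p δ : ℕ} [hp : Fact p.Prime]

/-- the value at a vector -/
noncomputable def vl {n : ℕ} (c : Mon n δ → ZMod p) (v : Fin (n + 1) → Om p) : Om p := ∑ ν, algebraMap (ZMod p) (Om p) (c ν) * mev v ν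

lemma vl_fr {n : ℕ} (c : Mon n δ → ZMod p) (v : Fin (n + 1) → Om p) : vl c (fr v) = vl c v ^ p := by
  unfold vl
  have h := val_iter (fun ν => algebraMap (ZMod p) (Om p) (c ν)) 1 v
  rw [pow_one] at h
  rw [h]
  refine sum_congr rfl fun ν _ => ?_
  rw [← map_pow, ZMod.pow_card]
  rfl

lemma vl_evd {n d : ℕ} {v : Fin (n + 1) → Om p} (hv : v ∈ MM n p d) (c : Mon n δ → ZMod p) : ((evd (δ := δ) d v c : EE p d) : Om p) = vl c v :=
  evd_coe (by have := (mem_MM.1 hv).2.2; omega) (per_MM hv) c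

variable (p) in
/-- the centred indicator function of zero -/
noncomputable def psH (d : ℕ) (z : EE p d) : ℝ := (if z = 0 then 1 else 0) - 1 / sp p ^ (2 * d)

/-- the number of the points of a hypersurface over the field with `p ^ j` elements -/
noncomputable def ptH {n : ℕ} (j : ℕ) (c : Mon n δ → ZMod p) : ℕ := ((j.divisors.biUnion fun d => MM n p d).filter fun v => vl c v = 0).card

variable (p) in
/-- the normalising factors -/
noncomputable def sH (m d : ℕ) : ℝ := sp p ^ (d * m)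

lemma card_EE' (d : ℕ) (hd : d ≠ 0) : (Fintype.card (EE p d) : ℝ) = sp p ^ (2 * d) := by
  rw [card_EE d hd, ← p_pow]
  push_cast
  rfl

lemma loc_H (d : ℕ) (hd : d ≠ 0) : Loc1 (psH p d) (sp p ^ (2 * d)) (1 / sp p ^ (2 * d) * (1 - 1 / sp p ^ (2 * d))) := by
  have hb : 0 < sp p ^ (2 * d) := pow_pos (sp_pos p) _
  have hb1 : 1 ≤ sp p ^ (2 * d) := one_le_pow₀ (one_lt_sp p).le
  have hc := card_EE' (p := p) d hd
  have h1b : 1 / sp p ^ (2 * d) ≤ 1 := by
    rw [div_le_one hb]
    exact hb1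
  have h0b : 0 ≤ 1 / sp p ^ (2 * d) := by positivity
  have habs : ∀ z, |psH p d z| ≤ 1 := by
    intro z
    unfold psH
    split_ifs <;> rw [abs_le] <;> constructor <;> linarith
  have htwo : av (fun z => psH p d z ^ 2) = 1 / sp p ^ (2 * d) * (1 - 1 / sp p ^ (2 * d)) := by
    have h1 : ∀ z : EE p d, psH p d z ^ 2 = (if z = 0 then (1 - 2 / sp p ^ (2 * d)) else 0) + 1 / (sp p ^ (2 * d)) ^ 2 := by
      intro z
      unfold psH
      split_ifs
      · field_simp
        ring
      · field_simp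
        ring
    unfold av
    rw [sum_congr rfl fun w _ => h1 w, sum_add_distrib, sum_ite_eq' univ 0 (fun _ => (1 - 2 / sp p ^ (2 * d))), sum_const, card_univ, nsmul_eq_mul, hc]
    simp only [mem_univ, if_true]
    field_simp
    ring
  refine ⟨?_, htwo, fun j hj => ?_⟩
  · unfold av psH
    rw [sum_sub_distrib, sum_ite_eq' univ 0 (fun _ => (1 : ℝ)), sum_const, card_univ, nsmul_eq_mul, hc]
    simp only [mem_univ, if_true]
    field_simp
    simp
  · have h1 : |av (fun w => psH p d w ^ j)| ≤ av (fun w => psH p d w ^ 2) := by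
      unfold av
      rw [abs_div, Nat.abs_cast]
      refine div_le_div_of_nonneg_right ((abs_sum_le_sum_abs _ _).trans (sum_le_sum fun w _ => ?_)) (Nat.cast_nonneg _)
      rw [abs_pow, ← sq_abs]
      exact pow_le_pow_of_le_one (abs_nonneg _) (habs w) hj
    refine h1.trans ?_
    rw [htwo]
    nlinarith

lemma CP_le (n d : ℕ) (hd : d ≠ 0) : ((CP n p d).card : ℝ) ≤ 2 * sp p ^ (2 * n * d) := by
  refine le_trans ?_ (NN_le d hd)
  rw [NN_card]
  have h1 : (1 : ℝ) ≤ d := by exact_mod_cast (Nat.pos_of_ne_zero hd)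
  have h2 : (0 : ℝ) ≤ (CP n p d).card := Nat.cast_nonneg _
  nlinarith

lemma good_H (m J : ℕ) (hm : 1 ≤ m) : Good (m + 1) p J (psH p) (sH p m) (fun d => sp p ^ (2 * d)) (fun d => 1 / sp p ^ (2 * d) * (1 - 1 / sp p ^ (2 * d))) := by
  have hs := sp_pos p
  have hb1 : ∀ k, 1 ≤ sp p ^ k := fun k => one_le_pow₀ (one_lt_sp p).le
  have h1b : ∀ k, 1 / sp p ^ k ≤ 1 := fun k => by
    rw [div_le_one (by positivity)]
    exact hb1 k
  refine ⟨fun d hd => loc_H d (by rw [mem_Icc] at hd; omega), fun d _ => hb1 _, fun d _ => ?_, fun d _ => ?_, fun d hd => ?_, fun d hd => ?_,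
    fun d _ => hb1 _, fun d _ => ?_⟩
  · exact mul_nonneg (by positivity) (by linarith [h1b (2 * d)])
  · have h1 : 0 ≤ 1 / sp p ^ (2 * d) := by positivity
    have h2 := h1b (2 * d)
    nlinarith
  · refine (CP_le (m + 1) d (by rw [mem_Icc] at hd; omega)).trans ?_
    unfold sH
    have h1 : sp p ^ (2 * d) * (2 * sp p ^ (d * m)) ^ 2 = 4 * sp p ^ (2 * (m + 1) * d) := by
      rw [mul_pow, ← pow_mul]
      have : 2 * (m + 1) * d = 2 * d + d * m * 2 := by ring
      rw [this, pow_add]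
      ring
    rw [h1]
    have : 0 ≤ sp p ^ (2 * (m + 1) * d) := by positivity
    linarith
  · unfold sH
    refine inv_sp_le ?_
    rw [mem_Icc] at hd
    exact Nat.one_le_iff_ne_zero.2 (Nat.mul_ne_zero (by omega) (by omega))
  · unfold sH
    have : 2 * (m + 1) * d = 2 * d + d * m * 2 := by ring
    rw [this, pow_add, ← pow_mul]
    have h1 : sp p ^ (2 * d) ≠ 0 := by positivity
    have h2 : sp p ^ (d * m * 2) ≠ 0 := by positivity
    field_simp

/-- the trace -/
noncomputable def TH (m j : ℕ) (c : Mon (m + 1) δ → ZMod p) : ℝ := ((ptH j c : ℝ) - ∑ i ∈ range (m + 1), ((p : ℝ) ^ j) ^ i) / sH p m j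

lemma TH_eq (m j : ℕ) (c : Mon (m + 1) δ → ZMod p) : TH m j c = ∑ d ∈ j.divisors, XX (psH p) (sH p m) d c * (sH p m d / sH p m j) +
    (∑ d ∈ j.divisors, NN (m + 1) p d / sp p ^ (2 * d) - ∑ i ∈ range (m + 1), ((p : ℝ) ^ j) ^ i) / sH p m j := by
  have hs := sp_pos p
  have h1 : (ptH j c : ℝ) = ∑ d ∈ j.divisors, ((d : ℝ) * sm (evd (δ := δ) d) (CP (m + 1) p d) (fun _ => psH p d) c + NN (m + 1) p d / sp p ^ (2 * d)) := by
    unfold ptH
    rw [card_filter]
    push_cast
    rw [sum_div]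
    refine sum_congr rfl fun d hd => ?_
    have hd0 : d ≠ 0 := (Nat.pos_of_mem_divisors hd).ne'
    rw [sum_MM (fun v => if vl c v = 0 then (1 : ℝ) else 0) fun v => by
      rw [vl_fr]
      simp only [pow_eq_zero_iff hp.out.ne_zero]]
    rw [NN_card]
    have h2 : ∑ v ∈ CP (m + 1) p d, (if vl c v = 0 then (1 : ℝ) else 0) =
        sm (evd (δ := δ) d) (CP (m + 1) p d) (fun _ => psH p d) c + (CP (m + 1) p d).card / sp p ^ (2 * d) := by
      unfold sm psH
      rw [sum_sub_distrib, sum_const, nsmul_eq_mul]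
      have h3 : ∀ v ∈ CP (m + 1) p d, (if evd (δ := δ) d v c = 0 then (1 : ℝ) else 0) = if vl c v = 0 then (1 : ℝ) else 0 := by
        intro v hv
        have h4 := vl_evd (CP_sub hv) c
        have h5 : evd (δ := δ) d v c = 0 ↔ vl c v = 0 := by
          rw [← h4]
          exact (ZeroMemClass.coe_eq_zero).symm
        simp only [h5]
      rw [sum_congr rfl h3]
      ring
    rw [h2]
    ring
  unfold TH
  rw [h1, sum_add_distrib, add_sub_assoc, add_div]
  congr 1
  rw [Finset.sum_div]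
  refine sum_congr rfl fun d _ => ?_
  unfold XX
  have h2 : sH p m d ≠ 0 := by
    unfold sH
    positivity
  field_simp

lemma eta_sum (j : ℕ) (hj : j ≠ 0) : eta j = ∑ d ∈ j.properDivisors, if 2 * d = j then (1 : ℝ) else 0 := by
  unfold eta
  split_ifs with he
  · obtain ⟨k, hk⟩ := he
    rw [sum_eq_single k]
    · rw [if_pos (by omega)]
    · intro d _ hd
      rw [if_neg (by omega)]
    · intro h
      exfalso
      apply h
      rw [Nat.mem_properDivisors]
      exact ⟨⟨2, by omega⟩, by omega⟩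
  · symm
    refine sum_eq_zero fun d _ => ?_
    rw [if_neg]
    intro h
    exact he ⟨d, by omega⟩

lemma proper_le {j d : ℕ} (h : d ∈ j.properDivisors) : 2 * d ≤ j ∧ 1 ≤ d := by
  rw [Nat.mem_properDivisors] at h
  obtain ⟨⟨k, hk⟩, hlt⟩ := h
  rcases (by omega : k = 0 ∨ k = 1 ∨ 2 ≤ k) with h | h | h
  · subst h
    omega
  · subst h
    omega
  · constructor
    · rw [hk, mul_comm]
      exact Nat.mul_le_mul_left d h
    · rcases Nat.eq_zero_or_pos d with h0 | h0
      · subst h0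
        omega
      · exact h0

/-- the constant term -/
lemma const_H (m j : ℕ) (hm : 1 ≤ m) (hj : j ≠ 0) :
    |(∑ d ∈ j.divisors, NN (m + 1) p d / sp p ^ (2 * d) - ∑ i ∈ range (m + 1), ((p : ℝ) ^ j) ^ i) / sH p m j - eta j| ≤
      (1 + 2 * j + j * (2 + 2 * j)) * (1 / sp p) := by
  have hs := sp_pos p
  have hsj : 0 < sH p m j := by
    unfold sH
    positivity
  have hε0 : 0 < 1 / sp p := by positivity
  have hjm : 1 ≤ j * m := Nat.one_le_iff_ne_zero.2 (Nat.mul_ne_zero hj (by omega))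
  -- the decomposition
  have h1 : NN (m + 1) p j / sp p ^ (2 * j) = ∑ i ∈ range (m + 1), ((p : ℝ) ^ j) ^ i + 1 / sp p ^ (2 * j) -
      (∑ d ∈ j.properDivisors, NN (m + 1) p d) / sp p ^ (2 * j) := by
    rw [NN_sum j hj, sum_range_succ' _ (m + 1)]
    have h2 : ∀ i, ((p : ℝ) ^ j) ^ (i + 1) = ((p : ℝ) ^ j) ^ i * sp p ^ (2 * j) := fun i => by
      rw [pow_succ, p_pow j]
    rw [sum_congr rfl fun i _ => h2 i, ← sum_mul, pow_zero]
    have h3 : sp p ^ (2 * j) ≠ 0 := by positivity
    field_simp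
  have h2 : (∑ d ∈ j.divisors, NN (m + 1) p d / sp p ^ (2 * d) - ∑ i ∈ range (m + 1), ((p : ℝ) ^ j) ^ i) / sH p m j - eta j =
      1 / sp p ^ (2 * j) / sH p m j - (∑ d ∈ j.properDivisors, NN (m + 1) p d) / sp p ^ (2 * j) / sH p m j +
        ∑ d ∈ j.properDivisors, (NN (m + 1) p d / sp p ^ (2 * d) / sH p m j - if 2 * d = j then (1 : ℝ) else 0) := by
    rw [sum_sub_distrib, ← eta_sum j hj, ← Nat.cons_self_properDivisors hj, sum_cons, h1, ← Finset.sum_div]
    ring
  rw [h2]
  have e1 : |1 / sp p ^ (2 * j) / sH p m j| ≤ 1 / sp p := by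
    rw [abs_of_nonneg (by positivity), div_div]
    unfold sH
    rw [← pow_add]
    exact inv_sp_le (by omega)
  have e2 : |(∑ d ∈ j.properDivisors, NN (m + 1) p d) / sp p ^ (2 * j) / sH p m j| ≤ 2 * j * (1 / sp p) := by
    rw [abs_of_nonneg (div_nonneg (div_nonneg (sum_nonneg fun _ _ => NN_nonneg _) (by positivity)) hsj.le), div_div]
    unfold sH
    rw [← pow_add]
    have h3 := div_le_div_of_nonneg_right (proper_sum_le (n := m + 1) (p := p) j) (by positivity : 0 ≤ sp p ^ (2 * j + j * m))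
    refine h3.trans ?_
    have h4 : (j : ℝ) * (2 * sp p ^ ((m + 1) * j)) / sp p ^ (2 * j + j * m) = 2 * j * (sp p ^ ((m + 1) * j) / sp p ^ (2 * j + j * m)) := by ring
    rw [h4]
    refine mul_le_mul_of_nonneg_left (sp_div_le ?_) (by positivity)
    have h5 : (m + 1) * j = j * m + j := by ring
    omega
  have e3 : |∑ d ∈ j.properDivisors, (NN (m + 1) p d / sp p ^ (2 * d) / sH p m j - if 2 * d = j then (1 : ℝ) else 0)| ≤
      j * (2 + 2 * j) * (1 / sp p) := by
    refine (abs_sum_le_sum_abs _ _).trans ?_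
    have h3 : ∀ d ∈ j.properDivisors, |NN (m + 1) p d / sp p ^ (2 * d) / sH p m j - if 2 * d = j then (1 : ℝ) else 0| ≤ (2 + 2 * j) * (1 / sp p) := by
      intro d hd
      obtain ⟨hd2, hd1⟩ := proper_le hd
      rw [div_div]
      unfold sH
      rw [← pow_add]
      have hdj : (d : ℝ) ≤ j := by exact_mod_cast (by omega : d ≤ j)
      split_ifs with h
      · have h4 := NN_near (n := m + 1) (p := p) (by omega) d (by omega)
        have h5 : 2 * d + j * m = 2 * (m + 1) * d := by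
          rw [← h]
          ring
        rw [h5]
        refine h4.trans (mul_le_mul_of_nonneg_right (by linarith) hε0.le)
      · rw [sub_zero, abs_of_nonneg (div_nonneg (NN_nonneg _) (by positivity))]
        have h4 := div_le_div_of_nonneg_right (NN_le (n := m + 1) (p := p) d (by omega)) (by positivity : 0 ≤ sp p ^ (2 * d + j * m))
        refine h4.trans ?_
        rw [mul_div_assoc]
        have h5 : sp p ^ (2 * (m + 1) * d) / sp p ^ (2 * d + j * m) ≤ 1 / sp p := by
          refine sp_div_le ?_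
          have h6 : 2 * (m + 1) * d = 2 * d + 2 * d * m := by ring
          have h7 : (2 * d + 1) * m ≤ j * m := Nat.mul_le_mul_right m (by omega)
          have h8 : (2 * d + 1) * m = 2 * d * m + m := by ring
          omega
        have h6 : (0 : ℝ) ≤ j := Nat.cast_nonneg j
        nlinarith
    refine (sum_le_sum h3).trans ?_
    rw [sum_const, nsmul_eq_mul, mul_assoc]
    refine mul_le_mul_of_nonneg_right ?_ (by positivity)
    have h4 : j.properDivisors.card ≤ j := by
      calc j.properDivisors.card ≤ (Ico 1 j).card := card_filter_le _ _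
        _ ≤ j := by
          rw [Nat.card_Ico]
          omega
    exact_mod_cast h4
  have h3 : (1 + 2 * (j : ℝ) + j * (2 + 2 * j)) * (1 / sp p) = 1 / sp p + 2 * j * (1 / sp p) + j * (2 + 2 * j) * (1 / sp p) := by ring
  rw [h3]
  refine (abs_add_le _ _).trans (add_le_add ((abs_sub _ _).trans (add_le_add e1 e2)) e3)

/-- the trace is near the sum over the closed points of degree `j` -/
lemma near_H (m j : ℕ) (hm : 1 ≤ m) (hj : j ≠ 0) (c : Mon (m + 1) δ → ZMod p) :
    |TH m j c - XX (psH p) (sH p m) j c - eta j| ≤ (1 + 2 * j + j * (2 + 2 * j) + j) * (1 / sp p) * Real.sqrt (VV (XX (psH p) (sH p m)) j c) := by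
  have hs := sp_pos p
  have hε0 : 0 < 1 / sp p := by positivity
  have hV := one_le_VV (XX (δ := δ) (n := m + 1) (psH p) (sH p m)) j c
  have hsV : 1 ≤ Real.sqrt (VV (XX (psH p) (sH p m)) j c) := Real.one_le_sqrt.2 hV
  have hjs : sH p m j / sH p m j = 1 := by
    refine div_self ?_
    unfold sH
    positivity
  have h1 : TH m j c - XX (psH p) (sH p m) j c - eta j = ∑ d ∈ j.properDivisors, XX (psH p) (sH p m) d c * (sH p m d / sH p m j) +
      ((∑ d ∈ j.divisors, NN (m + 1) p d / sp p ^ (2 * d) - ∑ i ∈ range (m + 1), ((p : ℝ) ^ j) ^ i) / sH p m j - eta j) := by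
    rw [TH_eq, ← Nat.cons_self_properDivisors hj, sum_cons, hjs]
    ring
  rw [h1]
  have e1 := const_H (p := p) m j hm hj
  have e2 : |∑ d ∈ j.properDivisors, XX (psH p) (sH p m) d c * (sH p m d / sH p m j)| ≤
      j * (1 / sp p) * Real.sqrt (VV (XX (psH p) (sH p m)) j c) := by
    refine (abs_sum_le_sum_abs _ _).trans ?_
    have h2 : ∀ d ∈ j.properDivisors, |XX (psH p) (sH p m) d c * (sH p m d / sH p m j)| ≤ (1 / sp p) * Real.sqrt (VV (XX (psH p) (sH p m)) j c) := by
      intro d hd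
      obtain ⟨hd2, hd1⟩ := proper_le hd
      have h3 : sH p m d / sH p m j ≤ 1 / sp p := by
        unfold sH
        refine sp_div_le ?_
        have h7 : (d + 1) * m ≤ j * m := Nat.mul_le_mul_right m (by omega)
        have h8 : (d + 1) * m = d * m + m := by ring
        omega
      have h4 : 0 ≤ sH p m d / sH p m j := by
        unfold sH
        positivity
      rw [abs_mul, abs_of_nonneg h4, mul_comm]
      refine mul_le_mul h3 ?_ (abs_nonneg _) hε0.le
      refine Real.abs_le_sqrt ?_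
      unfold VV
      have h5 : XX (psH p) (sH p m) d c ^ 2 ≤ ∑ d ∈ Icc 1 j, XX (psH p) (sH p m) d c ^ 2 :=
        single_le_sum (f := fun d => XX (psH p) (sH p m) d c ^ 2) (fun _ _ => sq_nonneg _) (mem_Icc.2 ⟨hd1, by omega⟩)
      linarith
    refine (sum_le_sum h2).trans ?_
    rw [sum_const, nsmul_eq_mul, mul_assoc]
    refine mul_le_mul_of_nonneg_right ?_ (by positivity)
    have h4 : j.properDivisors.card ≤ j := by
      calc j.properDivisors.card ≤ (Ico 1 j).card := card_filter_le _ _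
        _ ≤ j := by
          rw [Nat.card_Ico]
          omega
    exact_mod_cast h4
  have h3 : 0 ≤ (1 + 2 * (j : ℝ) + j * (2 + 2 * j)) * (1 / sp p) := by positivity
  have h4 := mul_le_mul_of_nonneg_left hsV h3
  have h5 : (1 + 2 * (j : ℝ) + j * (2 + 2 * j) + j) * (1 / sp p) * Real.sqrt (VV (XX (psH p) (sH p m)) j c) =
      (1 + 2 * (j : ℝ) + j * (2 + 2 * j)) * (1 / sp p) * Real.sqrt (VV (XX (psH p) (sH p m)) j c) +
        j * (1 / sp p) * Real.sqrt (VV (XX (psH p) (sH p m)) j c) := by ring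
  rw [h5]
  refine (abs_add_le _ _).trans ?_
  linarith

end

/-- **the local joint moments of hypersurfaces** -/
theorem local_H (m δ : ℕ) (hm : 1 ≤ m) {r : ℕ} (J : ℕ) (f : Fin r → ℕ) (hf : ∀ i, f i ∈ Icc 1 J) (hfD : 2 * ∑ i, f i ≤ δ + 1) :
    ∃ C : ℝ, 1 ≤ C ∧ ∀ (p : ℕ) [Fact p.Prime], |av (fun c : Mon (m + 1) δ → ZMod p => ∏ i, TH m (f i) c) - jm J f| ≤ C * (1 / sp p) ∧
      av (fun c : Mon (m + 1) δ → ZMod p => (∏ i, TH m (f i) c) ^ 2) ≤ C := by
  obtain ⟨C₀, hC₀1, hC₀⟩ := joint (m + 1) δ J (by omega) f hf hfD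
  obtain ⟨C₁, hC₁⟩ : ∃ C₁ : ℝ, C₁ = C₀ + (1 + 2 * J + J * (2 + 2 * J) + J) := ⟨_, rfl⟩
  have hJ0 : (0 : ℝ) ≤ J := Nat.cast_nonneg J
  have hC₁1 : 1 ≤ C₁ := by
    rw [hC₁]
    nlinarith
  obtain ⟨C, hC1, hC⟩ := loc_abs (J := J) (D := δ + 1) f hf hfD C₁ hC₁1
  refine ⟨C, hC1, fun p hp => ?_⟩
  have hs := sp_pos p
  have hε0 : 0 < 1 / sp p := by positivity
  have hε1 : 1 / sp p ≤ 1 := by
    rw [div_le_one hs]
    exact (one_lt_sp p).le
  obtain ⟨h1, h2⟩ := hC₀ p (psH p) (sH p m) _ _ (good_H m J hm)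
  have hCC : C₀ ≤ C₁ := by
    rw [hC₁]
    nlinarith
  refine hC (Mon (m + 1) δ → ZMod p) (XX (psH p) (sH p m)) (fun j c => TH m j c) (fun _ _ => 0) (1 / sp p) hε0 hε1
    (h1.trans (mul_le_mul_of_nonneg_right hCC hε0.le)) (fun k hk => (h2 k hk).trans hCC) (fun j hj c => ?_) (fun j hj => ⟨fun c => ⟨le_rfl, by linarith⟩, ?_⟩)
  · rw [add_zero]
    rw [mem_Icc] at hj
    refine (near_H m j hm (by omega) c).trans ?_
    refine mul_le_mul_of_nonneg_right (mul_le_mul_of_nonneg_right ?_ hε0.le) (Real.sqrt_nonneg _)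
    have h3 : (j : ℝ) ≤ J := by exact_mod_cast hj.2
    have h4 : (0 : ℝ) ≤ j := Nat.cast_nonneg j
    rw [hC₁]
    nlinarith
  · have : (fun _ : Mon (m + 1) δ → ZMod p => (0 : ℝ) ^ 2) = fun _ => 0 := by
      funext c
      norm_num
    rw [this, av_const]
    positivity

end Pool.Agent.W2helper48.JT
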