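import Pool.Agent.W2helper48.JT.Glb
import Pool.Agent.W2helper48.JT.Hyp
import Pool.Agent.Y722.HS.Bad

/-!
# All joint moments at the same time; hypersurfaces
-/

set_option autoImplicit false
set_option linter.unusedSectionVars false

namespace Pool.Agent.W2helper48.JT

open Finset Filter Function
open Q282.CL
open Q282.GK (kbox)
open Q285HS (FewBad lln IV)
open Pool.Agent.Y722.HS (Mon mev form)

section

variable {κ : Type} [Fintype κ] [DecidableEq κ]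

/-- **all joint moments** -/
theorem final (T : ℕ → (p : ℕ) → (κ → ZMod p) → ℝ) (μ : ∀ r : ℕ, (Fin r → ℕ) → ℝ) (D β : ℕ) (K : ℝ) (hK : 1 ≤ K)
    (hbd : ∀ j ∈ Icc 1 D, ∀ p : ℕ, p.Prime → ∀ c, |T j p c| ≤ K * (p : ℝ) ^ β)
    (hloc : ∀ (r : ℕ) (f : Fin r → ℕ), (∀ i, f i ∈ Icc 1 D) → 2 * ∑ i, f i ≤ D → ∃ (C : ℝ) (p₁ : ℕ), ∀ p : ℕ, p.Prime → p₁ ≤ p →
      |mn (fun p c => ∏ i, T (f i) p c) p - μ r f| ≤ C / Real.sqrt p ∧ mn (fun p c => (∏ i, T (f i) p c) ^ 2) p ≤ C)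
    (Bad : (p : ℕ) → Set (κ → ZMod p)) (p₀ : ℕ) (C₀ : ℝ) (hBad : FewBad Bad p₀ C₀) (ε : ℝ) (hε : 0 < ε) (hε1 : ε ≤ 1) :
    ∃ κ₀ : ℝ, 0 < κ₀ ∧ ∃ C : ℝ, 1 ≤ C ∧ ∀ (w : ℕ → ℝ), (∀ p, |w p| ≤ 1) → ∀ (N : κ → ℤ) (L : κ → ℕ) (T' : ℝ), 0 < T' → (∀ i, T' ≤ L i) →
      ∀ X₀ : ℕ, 1 ≤ X₀ → ∃ E : Finset (κ → ℤ), E ⊆ kbox N L ∧ (E.card : ℝ) ≤ C * (X₀ : ℝ) ^ (-(ε / 2)) * ∏ i, (L i : ℝ) ∧
      ∀ t ∈ kbox N L, t ∉ E → ∀ Y Y' : ℕ, Y ≤ Y' → X₀ ≤ Y' → (Y' : ℝ) ≤ T' ^ κ₀ → ∀ (r : ℕ) (f : Fin r → ℕ), (∀ i, f i ∈ Icc 1 D) →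
        2 * ∑ i, f i ≤ D →
        |∑ p ∈ WW Bad Y Y' t, w p * (∏ i, T (f i) p (fun y => (t y : ZMod p)) - μ r f)| ≤ C * (Y' : ℝ) ^ (1 / 2 + ε / 2) := by
  classical
  obtain ⟨valid, hvalid⟩ : ∃ v : (Σ r : Fin (D + 1), (Fin r → Fin (D + 1))) → Prop,
      ∀ a, v a ↔ (∀ i, ((a.2 i : ℕ)) ∈ Icc 1 D) ∧ 2 * ∑ i, (a.2 i : ℕ) ≤ D := ⟨_, fun _ => Iff.rfl⟩
  obtain ⟨κ₀, hκ₀, C, hC, h⟩ := glb (I := Σ r : Fin (D + 1), (Fin r → Fin (D + 1)))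
    (fun a p c => if valid a then ∏ i, T (a.2 i) p c else 0) (fun a => if valid a then μ a.1 (fun i => (a.2 i : ℕ)) else 0) (fun a => by
      by_cases ha : valid a
      · simp only [if_pos ha]
        obtain ⟨h1, h2⟩ := (hvalid a).1 ha
        obtain ⟨C, p₁, h3⟩ := hloc a.1 (fun i => (a.2 i : ℕ)) h1 h2
        refine ⟨β * a.1, p₁, |C| + K ^ (a.1 : ℕ), ⟨?_, fun p hp c => ?_, fun p hp hpp => ?_, fun p hp hpp => ?_⟩⟩
        · have : 1 ≤ K ^ (a.1 : ℕ) := one_le_pow₀ hK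
          linarith [abs_nonneg C]
        · rw [abs_prod]
          have h4 : ∏ i : Fin a.1, |T (a.2 i) p c| ≤ ∏ _i : Fin a.1, (K * (p : ℝ) ^ β) :=
            prod_le_prod (fun _ _ => abs_nonneg _) fun i _ => hbd _ (h1 i) p hp c
          refine h4.trans ?_
          rw [prod_const, card_univ, Fintype.card_fin, mul_pow, ← pow_mul]
          refine mul_le_mul_of_nonneg_right ?_ (by positivity)
          linarith [abs_nonneg C]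
        · refine ((h3 p hp hpp).1).trans (div_le_div_of_nonneg_right ?_ (Real.sqrt_nonneg _))
          have : 0 ≤ K ^ (a.1 : ℕ) := by positivity
          linarith [le_abs_self C]
        · refine ((h3 p hp hpp).2).trans ?_
          have : 0 ≤ K ^ (a.1 : ℕ) := by positivity
          linarith [le_abs_self C]
      · simp only [if_neg ha]
        refine ⟨0, 0, 1, ⟨le_rfl, fun p _ c => by simp, fun p hp _ => ?_, fun p hp _ => ?_⟩⟩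
        · have : Fact p.Prime := ⟨hp⟩
          rw [mn_eq, av_const, sub_self, abs_zero]
          positivity
        · have : Fact p.Prime := ⟨hp⟩
          rw [mn_eq (fun (p : ℕ) (c : κ → ZMod p) => (0 : ℝ) ^ 2)]
          simp only [ne_eq, OfNat.ofNat_ne_zero, not_false_eq_true, zero_pow]
          rw [av_const]
          exact zero_le_one) Bad p₀ C₀ hBad ε hε hε1
  refine ⟨κ₀, hκ₀, C, hC, fun w hw N L T' hT hTL X₀ hX₀ => ?_⟩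
  obtain ⟨E, hE1, hE2, hE3⟩ := h w hw N L T' hT hTL X₀ hX₀
  refine ⟨E, hE1, hE2, fun t ht hnt Y Y' hYY hY hYT r f hf hfD => ?_⟩
  have hr : r ≤ D := by
    have h1 : ∑ _i : Fin r, 1 ≤ ∑ i, f i := sum_le_sum fun i _ => (mem_Icc.1 (hf i)).1
    rw [sum_const, card_univ, Fintype.card_fin, smul_eq_mul, mul_one] at h1
    omega
  have h1 := hE3 t ht hnt Y Y' hYY hY hYT ⟨⟨r, Nat.lt_succ_of_le hr⟩, fun i => ⟨f i, Nat.lt_succ_of_le (mem_Icc.1 (hf i)).2⟩⟩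
  have hv : valid ⟨⟨r, Nat.lt_succ_of_le hr⟩, fun i => ⟨f i, Nat.lt_succ_of_le (mem_Icc.1 (hf i)).2⟩⟩ := (hvalid _).2 ⟨hf, hfD⟩
  simp only [if_pos hv] at h1
  exact h1

end

/-! ### hypersurfaces -/

/-- the trace for all `p` -/
noncomputable def trH (m δ j p : ℕ) (c : Mon (m + 1) δ → ZMod p) : ℝ :=
  open Classical in
  if h : p.Prime then
    haveI : Fact p.Prime := ⟨h⟩
    TH m j c
  else 0

lemma trH_eq (m δ j p : ℕ) [hp : Fact p.Prime] (c : Mon (m + 1) δ → ZMod p) : trH m δ j p c = TH m j c := by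
  unfold trH
  rw [dif_pos hp.out]

lemma trH_abs (m δ D : ℕ) (j : ℕ) (hj : j ∈ Icc 1 D) (p : ℕ) (hp : p.Prime) (c : Mon (m + 1) δ → ZMod p) :
    |trH m δ j p c| ≤ 4 * (p : ℝ) ^ (D * (m + 1)) := by
  have : Fact p.Prime := ⟨hp⟩
  rw [mem_Icc] at hj
  have hp1 : (1 : ℝ) ≤ p := by exact_mod_cast hp.one_lt.le
  rw [trH_eq]
  have hjne : j ≠ 0 := by omega
  have hb1 : 1 ≤ sH p m j := one_le_pow₀ (one_lt_sp p).le
  unfold TH
  rw [abs_div, abs_of_pos (by linarith : 0 < sH p m j)]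
  refine (div_le_self (abs_nonneg _) hb1).trans ?_
  refine (abs_sub _ _).trans ?_
  have h1 : (ptH j c : ℝ) ≤ 2 * (p : ℝ) ^ (D * (m + 1)) := by
    have h2 : (ptH j c : ℝ) ≤ ∑ i ∈ range (m + 1 + 1), ((p : ℝ) ^ j) ^ i := by
      have h3 : ptH j c ≤ ∑ i ∈ range (m + 1 + 1), (p ^ j) ^ i := by
        rw [← card_div (n := m + 1) (p := p) j hjne]
        unfold ptH
        refine (card_filter_le _ _).trans ?_
        exact card_biUnion_le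
      exact_mod_cast h3
    refine h2.trans ?_
    have h3 := geo_le ((p : ℝ) ^ j) (two_le_pj j hjne) (m + 1)
    rw [sum_range_succ]
    have h4 : ((p : ℝ) ^ j) ^ (m + 1) ≤ (p : ℝ) ^ (D * (m + 1)) := by
      rw [← pow_mul]
      exact pow_le_pow_right₀ hp1 (Nat.mul_le_mul_right _ hj.2)
    linarith
  have h2 : |∑ i ∈ range (m + 1), ((p : ℝ) ^ j) ^ i| ≤ 2 * (p : ℝ) ^ (D * (m + 1)) := by
    rw [abs_of_nonneg (sum_nonneg fun _ _ => by positivity)]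
    have h3 := geo_le ((p : ℝ) ^ j) (two_le_pj j hjne) (m + 1)
    have h4 : ((p : ℝ) ^ j) ^ (m + 1) ≤ (p : ℝ) ^ (D * (m + 1)) := by
      rw [← pow_mul]
      exact pow_le_pow_right₀ hp1 (Nat.mul_le_mul_right _ hj.2)
    have h5 : 0 ≤ (p : ℝ) ^ (D * (m + 1)) := by positivity
    linarith
  rw [abs_of_nonneg (Nat.cast_nonneg (α := ℝ) (ptH j c))]
  linarith

/-- the singular forms -/
def BadH (n δ : ℕ) (p : ℕ) : Set (Mon n δ → ZMod p) :=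
  {u | ¬ ∀ _ : Fact p.Prime, Pool.Agent.Y722.HS.IsSmooth (MvPolynomial.map (algebraMap (ZMod p) (AlgebraicClosure (ZMod p))) (form u))}

lemma fewBadH (n δ : ℕ) (hδ : 1 ≤ δ) : FewBad (BadH n δ) (δ + 1) (Pool.Agent.Y722.HS.Delta n δ).totalDegree := by
  intro p hp hpp
  have : Fact p.Prime := ⟨hp⟩
  have hp0 : (0 : ℝ) < p := by exact_mod_cast hp.pos
  have h1 := Pool.Agent.Y722.HS.card_bad n δ p (fun h => by
    have := Nat.le_of_dvd (by omega) h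
    omega)
  have h2 : (BadH n δ p).ncard ≤ Nat.card {c : Mon n δ → ZMod p // Pool.Agent.Y722.HS.IsBad p c} := by
    have h3 : Nat.card {c : Mon n δ → ZMod p // Pool.Agent.Y722.HS.IsBad p c} = ({c | Pool.Agent.Y722.HS.IsBad p c} : Set (Mon n δ → ZMod p)).ncard := rfl
    rw [h3]
    refine Set.ncard_le_ncard ?_ (Set.toFinite _)
    intro u hu
    by_contra hnb
    exact hu fun _ => Pool.Agent.Y722.HS.isSmooth_of_not_isBad p hδ u hnb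
  have h3 : ((BadH n δ p).ncard : ℝ) ≤ (Nat.card {c : Mon n δ → ZMod p // Pool.Agent.Y722.HS.IsBad p c} : ℝ) := by exact_mod_cast h2
  rw [div_mul_eq_mul_div, le_div_iff₀ hp0]
  exact le_trans (mul_le_mul_of_nonneg_right h3 hp0.le) h1

/-- **hypersurfaces**: for a sign `s = 1` or `s = -1` -/
theorem final_H (m δ : ℕ) (hm : 1 ≤ m) (hδ : 1 ≤ δ) (s : ℝ) (hs : |s| = 1) (ε : ℝ) (hε : 0 < ε) (hε1 : ε ≤ 1) :
    ∃ κ₀ : ℝ, 0 < κ₀ ∧ ∃ C : ℝ, 1 ≤ C ∧ ∀ (w : ℕ → ℝ), (∀ p, |w p| ≤ 1) → ∀ (N : Mon (m + 1) δ → ℤ) (L : Mon (m + 1) δ → ℕ) (T' : ℝ), 0 < T' →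
      (∀ i, T' ≤ L i) →
      ∀ X₀ : ℕ, 1 ≤ X₀ → ∃ E : Finset (Mon (m + 1) δ → ℤ), E ⊆ kbox N L ∧ (E.card : ℝ) ≤ C * (X₀ : ℝ) ^ (-(ε / 2)) * ∏ i, (L i : ℝ) ∧
      ∀ t ∈ kbox N L, t ∉ E → ∀ Y Y' : ℕ, Y ≤ Y' → X₀ ≤ Y' → (Y' : ℝ) ≤ T' ^ κ₀ → ∀ (r : ℕ) (f : Fin r → ℕ), (∀ i, f i ∈ Icc 1 (δ + 1)) →
        2 * ∑ i, f i ≤ δ + 1 →
        |∑ p ∈ WW (BadH (m + 1) δ) Y Y' t, w p * (∏ i, (s * trH m δ (f i) p (fun y => (t y : ZMod p))) - s ^ r * jm (δ + 1) f)| ≤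
          C * (Y' : ℝ) ^ (1 / 2 + ε / 2) := by
  have hsr : ∀ r : ℕ, |s ^ r| = 1 := fun r => by rw [abs_pow, hs, one_pow]
  have hs2 : ∀ r : ℕ, (s ^ r) ^ 2 = 1 := fun r => by rw [← sq_abs, hsr, one_pow]
  refine final (fun j p c => s * trH m δ j p c) (fun r f => s ^ r * jm (δ + 1) f) (δ + 1) ((δ + 1) * (m + 1)) 4 (by norm_num)
    (fun j hj p hp c => ?_) (fun r f hf hfD => ?_) (BadH (m + 1) δ) _ _ (fewBadH (m + 1) δ hδ) ε hε hε1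
  · rw [abs_mul, hs, one_mul]
    exact trH_abs m δ (δ + 1) j hj p hp c
  · obtain ⟨C, _, hC⟩ := local_H m δ hm (δ + 1) f hf hfD
    refine ⟨C, 0, fun p hp _ => ?_⟩
    have : Fact p.Prime := ⟨hp⟩
    obtain ⟨h1, h2⟩ := hC p
    have h3 : ∀ c : Mon (m + 1) δ → ZMod p, ∏ i, (s * trH m δ (f i) p c) = s ^ r * ∏ i, TH m (f i) c := by
      intro c
      rw [prod_mul_distrib, prod_const, card_univ, Fintype.card_fin]
      congr 1
      exact prod_congr rfl fun i _ => trH_eq m δ (f i) p c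
    constructor
    · rw [mn_eq (fun (p : ℕ) (c : Mon (m + 1) δ → ZMod p) => ∏ i, (s * trH m δ (f i) p c))]
      simp only [h3]
      rw [av_mul, ← mul_sub, abs_mul, hsr, one_mul]
      rwa [mul_one_div] at h1
    · rw [mn_eq (fun (p : ℕ) (c : Mon (m + 1) δ → ZMod p) => (∏ i, (s * trH m δ (f i) p c)) ^ 2)]
      simp only [h3, mul_pow, hs2, one_mul]
      exact h2

end Pool.Agent.W2helper48.JT
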