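import Pool.Agent.Y722.HS.Form

/-!
# Points of projective space over the finite fields of characteristic `p`, the Frobenius map, closed points
-/

set_option autoImplicit false
set_option linter.unusedSectionVars false

namespace Pool.Agent.W2helper48.JT

open Finset Function

section

variable (p : ℕ) [hp : Fact p.Prime]

/-- the algebraic closure -/
abbrev Om : Type := AlgebraicClosure (ZMod p)

noncomputable instance : DecidableEq (Om p) := Classical.decEq _

/-- the field with `p ^ j` elements as a subgroup of the algebraic closure (`0` for `j = 0`) -/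
def EE (j : ℕ) : AddSubgroup (Om p) where
  carrier := {x | x ^ p ^ j = x ∧ (j = 0 → x = 0)}
  zero_mem' := ⟨zero_pow (pow_ne_zero _ hp.out.ne_zero), fun _ => rfl⟩
  add_mem' := by
    intro a b ha hb
    refine ⟨?_, fun h => by rw [ha.2 h, hb.2 h, add_zero]⟩
    rw [add_pow_char_pow, ha.1, hb.1]
  neg_mem' := by
    intro a ha
    refine ⟨?_, fun h => by rw [ha.2 h, neg_zero]⟩
    have h1 : (-a + a) ^ p ^ j = (-a) ^ p ^ j + a ^ p ^ j := add_pow_char_pow _ _ _ _
    rw [neg_add_cancel, zero_pow (pow_ne_zero _ hp.out.ne_zero), ha.1] at h1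
    exact eq_neg_of_add_eq_zero_left h1.symm

variable {p}

lemma mem_EE {j : ℕ} (hj : j ≠ 0) {x : Om p} : x ∈ EE p j ↔ x ^ p ^ j = x :=
  ⟨fun h => h.1, fun h => ⟨h, fun h0 => absurd h0 hj⟩⟩

variable (p)

/-- an embedding of the field with `p ^ j` elements -/
noncomputable def sg (j : ℕ) : GaloisField p j →ₐ[ZMod p] Om p := IsAlgClosed.lift

variable {p}

lemma card_GF (j : ℕ) (hj : j ≠ 0) : Nat.card (GaloisField p j) = p ^ j := GaloisField.card p j hj

lemma mem_range_sg (j : ℕ) (hj : j ≠ 0) (x : Om p) : (∃ y, sg p j y = x) ↔ x ∈ EE p j := by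
  classical
  have : Fintype (GaloisField p j) := Fintype.ofFinite _
  have hc : Fintype.card (GaloisField p j) = p ^ j := by
    rw [← Nat.card_eq_fintype_card, card_GF j hj]
  have hinj : Injective (sg p j) := (sg p j).toRingHom.injective
  have h1 : ∀ y, sg p j y ^ p ^ j = sg p j y := by
    intro y
    rw [← map_pow]
    congr 1
    have := FiniteField.pow_card y
    rwa [hc] at this
  rw [mem_EE hj]
  constructor
  · rintro ⟨y, rfl⟩
    exact h1 y
  · intro hx
    -- the roots of X ^ q - X
    obtain ⟨P, hP⟩ : ∃ P : Polynomial (Om p), P = Polynomial.X ^ p ^ j - Polynomial.X := ⟨_, rfl⟩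
    have hdeg : P.natDegree = p ^ j := by
      rw [hP]
      exact FiniteField.X_pow_card_sub_X_natDegree_eq _ (Nat.one_lt_pow hj hp.out.one_lt)
    have hP0 : P ≠ 0 := by
      intro h
      rw [h, Polynomial.natDegree_zero] at hdeg
      exact (pow_pos hp.out.pos j).ne hdeg
    have h2 : univ.image (sg p j) ⊆ P.roots.toFinset := by
      intro z hz
      rw [mem_image] at hz
      obtain ⟨y, _, rfl⟩ := hz
      rw [Multiset.mem_toFinset, Polynomial.mem_roots hP0, Polynomial.IsRoot.def, hP]
      have := h1 y
      simp [this]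
    have h3 : P.roots.toFinset.card ≤ (univ.image (sg p j)).card := by
      rw [card_image_of_injective _ hinj, card_univ, hc, ← hdeg]
      exact (Multiset.toFinset_card_le _).trans (Polynomial.card_roots' P)
    have h4 := eq_of_subset_of_card_le h2 h3
    have h5 : x ∈ P.roots.toFinset := by
      rw [Multiset.mem_toFinset, Polynomial.mem_roots hP0, Polynomial.IsRoot.def, hP]
      simp [hx]
    rw [← h4, mem_image] at h5
    obtain ⟨y, _, hy⟩ := h5
    exact ⟨y, hy⟩

/-- the field with `p ^ j` elements and its image -/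
noncomputable def eqE (j : ℕ) (hj : j ≠ 0) : GaloisField p j ≃ EE p j :=
  Equiv.ofBijective (fun y => ⟨sg p j y, (mem_range_sg j hj _).1 ⟨y, rfl⟩⟩) (by
    constructor
    · intro a b h
      have h1 : sg p j a = sg p j b := congrArg Subtype.val h
      exact (sg p j).toRingHom.injective h1
    · intro x
      obtain ⟨y, hy⟩ := (mem_range_sg j hj x.1).2 x.2
      exact ⟨y, Subtype.ext hy⟩)

lemma eqE_coe (j : ℕ) (hj : j ≠ 0) (y : GaloisField p j) : ((eqE j hj y : EE p j) : Om p) = sg p j y := rfl

instance finE (j : ℕ) : Finite (EE p j) := by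
  rcases Nat.eq_zero_or_pos j with rfl | hj
  · have : Subsingleton (EE p 0) := ⟨fun a b => Subtype.ext ((a.2.2 rfl).trans (b.2.2 rfl).symm)⟩
    infer_instance
  · exact Finite.of_equiv _ (eqE j hj.ne')

noncomputable instance (j : ℕ) : Fintype (EE p j) := Fintype.ofFinite _

noncomputable instance (j : ℕ) : DecidableEq (EE p j) := Classical.decEq _

lemma card_EE (j : ℕ) (hj : j ≠ 0) : Fintype.card (EE p j) = p ^ j := by
  rw [← card_GF (p := p) j hj, ← Nat.card_eq_fintype_card]
  exact (Nat.card_congr (eqE j hj)).symm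

end

/-! ### points -/

section

variable {p : ℕ} [hp : Fact p.Prime] {n : ℕ}

/-- the first nonzero coordinate is `1` -/
def Nrm {R : Type} [Zero R] [One R] {n : ℕ} (v : Fin (n + 1) → R) : Prop := ∃ i, v i = 1 ∧ ∀ k < i, v k = 0

/-- the Frobenius map on vectors -/
noncomputable def fr (v : Fin (n + 1) → Om p) : Fin (n + 1) → Om p := fun i => v i ^ p

lemma fr_iter (s : ℕ) (v : Fin (n + 1) → Om p) : fr^[s] v = fun i => v i ^ p ^ s := by
  induction s with
  | zero => simp
  | succ s ih =>
    rw [iterate_succ_apply', ih]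
    funext i
    show (v i ^ p ^ s) ^ p = _
    rw [← pow_mul, ← pow_succ]

lemma nrm_fr {v : Fin (n + 1) → Om p} (h : Nrm v) : Nrm (fr v) := by
  obtain ⟨i, h1, h2⟩ := h
  refine ⟨i, ?_, fun k hk => ?_⟩
  · show v i ^ p = 1
    rw [h1, one_pow]
  · show v k ^ p = 0
    rw [h2 k hk, zero_pow hp.out.ne_zero]

lemma nrm_iter {v : Fin (n + 1) → Om p} (h : Nrm v) (s : ℕ) : Nrm (fr^[s] v) := by
  induction s with
  | zero => exact h
  | succ s ih =>
    rw [iterate_succ_apply']
    exact nrm_fr ih

/-- the points over the field with `p ^ j` elements -/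
def PS (n p j : ℕ) [Fact p.Prime] : Set (Fin (n + 1) → Om p) := {v | Nrm v ∧ IsPeriodicPt fr j v}

lemma per_iff {j : ℕ} (hj : j ≠ 0) {v : Fin (n + 1) → Om p} : IsPeriodicPt fr j v ↔ ∀ i, v i ∈ EE p j := by
  unfold IsPeriodicPt IsFixedPt
  rw [fr_iter]
  constructor
  · intro h i
    rw [mem_EE hj]
    exact congrFun h i
  · intro h
    funext i
    exact (mem_EE hj).1 (h i)

lemma finite_vec (j : ℕ) : {w : Fin (n + 1) → Om p | ∀ i, w i ∈ EE p j}.Finite :=
  Set.Finite.pi' (t := fun _ : Fin (n + 1) => {x : Om p | x ∈ EE p j}) fun _ => Set.finite_coe_iff.1 (finE (p := p) j)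

lemma finite_PS (j : ℕ) (hj : j ≠ 0) : (PS n p j).Finite := by
  exact (finite_vec j).subset fun v hv => (per_iff hj).1 hv.2

/-- the number of the points -/
lemma card_PS (j : ℕ) (hj : j ≠ 0) : (PS n p j).ncard = ∑ i ∈ range (n + 1), (p ^ j) ^ i := by
  induction n with
  | zero =>
    have : PS 0 p j = {fun _ => 1} := by
      ext v
      rw [Set.mem_singleton_iff]
      constructor
      · rintro ⟨⟨i, h1, _⟩, _⟩
        funext k
        rw [← h1]
        congr 1
        exact Fin.ext (by omega)
      · rintro rfl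
        refine ⟨⟨0, rfl, fun k hk => absurd hk (Nat.not_lt_zero _)⟩, ?_⟩
        rw [per_iff hj]
        intro i
        rw [mem_EE hj, one_pow]
    rw [this, Set.ncard_singleton]
    simp
  | succ n ih =>
    -- the first coordinate is `1` or `0`
    have h1 : PS (n + 1) p j = (fun w : Fin (n + 1) → Om p => (Fin.cons 1 w : Fin (n + 2) → Om p)) '' {w | ∀ i, w i ∈ EE p j} ∪
        (fun w : Fin (n + 1) → Om p => (Fin.cons 0 w : Fin (n + 2) → Om p)) '' PS n p j := by
      ext v
      simp only [Set.mem_union, Set.mem_image]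
      constructor
      · rintro ⟨⟨i, hi, hk⟩, hv⟩
        rw [per_iff hj] at hv
        refine Fin.cases ?_ ?_ i (motive := fun i => v i = 1 → (∀ k < i, v k = 0) → _) hi hk
        · intro h0 _
          refine Or.inl ⟨Fin.tail v, fun i => hv _, ?_⟩
          rw [← h0]
          exact Fin.cons_self_tail v
        · intro i hi hk
          refine Or.inr ⟨Fin.tail v, ⟨⟨i, hi, fun k hk' => hk _ (Fin.succ_lt_succ_iff.2 hk')⟩, ?_⟩, ?_⟩
          · rw [per_iff hj]
            exact fun i => hv _
          · rw [← hk 0 (Fin.succ_pos i)]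
            exact Fin.cons_self_tail v
      · rintro (⟨w, hw, rfl⟩ | ⟨w, ⟨⟨i, hi, hk⟩, hw⟩, rfl⟩)
        · refine ⟨⟨0, by simp, fun k hk => absurd hk (Nat.not_lt_zero _)⟩, ?_⟩
          rw [per_iff hj]
          intro i
          refine Fin.cases ?_ (fun i => ?_) i
          · rw [Fin.cons_zero, mem_EE hj, one_pow]
          · rw [Fin.cons_succ]
            exact hw i
        · rw [per_iff hj] at hw
          refine ⟨⟨i.succ, by simpa using hi, ?_⟩, ?_⟩
          · intro k
            refine Fin.cases ?_ (fun k => ?_) k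
            · intro _
              rw [Fin.cons_zero]
            · intro hk'
              rw [Fin.cons_succ]
              exact hk k (Fin.succ_lt_succ_iff.1 hk')
          · rw [per_iff hj]
            intro i
            refine Fin.cases ?_ (fun i => ?_) i
            · rw [Fin.cons_zero]
              exact zero_mem _
            · rw [Fin.cons_succ]
              exact hw i
    have hfin : {w : Fin (n + 1) → Om p | ∀ i, w i ∈ EE p j}.Finite := finite_vec j
    have hcons : ∀ a : Om p, Injective fun w : Fin (n + 1) → Om p => (Fin.cons a w : Fin (n + 2) → Om p) := fun a w w' h => by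
      funext i
      have := congrFun h i.succ
      simpa using this
    have hcard : {w : Fin (n + 1) → Om p | ∀ i, w i ∈ EE p j}.ncard = (p ^ j) ^ (n + 1) := by
      have h2 : {w : Fin (n + 1) → Om p | ∀ i, w i ∈ EE p j} = Set.range fun (z : Fin (n + 1) → EE p j) i => (z i : Om p) := by
        ext w
        constructor
        · intro hw
          exact ⟨fun i => ⟨w i, hw i⟩, rfl⟩
        · rintro ⟨z, rfl⟩ i
          exact (z i).2
      have h3 : Injective fun (z : Fin (n + 1) → EE p j) i => (z i : Om p) := by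
        intro a b h
        funext i
        exact Subtype.ext (congrFun h i)
      rw [h2, ← Set.image_univ, Set.ncard_image_of_injective _ h3, Set.ncard_univ, Nat.card_eq_fintype_card, Fintype.card_fun, card_EE j hj,
        Fintype.card_fin]
    have hdisj : Disjoint ((fun w : Fin (n + 1) → Om p => (Fin.cons 1 w : Fin (n + 2) → Om p)) '' {w | ∀ i, w i ∈ EE p j})
        ((fun w : Fin (n + 1) → Om p => (Fin.cons 0 w : Fin (n + 2) → Om p)) '' PS n p j) := by
      rw [Set.disjoint_left]
      rintro v ⟨w, _, rfl⟩ ⟨w', _, h⟩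
      have := congrFun h 0
      simp at this
    rw [h1, Set.ncard_union_eq hdisj (hfin.image _) ((finite_PS j hj).image _), Set.ncard_image_of_injective _ (hcons 1),
      Set.ncard_image_of_injective _ (hcons 0), ih, hcard, sum_range_succ _ (n + 1), add_comm]

end

end Pool.Agent.W2helper48.JT
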