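import Pool.Agent.W2helper48.JT.Abs

/-!
# Joint moments of independent normal variables
-/

set_option autoImplicit false
set_option linter.unusedSectionVars false

namespace Pool.Agent.W2helper48.JT

open Finset MeasureTheory ProbabilityTheory
open Q282MM (gm)
open scoped NNReal

/-- the powers are integrable -/
lemma gauss_integrable (μ : ℝ) (v : ℝ≥0) (n : ℕ) : Integrable (fun x : ℝ => x ^ n) (gaussianReal μ v) := by
  rcases Nat.eq_zero_or_pos n with h | h
  · rw [h]
    simp only [pow_zero]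
    exact integrable_const 1
  · have h1 := memLp_id_gaussianReal (μ := μ) (v := v) (n : ℝ≥0)
    have h2 := h1.integrable_norm_pow (by omega)
    rw [← integrable_norm_iff (by fun_prop)]
    refine h2.congr (ae_of_all _ fun x => ?_)
    simp

lemma gauss_odd (n : ℕ) (hn : Odd n) : ∫ x, x ^ n ∂(gaussianReal 0 1) = 0 := by
  have h1 : (gaussianReal 0 1).map (fun x : ℝ => -x) = gaussianReal 0 1 := by
    rw [gaussianReal_map_neg, neg_zero]
  have h2 : ∫ x, x ^ n ∂(gaussianReal 0 1) = ∫ x, (-x) ^ n ∂(gaussianReal 0 1) := by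
    conv_lhs => rw [← h1]
    rw [integral_map (by fun_prop) (by fun_prop)]
  have h3 : ∫ x, (-x) ^ n ∂(gaussianReal 0 1) = - ∫ x, x ^ n ∂(gaussianReal 0 1) := by
    rw [← integral_neg]
    congr 1
    funext x
    rw [hn.neg_pow]
  linarith

lemma gauss_even (n : ℕ) : ∫ x, x ^ (2 * n) ∂(gaussianReal 0 1) = (Nat.doubleFactorial (2 * n - 1) : ℝ) := by
  rw [integral_gaussianReal_eq_integral_smul one_ne_zero]
  have h1 : (fun x : ℝ => gaussianPDFReal 0 1 x • x ^ (2 * n)) =
      fun x : ℝ => (fun y : ℝ => (Real.sqrt (2 * Real.pi))⁻¹ * (y ^ ((2 * n : ℕ) : ℝ) * Real.exp (-(1 / 2) * y ^ (2 : ℝ)))) |x| := by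
    funext x
    rw [gaussianPDFReal_def]
    simp only [smul_eq_mul, NNReal.coe_one, mul_one, sub_zero]
    have e1 : |x| ^ ((2 * n : ℕ) : ℝ) = x ^ (2 * n) := by
      rw [Real.rpow_natCast, pow_mul, sq_abs, ← pow_mul]
    have e2 : |x| ^ (2 : ℝ) = x ^ 2 := by
      rw [Real.rpow_two, sq_abs]
    rw [e1, e2]
    have e3 : -x ^ 2 / 2 = -(1 / 2) * x ^ 2 := by ring
    rw [e3]
    ring
  rw [h1, integral_comp_abs (f := fun y : ℝ => (Real.sqrt (2 * Real.pi))⁻¹ * (y ^ ((2 * n : ℕ) : ℝ) * Real.exp (-(1 / 2) * y ^ (2 : ℝ)))),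
    integral_const_mul,
    integral_rpow_mul_exp_neg_mul_rpow (by norm_num : (0 : ℝ) < 2) (by
      have : (0 : ℝ) ≤ ((2 * n : ℕ) : ℝ) := by positivity
      linarith) (by norm_num : (0 : ℝ) < 1 / 2)]
  have h2 : (((2 * n : ℕ) : ℝ) + 1) / 2 = (n : ℝ) + 1 / 2 := by
    push_cast
    ring
  rw [h2, Real.Gamma_nat_add_half]
  have h3 : (1 / 2 : ℝ) ^ (-(((2 * n : ℕ) : ℝ) + 1) / 2) = 2 ^ n * Real.sqrt 2 := by
    have e1 : -(((2 * n : ℕ) : ℝ) + 1) / 2 = -((n : ℝ) + 1 / 2) := by
      push_cast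
      ring
    rw [e1, one_div, Real.inv_rpow (by norm_num), Real.rpow_neg (by norm_num), inv_inv, Real.rpow_add (by norm_num), Real.rpow_natCast,
      Real.sqrt_eq_rpow, one_div]
  rw [h3, Real.sqrt_mul (by norm_num)]
  have hs2 : Real.sqrt 2 ≠ 0 := by positivity
  have hsp : Real.sqrt Real.pi ≠ 0 := by
    have := Real.pi_pos
    positivity
  field_simp

/-- the moments of a standard normal variable -/
theorem gauss_std (n : ℕ) : ∫ x, x ^ n ∂(gaussianReal 0 1) = (gm n : ℝ) := by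
  unfold Q282MM.gm
  rcases Nat.even_or_odd n with h | h
  · rw [if_pos h]
    obtain ⟨k, hk⟩ := h
    rw [show n = 2 * k by omega]
    exact gauss_even k
  · rw [if_neg (Nat.not_even_iff_odd.2 h), Nat.cast_zero]
    exact gauss_odd n h

/-- the moments of the normal law with mean `eta j` and variance `j` -/
theorem gauss_nm (j k : ℕ) : ∫ x, x ^ k ∂(gaussianReal (eta j) (j : ℝ≥0)) = nm j k := by
  have h1 : gaussianReal (eta j) (j : ℝ≥0) = (gaussianReal 0 1).map (fun x => Real.sqrt j * x + eta j) := by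
    have e1 := gaussianReal_map_const_mul (μ := 0) (v := 1) (Real.sqrt j)
    have e2 := gaussianReal_map_add_const (μ := Real.sqrt j * 0) (v := NNReal.mk (Real.sqrt j ^ 2) (sq_nonneg _) * 1) (eta j)
    rw [← e1, Measure.map_map (by fun_prop) (by fun_prop)] at e2
    rw [Function.comp_def] at e2
    rw [e2, mul_zero, zero_add, mul_one]
    congr 1
    apply NNReal.eq
    show ((j : ℝ≥0) : ℝ) = Real.sqrt j ^ 2
    rw [Real.sq_sqrt (Nat.cast_nonneg j), NNReal.coe_natCast]
  rw [h1, integral_map (by fun_prop) (by fun_prop)]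
  have h2 : (fun x : ℝ => (Real.sqrt j * x + eta j) ^ k) = fun x => ∑ i ∈ range (k + 1), (Real.sqrt j ^ i * eta j ^ (k - i) * (k.choose i : ℝ)) * x ^ i := by
    funext x
    rw [add_pow]
    refine sum_congr rfl fun i _ => ?_
    rw [mul_pow]
    ring
  rw [h2, integral_finsetSum _ (fun i _ => (gauss_integrable 0 1 i).const_mul _)]
  unfold nm
  refine sum_congr rfl fun i _ => ?_
  rw [integral_const_mul, gauss_std]
  ring

theorem gauss_nm_neg (j k : ℕ) : ∫ x, x ^ k ∂(gaussianReal (-eta j) (j : ℝ≥0)) = (-1) ^ k * nm j k := by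
  rw [← gaussianReal_map_neg, integral_map (by fun_prop) (by fun_prop), ← gauss_nm, ← integral_const_mul]
  congr 1
  funext x
  rw [← mul_pow]
  congr 1
  ring

lemma eta_zero : eta 0 = 1 := by
  unfold eta
  rw [if_pos (by decide)]

/-- the joint moments of independent normal variables -/
theorem pi_moment {D r : ℕ} (f : Fin r → Fin (D + 1)) (hf : ∀ i, 1 ≤ (f i : ℕ)) :
    ∫ x : Fin (D + 1) → ℝ, ∏ i, x (f i) ∂(Measure.pi fun d : Fin (D + 1) => gaussianReal (eta d) ((d : ℕ) : ℝ≥0)) = jm D fun i => (f i : ℕ) := by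
  classical
  have h1 : (fun x : Fin (D + 1) → ℝ => ∏ i, x (f i)) = fun x => ∏ d : Fin (D + 1), x d ^ cnt (fun i => (f i : ℕ)) d := by
    funext x
    rw [← prod_fiberwise_of_maps_to (fun i _ => mem_univ (f i))]
    refine prod_congr rfl fun d _ => ?_
    rw [prod_congr rfl (g := fun _ => x d) fun i hi => by rw [(mem_filter.1 hi).2], prod_const]
    congr 1
    unfold cnt
    congr 1
    ext i
    rw [mem_filter, mem_filter]
    exact and_congr_right fun _ => Fin.ext_iff
  rw [h1, integral_fintype_prod_eq_prod (fun (d : Fin (D + 1)) (y : ℝ) => y ^ cnt (fun i => (f i : ℕ)) d)]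
  rw [prod_congr rfl fun (d : Fin (D + 1)) _ => gauss_nm (d : ℕ) (cnt (fun i => (f i : ℕ)) d)]
  rw [Fin.prod_univ_eq_prod_range (fun d => nm d (cnt (fun i => (f i : ℕ)) d)) (D + 1)]
  have h3 : range (D + 1) = insert 0 (Icc 1 D) := by
    ext i
    rw [mem_range, mem_insert, mem_Icc]
    omega
  rw [h3, prod_insert (by simp)]
  have h4 : cnt (fun i => (f i : ℕ)) 0 = 0 := by
    unfold cnt
    rw [card_eq_zero, filter_eq_empty_iff]
    intro i _ h
    have h' : (f i : ℕ) = 0 := h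
    have := hf i
    omega
  have h5 : nm 0 0 = 1 := by
    unfold nm
    simp [Q285HS.gm_zero]
  rw [h4, h5, one_mul]
  rfl

theorem pi_moment_neg {D r : ℕ} (f : Fin r → Fin (D + 1)) (hf : ∀ i, 1 ≤ (f i : ℕ)) :
    ∫ x : Fin (D + 1) → ℝ, ∏ i, x (f i) ∂(Measure.pi fun d : Fin (D + 1) => gaussianReal (-eta d) ((d : ℕ) : ℝ≥0)) =
      (-1) ^ r * jm D fun i => (f i : ℕ) := by
  classical
  have h1 : (fun x : Fin (D + 1) → ℝ => ∏ i, x (f i)) = fun x => ∏ d : Fin (D + 1), x d ^ cnt (fun i => (f i : ℕ)) d := by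
    funext x
    rw [← prod_fiberwise_of_maps_to (fun i _ => mem_univ (f i))]
    refine prod_congr rfl fun d _ => ?_
    rw [prod_congr rfl (g := fun _ => x d) fun i hi => by rw [(mem_filter.1 hi).2], prod_const]
    congr 1
    unfold cnt
    congr 1
    ext i
    rw [mem_filter, mem_filter]
    exact and_congr_right fun _ => Fin.ext_iff
  rw [h1, integral_fintype_prod_eq_prod (fun (d : Fin (D + 1)) (y : ℝ) => y ^ cnt (fun i => (f i : ℕ)) d)]
  rw [prod_congr rfl fun (d : Fin (D + 1)) _ => gauss_nm_neg (d : ℕ) (cnt (fun i => (f i : ℕ)) d)]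
  rw [Fin.prod_univ_eq_prod_range (fun d => (-1) ^ cnt (fun i => (f i : ℕ)) d * nm d (cnt (fun i => (f i : ℕ)) d)) (D + 1), prod_mul_distrib]
  have h3 : range (D + 1) = insert 0 (Icc 1 D) := by
    ext i
    rw [mem_range, mem_insert, mem_Icc]
    omega
  have h4 : cnt (fun i => (f i : ℕ)) 0 = 0 := by
    unfold cnt
    rw [card_eq_zero, filter_eq_empty_iff]
    intro i _ h
    have h' : (f i : ℕ) = 0 := h
    have := hf i
    omega
  have h5 : nm 0 0 = 1 := by
    unfold nm
    simp [Q285HS.gm_zero]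
  have h6 : ∏ d ∈ range (D + 1), nm d (cnt (fun i => (f i : ℕ)) d) = jm D fun i => (f i : ℕ) := by
    rw [h3, prod_insert (by simp), h4, h5, one_mul]
    rfl
  have h7 : ∏ d ∈ range (D + 1), (-1 : ℝ) ^ cnt (fun i => (f i : ℕ)) d = (-1) ^ r := by
    rw [prod_pow_eq_pow_sum]
    congr 1
    have h8 : ∀ i ∈ (univ : Finset (Fin r)), (fun i => (f i : ℕ)) i ∈ range (D + 1) := fun i _ => mem_range.2 (f i).2
    have h9 := card_eq_sum_card_fiberwise h8
    rw [card_univ, Fintype.card_fin] at h9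
    exact h9.symm
  rw [h6, h7]

end Pool.Agent.W2helper48.JT
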