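import Pool.Agent.W2helper48.JT.Gau
import Pool.Agent.Q285.HS.Fam

/-!
# From local functions to sums over primes, for almost all points of a box
-/

set_option autoImplicit false
set_option linter.unusedSectionVars false

namespace Pool.Agent.W2helper48.JT

open Finset Filter
open Q282.CL
open Q282.GK (kbox)
open Q285HS (FewBad lln IV)

variable {κ : Type} [Fintype κ] [DecidableEq κ]

/-- local functions with means near `μ` and bounded second moments -/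
structure Near1 (H : (p : ℕ) → (κ → ZMod p) → ℝ) (μ : ℝ) (β p₁ : ℕ) (K : ℝ) : Prop where
  one : 1 ≤ K
  bd : ∀ p : ℕ, p.Prime → ∀ u, |H p u| ≤ K * (p : ℝ) ^ β
  mean : ∀ p : ℕ, p.Prime → p₁ ≤ p → |mn H p - μ| ≤ K / Real.sqrt p
  sq : ∀ p : ℕ, p.Prime → p₁ ≤ p → mn (fun p c => H p c ^ 2) p ≤ K

open Classical in
/-- the centred function at the good primes -/
noncomputable def cG (H : (p : ℕ) → (κ → ZMod p) → ℝ) (μ : ℝ) (Bad : (p : ℕ) → Set (κ → ZMod p)) (p : ℕ) (c : κ → ZMod p) : ℝ :=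
  if c ∈ Bad p then 0 else H p c - μ

lemma cG_abs {H : (p : ℕ) → (κ → ZMod p) → ℝ} {μ : ℝ} {β p₁ : ℕ} {K : ℝ} (hH : Near1 H μ β p₁ K) (Bad : (p : ℕ) → Set (κ → ZMod p)) (p : ℕ)
    (hpr : p.Prime) (c : κ → ZMod p) : |cG H μ Bad p c| ≤ (K + |μ|) * (p : ℝ) ^ β := by
  have hp1 : (1 : ℝ) ≤ p := by exact_mod_cast hpr.one_lt.le
  have h0 : (1 : ℝ) ≤ (p : ℝ) ^ β := one_le_pow₀ hp1
  have hK0 : 0 ≤ K := by linarith [hH.one]
  unfold cG
  split_ifs
  · rw [abs_zero]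
    positivity
  · refine (abs_sub _ _).trans ?_
    have h1 := hH.bd p hpr c
    have h2 : |μ| ≤ |μ| * (p : ℝ) ^ β := le_mul_of_one_le_right (abs_nonneg _) h0
    nlinarith

lemma cG_mean {H : (p : ℕ) → (κ → ZMod p) → ℝ} {μ : ℝ} {β p₁ p₀ : ℕ} {K C₀ : ℝ} (hH : Near1 H μ β p₁ K) (Bad : (p : ℕ) → Set (κ → ZMod p))
    (hBad : FewBad Bad p₀ C₀) :
    ∃ (K : ℝ) (p₁ : ℕ), 1 ≤ K ∧ ∀ p : ℕ, p.Prime → p₁ ≤ p →
      |mn (cG H μ Bad) p - 0| ≤ K / Real.sqrt p ∧ mn (fun p u => cG H μ Bad p u ^ 2) p ≤ K := by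
  classical
  have hK := hH.one
  obtain ⟨M, hM⟩ : ∃ M : ℝ, M = 2 * K + 2 * μ ^ 2 := ⟨_, rfl⟩
  have hM0 : 2 ≤ M := by
    rw [hM]
    nlinarith [sq_nonneg μ]
  refine ⟨K + M + |C₀|, max p₀ p₁, by linarith [abs_nonneg C₀], fun p hpr hp => ?_⟩
  have : Fact p.Prime := ⟨hpr⟩
  have hpp₀ : p₀ ≤ p := (le_max_left _ _).trans hp
  have hpp₁ : p₁ ≤ p := (le_max_right _ _).trans hp
  have hp1 : (1 : ℝ) ≤ p := by exact_mod_cast hpr.one_lt.le
  have hp0 : (0 : ℝ) < p := by linarith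
  have hs0 : 0 < Real.sqrt p := Real.sqrt_pos.2 hp0
  have hss : Real.sqrt p * Real.sqrt p = p := Real.mul_self_sqrt hp0.le
  have h1 := hH.mean p hpr hpp₁
  have h2 := hH.sq p hpr hpp₁
  -- the second moment
  obtain ⟨f, hf⟩ : ∃ f : (κ → ZMod p) → ℝ, f = fun c => H p c - μ := ⟨_, rfl⟩
  have hf2 : av (fun c => f c ^ 2) ≤ M := by
    have h3 : ∀ c, f c ^ 2 ≤ 2 * H p c ^ 2 + 2 * μ ^ 2 := by
      intro c
      rw [hf]
      dsimp only
      nlinarith [sq_nonneg (H p c + μ)]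
    refine (av_mono h3).trans ?_
    rw [av_add, av_mul, av_const, ← mn_eq (fun p c => H p c ^ 2)]
    rw [hM]
    linarith
  have hG2 : mn (fun p u => cG H μ Bad p u ^ 2) p ≤ M := by
    rw [mn_eq (fun p u => cG H μ Bad p u ^ 2)]
    refine le_trans (av_mono fun c => ?_) hf2
    unfold cG
    split_ifs
    · rw [zero_pow two_ne_zero]
      exact sq_nonneg _
    · rw [hf]
  refine ⟨?_, by linarith [abs_nonneg C₀]⟩
  -- the mean
  rw [sub_zero, mn_eq]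
  have h3 : ∀ c : κ → ZMod p, |cG H μ Bad p c - f c| ≤ (1 / (2 * Real.sqrt p)) * f c ^ 2 + (Real.sqrt p / 2) * (if c ∈ Bad p then 1 else 0) := by
    intro c
    unfold cG
    split_ifs with hc
    · rw [zero_sub, abs_neg, mul_one]
      have h4 : 0 ≤ (1 / (2 * Real.sqrt p)) * (|f c| - Real.sqrt p) ^ 2 := by positivity
      have h5 : (1 / (2 * Real.sqrt p)) * (|f c| - Real.sqrt p) ^ 2 = (1 / (2 * Real.sqrt p)) * f c ^ 2 - |f c| + Real.sqrt p / 2 := by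
        rw [sub_sq, sq_abs]
        field_simp
      linarith
    · rw [hf, sub_self, abs_zero]
      positivity
  have h4 : av (fun c : κ → ZMod p => (if c ∈ Bad p then (1 : ℝ) else 0)) ≤ |C₀| / p := by
    unfold av
    rw [Fintype.card_fun, ZMod.card, sum_boole]
    push_cast
    rw [div_le_iff₀ (by positivity)]
    have h5 := hBad p hpr hpp₀
    have h6 : (univ.filter fun c : κ → ZMod p => c ∈ Bad p).card = (Bad p).ncard := by
      rw [← Set.ncard_coe_finset]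
      congr 1
      ext c
      simp
    rw [h6]
    refine h5.trans ?_
    refine mul_le_mul_of_nonneg_right (div_le_div_of_nonneg_right (le_abs_self _) hp0.le) (by positivity)
  have h5 : |av (cG H μ Bad p) - av f| ≤ (1 / (2 * Real.sqrt p)) * M + (Real.sqrt p / 2) * (|C₀| / p) := by
    rw [← av_sub]
    refine (abs_av_le _).trans ?_
    refine (av_mono h3).trans ?_
    rw [av_add, av_mul, av_mul]
    have h6 : (1 / (2 * Real.sqrt p)) * av (fun c => f c ^ 2) ≤ (1 / (2 * Real.sqrt p)) * M := mul_le_mul_of_nonneg_left hf2 (by positivity)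
    have h7 : (Real.sqrt p / 2) * av (fun c : κ → ZMod p => (if c ∈ Bad p then (1 : ℝ) else 0)) ≤ (Real.sqrt p / 2) * (|C₀| / p) :=
      mul_le_mul_of_nonneg_left h4 (by positivity)
    linarith
  have h6 : |av f| ≤ K / Real.sqrt p := by
    rw [hf, av_sub, av_const, ← mn_eq H]
    exact h1
  have h7 : (1 / (2 * Real.sqrt p)) * M + (Real.sqrt p / 2) * (|C₀| / p) ≤ (M + |C₀|) / Real.sqrt p := by
    have e1 : (Real.sqrt p / 2) * (|C₀| / p) = (|C₀| / 2) / Real.sqrt p := by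
      rw [eq_div_iff hs0.ne']
      have : Real.sqrt p / 2 * (|C₀| / p) * Real.sqrt p = (Real.sqrt p * Real.sqrt p) * (|C₀| / p) / 2 := by ring
      rw [this, hss]
      field_simp
    have e2 : (1 / (2 * Real.sqrt p)) * M = (M / 2) / Real.sqrt p := by
      field_simp
    rw [e1, e2, ← add_div]
    refine div_le_div_of_nonneg_right ?_ hs0.le
    linarith [abs_nonneg C₀]
  have h8 : (K + M + |C₀|) / Real.sqrt p = K / Real.sqrt p + (M + |C₀|) / Real.sqrt p := by ring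
  rw [h8]
  have h9 : |av (cG H μ Bad p)| ≤ |av f| + |av (cG H μ Bad p) - av f| := by
    have := abs_add_le (av f) (av (cG H μ Bad p) - av f)
    rwa [add_sub_cancel] at this
  linarith

open Classical in
/-- the primes of the interval at which the member is not bad -/
noncomputable def WW (Bad : (p : ℕ) → Set (κ → ZMod p)) (Y Y' : ℕ) (t : κ → ℤ) : Finset ℕ :=
  (IV Y Y').filter fun p => (fun x => (t x : ZMod p)) ∉ Bad p

/-- **sums of finitely many local functions** -/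
theorem glb {I : Type} [Fintype I] (H : I → (p : ℕ) → (κ → ZMod p) → ℝ) (μ : I → ℝ) (hH : ∀ a, ∃ (β p₁ : ℕ) (K : ℝ), Near1 (H a) (μ a) β p₁ K)
    (Bad : (p : ℕ) → Set (κ → ZMod p)) (p₀ : ℕ) (C₀ : ℝ) (hBad : FewBad Bad p₀ C₀) (ε : ℝ) (hε : 0 < ε) (hε1 : ε ≤ 1) :
    ∃ κ₀ : ℝ, 0 < κ₀ ∧ ∃ C : ℝ, 1 ≤ C ∧ ∀ (w : ℕ → ℝ), (∀ p, |w p| ≤ 1) → ∀ (N : κ → ℤ) (L : κ → ℕ) (T : ℝ), 0 < T → (∀ i, T ≤ L i) →
      ∀ X₀ : ℕ, 1 ≤ X₀ → ∃ E : Finset (κ → ℤ), E ⊆ kbox N L ∧ (E.card : ℝ) ≤ C * (X₀ : ℝ) ^ (-(ε / 2)) * ∏ i, (L i : ℝ) ∧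
      ∀ t ∈ kbox N L, t ∉ E → ∀ Y Y' : ℕ, Y ≤ Y' → X₀ ≤ Y' → (Y' : ℝ) ≤ T ^ κ₀ → ∀ a : I,
        |∑ p ∈ WW Bad Y Y' t, w p * (H a p (fun y => (t y : ZMod p)) - μ a)| ≤ C * (Y' : ℝ) ^ (1 / 2 + ε / 2) := by
  classical
  have hstep : ∀ a : I, ∃ κ₀ : ℝ, 0 < κ₀ ∧ ∃ C : ℝ, 1 ≤ C ∧ ∀ (w : ℕ → ℝ), (∀ p, |w p| ≤ 1) → ∀ (N : κ → ℤ) (L : κ → ℕ) (T : ℝ),
      0 < T → (∀ i, T ≤ L i) → ∀ X₀ : ℕ, 1 ≤ X₀ → ∃ E : Finset (κ → ℤ), E ⊆ kbox N L ∧ (E.card : ℝ) ≤ C * (X₀ : ℝ) ^ (-(ε / 2)) * ∏ i, (L i : ℝ) ∧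
      ∀ t ∈ kbox N L, t ∉ E → ∀ Y Y' : ℕ, Y ≤ Y' → X₀ ≤ Y' → (Y' : ℝ) ≤ T ^ κ₀ →
        |∑ p ∈ IV Y Y', w p * (cG (H a) (μ a) Bad p (fun i => (t i : ZMod p)) - 0)| ≤ C * (Y' : ℝ) ^ (1 / 2 + ε / 2) := by
    intro a
    obtain ⟨β, p₁, K, hN⟩ := hH a
    obtain ⟨K₂, p₂, hK₂, h1⟩ := cG_mean hN Bad hBad
    have hK0 : 0 ≤ K := by linarith [hN.one]
    have hμ0 : 0 ≤ |μ a| := abs_nonneg _
    exact lln (cG (H a) (μ a) Bad) β p₂ (K₂ + K + |μ a|) 0 (by linarith) (fun p hp u => by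
        refine (cG_abs hN Bad p hp u).trans ?_
        refine mul_le_mul_of_nonneg_right ?_ (by positivity)
        linarith)
      (fun p hp hpp => ((h1 p hp hpp).1).trans (div_le_div_of_nonneg_right (by linarith) (Real.sqrt_nonneg _)))
      (fun p hp hpp => ((h1 p hp hpp).2).trans (by linarith)) ε hε hε1
  choose κf hκf Cf hCf hstep using hstep
  obtain ⟨κ₀, hκ₀, hκmin⟩ : ∃ c : ℝ, 0 < c ∧ ∀ a : I, c ≤ κf a := by
    have : ∀ s : Finset I, ∃ c : ℝ, 0 < c ∧ ∀ k ∈ s, c ≤ κf k := by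
      intro s
      induction s using Finset.induction_on with
      | empty => exact ⟨1, one_pos, fun f hf => absurd hf (notMem_empty f)⟩
      | insert x s _ ih =>
        obtain ⟨c, hc, h'⟩ := ih
        refine ⟨min c (κf x), lt_min hc (hκf x), fun y hy => ?_⟩
        rcases mem_insert.1 hy with rfl | hy
        · exact min_le_right _ _
        · exact (min_le_left _ _).trans (h' y hy)
    obtain ⟨c, hc, h⟩ := this univ
    exact ⟨c, hc, fun a => h a (mem_univ a)⟩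
  obtain ⟨C₂, hC₂⟩ : ∃ C₂ : ℝ, C₂ = ∑ a, Cf a := ⟨_, rfl⟩
  have hCk : ∀ a, Cf a ≤ C₂ := fun a => by
    rw [hC₂]
    exact single_le_sum (f := Cf) (fun i _ => by linarith [hCf i]) (mem_univ a)
  have hC₂0 : 0 ≤ C₂ := by
    rw [hC₂]
    exact sum_nonneg fun i _ => by linarith [hCf i]
  refine ⟨κ₀, hκ₀, 1 + C₂, by linarith, fun w hw N L T hT hTL X₀ hX₀ => ?_⟩
  choose Ef hEf1 hEf2 hEf3 using fun a => hstep a w hw N L T hT hTL X₀ hX₀
  refine ⟨univ.biUnion Ef, biUnion_subset.2 fun k _ => hEf1 k, ?_, ?_⟩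
  · refine le_trans (Nat.cast_le.2 card_biUnion_le) ?_
    push_cast
    refine (sum_le_sum fun a _ => hEf2 a).trans ?_
    rw [← sum_mul, ← sum_mul, ← hC₂]
    have h2 : (0 : ℝ) ≤ ∏ i, (L i : ℝ) := prod_nonneg fun _ _ => Nat.cast_nonneg _
    refine mul_le_mul_of_nonneg_right (mul_le_mul_of_nonneg_right ?_ (by positivity)) h2
    linarith
  · intro t ht hnt Y Y' hYY hY hYT a
    rw [mem_biUnion] at hnt
    push Not at hnt
    have hY1 : (1 : ℝ) ≤ Y' := by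
      have : 1 ≤ Y' := hX₀.trans hY
      exact_mod_cast this
    have hT1 : 1 ≤ T := by
      by_contra hlt
      push Not at hlt
      have := Real.rpow_lt_one hT.le hlt hκ₀
      linarith
    have h1 := hEf3 a t ht (hnt a (mem_univ a)) Y Y' hYY hY (hYT.trans (Real.rpow_le_rpow_of_exponent_le hT1 (hκmin a)))
    have h2 : ∑ p ∈ IV Y Y', w p * (cG (H a) (μ a) Bad p (fun i => (t i : ZMod p)) - 0) =
        ∑ p ∈ WW Bad Y Y' t, w p * (H a p (fun y => (t y : ZMod p)) - μ a) := by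
      unfold WW
      rw [sum_filter]
      refine sum_congr rfl fun p _ => ?_
      unfold cG
      by_cases hb : (fun x => (t x : ZMod p)) ∈ Bad p <;> simp [hb]
    rw [h2] at h1
    refine h1.trans (mul_le_mul_of_nonneg_right ?_ (by positivity))
    linarith [hCk a]

end Pool.Agent.W2helper48.JT
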