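import Pool.Agent.W2helper48.JT.Frb

/-!
# Closed points
-/

set_option autoImplicit false
set_option linter.unusedSectionVars false

namespace Pool.Agent.W2helper48.JT

open Finset Function

section

variable {n p : ℕ} [hp : Fact p.Prime]

/-- the orbit -/
def ob (v : Fin (n + 1) → Om p) : Set (Fin (n + 1) → Om p) := {w | ∃ s, fr^[s] v = w}

lemma self_ob (v : Fin (n + 1) → Om p) : v ∈ ob v := ⟨0, rfl⟩

lemma ob_eq {v w : Fin (n + 1) → Om p} (hv : 0 < minimalPeriod fr v) (hw : w ∈ ob v) : ob w = ob v := by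
  obtain ⟨s, rfl⟩ := hw
  ext u
  constructor
  · rintro ⟨r, rfl⟩
    exact ⟨r + s, by rw [iterate_add_apply]⟩
  · rintro ⟨r, rfl⟩
    refine ⟨r + (minimalPeriod fr v * s - s), ?_⟩
    have h1 : s ≤ minimalPeriod fr v * s := Nat.le_mul_of_pos_left s hv
    rw [← iterate_add_apply, add_assoc, Nat.sub_add_cancel h1, iterate_add_apply]
    congr 1
    exact ((isPeriodicPt_minimalPeriod fr v).mul_const s)

/-- a representative of the orbit -/
noncomputable def rp (v : Fin (n + 1) → Om p) : Fin (n + 1) → Om p := Classical.epsilon fun w => w ∈ ob v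

lemma rp_mem (v : Fin (n + 1) → Om p) : rp v ∈ ob v := Classical.epsilon_spec (p := fun w => w ∈ ob v) ⟨v, self_ob v⟩

lemma rp_eq {v w : Fin (n + 1) → Om p} (h : ob v = ob w) : rp v = rp w := by
  unfold rp
  rw [h]

lemma per_iter (v : Fin (n + 1) → Om p) (hv : 0 < minimalPeriod fr v) (s : ℕ) : minimalPeriod fr (fr^[s] v) = minimalPeriod fr v :=
  minimalPeriod_apply_iterate (minimalPeriod_pos_iff_mem_periodicPts.1 hv) s

lemma per_ob {v w : Fin (n + 1) → Om p} (hv : 0 < minimalPeriod fr v) (hw : w ∈ ob v) : minimalPeriod fr w = minimalPeriod fr v := by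
  obtain ⟨s, rfl⟩ := hw
  exact per_iter v hv s

/-- the points of degree `d` -/
def MS (n p d : ℕ) [Fact p.Prime] : Set (Fin (n + 1) → Om p) := {v | Nrm v ∧ minimalPeriod fr v = d ∧ 0 < d}

lemma finite_MS (d : ℕ) : (MS n p d).Finite := by
  rcases Nat.eq_zero_or_pos d with rfl | hd
  · have : MS n p 0 = ∅ := by
      ext v
      constructor
      · rintro ⟨_, _, h⟩
        exact absurd h (lt_irrefl _)
      · intro h
        exact absurd h (Set.notMem_empty v)
    rw [this]
    exact Set.finite_empty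
  · refine (finite_PS (n := n) (p := p) d hd.ne').subset fun v hv => ⟨hv.1, ?_⟩
    have := isPeriodicPt_minimalPeriod fr v
    rwa [hv.2.1] at this

/-- the points of degree `d` -/
noncomputable def MM (n p d : ℕ) [Fact p.Prime] : Finset (Fin (n + 1) → Om p) := (finite_MS (n := n) (p := p) d).toFinset

lemma mem_MM {d : ℕ} {v : Fin (n + 1) → Om p} : v ∈ MM n p d ↔ Nrm v ∧ minimalPeriod fr v = d ∧ 0 < d := by
  unfold MM
  rw [Set.Finite.mem_toFinset]
  exact Iff.rfl

/-- representatives of the closed points of degree `d` -/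
noncomputable def CP (n p d : ℕ) [Fact p.Prime] : Finset (Fin (n + 1) → Om p) := (MM n p d).image rp

lemma ob_MM {d : ℕ} {v w : Fin (n + 1) → Om p} (hv : v ∈ MM n p d) (hw : w ∈ ob v) : w ∈ MM n p d := by
  rw [mem_MM] at hv ⊢
  obtain ⟨h1, h2, h3⟩ := hv
  refine ⟨?_, ?_, h3⟩
  · obtain ⟨s, rfl⟩ := hw
    exact nrm_iter h1 s
  · rw [per_ob (by omega) hw, h2]

lemma CP_sub {d : ℕ} : CP n p d ⊆ MM n p d := by
  intro v hv
  unfold CP at hv
  rw [mem_image] at hv
  obtain ⟨w, hw, rfl⟩ := hv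
  exact ob_MM hw (rp_mem w)

lemma rp_CP {d : ℕ} {v : Fin (n + 1) → Om p} (hv : v ∈ CP n p d) : rp v = v := by
  unfold CP at hv
  rw [mem_image] at hv
  obtain ⟨w, hw, rfl⟩ := hv
  exact rp_eq (ob_eq (by have := (mem_MM.1 hw).2; omega) (rp_mem w))

lemma CP_inj {d d' : ℕ} {v w : Fin (n + 1) → Om p} (hv : v ∈ CP n p d) (hw : w ∈ CP n p d') (h : w ∈ ob v) : w = v := by
  rw [← rp_CP hv, ← rp_CP hw]
  exact rp_eq (ob_eq (by have := (mem_MM.1 (CP_sub hv)).2; omega) h)

lemma iter_inj {v : Fin (n + 1) → Om p} {s r : ℕ} (hs : s < minimalPeriod fr v) (hr : r < minimalPeriod fr v) (h : fr^[s] v = fr^[r] v) : s = r := by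
  have h1 := (iterate_eq_iterate_iff_of_lt_minimalPeriod hs hr).1 h
  exact h1

/-- the orbit of a point of degree `d` -/
lemma ob_image {d : ℕ} {v : Fin (n + 1) → Om p} (hv : v ∈ MM n p d) : (ob v : Set _) = ↑((range d).image fun s => fr^[s] v) := by
  obtain ⟨_, h2, h3⟩ := mem_MM.1 hv
  ext w
  rw [mem_coe, mem_image]
  constructor
  · rintro ⟨s, rfl⟩
    refine ⟨s % d, mem_range.2 (Nat.mod_lt _ h3), ?_⟩
    rw [← h2]
    exact iterate_mod_minimalPeriod_eq
  · rintro ⟨s, _, rfl⟩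
    exact ⟨s, rfl⟩

lemma card_ob {d : ℕ} {v : Fin (n + 1) → Om p} (hv : v ∈ MM n p d) : ((range d).image fun s => fr^[s] v).card = d := by
  obtain ⟨_, h2, h3⟩ := mem_MM.1 hv
  rw [card_image_of_injOn, card_range]
  intro s hs r hr h
  rw [mem_coe, mem_range] at hs hr
  exact iter_inj (by rwa [h2]) (by rwa [h2]) h

/-- sums of invariant functions -/
lemma sum_MM {d : ℕ} (f : (Fin (n + 1) → Om p) → ℝ) (hf : ∀ v, f (fr v) = f v) : ∑ v ∈ MM n p d, f v = d * ∑ v ∈ CP n p d, f v := by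
  have hmap : ∀ v ∈ MM n p d, rp v ∈ CP n p d := fun v hv => mem_image_of_mem _ hv
  rw [← sum_fiberwise_of_maps_to hmap, mul_sum]
  refine sum_congr rfl fun a ha => ?_
  have ha' := CP_sub ha
  have hfib : (MM n p d).filter (fun v => rp v = a) = (range d).image fun s => fr^[s] a := by
    ext v
    rw [mem_filter]
    have h1 : v ∈ (range d).image (fun s => fr^[s] a) ↔ v ∈ ob a := by
      rw [ob_image ha', mem_coe]
    rw [h1]
    constructor
    · rintro ⟨h2, h3⟩
      have h4 := rp_mem v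
      rw [h3] at h4
      rw [ob_eq (by have := (mem_MM.1 h2).2; omega) h4]
      exact self_ob v
    · intro h2
      refine ⟨ob_MM ha' h2, ?_⟩
      rw [rp_eq (ob_eq (by have := (mem_MM.1 ha').2; omega) h2)]
      exact rp_CP ha
  have hiter : ∀ s : ℕ, f (fr^[s] a) = f a := by
    intro s
    induction s with
    | zero => rfl
    | succ s ih => rw [iterate_succ_apply', hf, ih]
  rw [hfib]
  have hconst : ∀ v ∈ (range d).image (fun s => fr^[s] a), f v = f a := by
    intro v hv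
    rw [mem_image] at hv
    obtain ⟨s, _, rfl⟩ := hv
    exact hiter s
  rw [sum_congr rfl hconst, sum_const, card_ob ha', nsmul_eq_mul]

lemma card_MM (d : ℕ) : (MM n p d).card = d * (CP n p d).card := by
  have h := sum_MM (n := n) (p := p) (d := d) (fun _ => 1) fun _ => rfl
  rw [sum_const, sum_const, nsmul_eq_mul, nsmul_eq_mul, mul_one, mul_one] at h
  exact_mod_cast h

/-- the points over the field with `p ^ j` elements have degrees dividing `j` -/
lemma PS_eq (j : ℕ) (hj : j ≠ 0) : PS n p j = ↑(j.divisors.biUnion fun d => MM n p d) := by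
  ext v
  rw [mem_coe, mem_biUnion]
  constructor
  · rintro ⟨h1, h2⟩
    have h3 : minimalPeriod fr v ∣ j := h2.minimalPeriod_dvd
    refine ⟨minimalPeriod fr v, Nat.mem_divisors.2 ⟨h3, hj⟩, mem_MM.2 ⟨h1, rfl, Nat.pos_of_dvd_of_pos h3 (Nat.pos_of_ne_zero hj)⟩⟩
  · rintro ⟨d, hd, hv⟩
    obtain ⟨h1, h2, h3⟩ := mem_MM.1 hv
    refine ⟨h1, ?_⟩
    rw [isPeriodicPt_iff_minimalPeriod_dvd, h2]
    exact (Nat.mem_divisors.1 hd).1

lemma MM_disj : Set.PairwiseDisjoint (Set.univ : Set ℕ) fun d => MM n p d := by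
  intro d _ d' _ h
  rw [Function.onFun, disjoint_left]
  intro v hv hv'
  apply h
  rw [← (mem_MM.1 hv).2.1, ← (mem_MM.1 hv').2.1]

/-- sums over the points over the field with `p ^ j` elements -/
lemma sum_div (j : ℕ) (f : (Fin (n + 1) → Om p) → ℝ) :
    ∑ v ∈ j.divisors.biUnion (fun d => MM n p d), f v = ∑ d ∈ j.divisors, ∑ v ∈ MM n p d, f v :=
  sum_biUnion fun d _ d' _ h => MM_disj (Set.mem_univ d) (Set.mem_univ d') h

lemma card_div (j : ℕ) (hj : j ≠ 0) : ∑ d ∈ j.divisors, (MM n p d).card = ∑ i ∈ range (n + 1), (p ^ j) ^ i := by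
  rw [← card_PS (n := n) (p := p) j hj, PS_eq j hj, Set.ncard_coe_finset, card_biUnion]
  intro d _ d' _ h
  exact MM_disj (Set.mem_univ d) (Set.mem_univ d') h

end

end Pool.Agent.W2helper48.JT
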